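import Pool.Agent.Helper32.DZ.OddZero

set_option autoImplicit false

/-!
DZR-12 OddZeroR. `odd_zero` with the dependence on `t` explicit.

PROOF: copy `Pool/Agent/Helper32/DZ/OddZero.lean`; the constant there is `K1 2^(t d^2) 2^(C0 + 3c)` with `K1`, `C0` depending
only on `m`, `c`, so it is at most `2^(K1' (t+1))`.
-/

open Matrix Pool.Agent.Helper32.DZ

namespace Pool.Agent.Helper38.DZR

/-- the exponent inequality behind `odd_zero` -/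
private theorem oz_exp (m c : ℕ) (hm : Even m) (h2 : 2 ≤ m) (κ : Fin (m + 1) → ℤ)
    (hκ : Monotone κ)
    (hc : ∀ i : Fin (m + 1), 1 ≤ κ i + κ i.rev ∧ κ i + κ i.rev ≤ 2 * (c : ℤ))
    (hs : ∑ i, κ i ≤ (c : ℤ)) :
    (m : ℤ) * κ 0 + (∑ j, if (0 : Fin (m + 1)) < j then κ j else 0) + 2 * Xk κ ≤
      Dk κ + κ (Fin.last m) + ((c + 2 * c * m + 8 * c * (m + 1) ^ 2 : ℕ) : ℤ) := by
  have hb := bracket hm κ hκ c hc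
  have h0 := (hc 0).2
  rw [Fin.rev_zero] at h0
  have hsum : (∑ j, if (0 : Fin (m + 1)) < j then κ j else 0) = ∑ j, κ j - κ 0 := by
    rw [Fin.sum_univ_succ, Fin.sum_univ_succ (f := κ)]
    simp [Fin.succ_pos]
  rw [hsum]
  have hm1 : (0 : ℤ) ≤ (m : ℤ) - 1 := by
    have : (2 : ℤ) ≤ m := by exact_mod_cast h2
    linarith
  have h3 : ((m : ℤ) - 1) * (κ 0 + κ (Fin.last m)) ≤ ((m : ℤ) - 1) * (2 * c) :=
    mul_le_mul_of_nonneg_left h0 hm1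
  have hc0 : (0 : ℤ) ≤ c := Int.natCast_nonneg c
  push_cast
  nlinarith

/-- `2^(κ_last) ≤ 2^(3c) 2^(-2 κ 0) (3/4)^(κ_last - κ 0)` -/
private theorem oz_pow (m c : ℕ) (κ : Fin (m + 1) → ℤ) (hκ : Monotone κ)
    (hc : ∀ i : Fin (m + 1), 1 ≤ κ i + κ i.rev ∧ κ i + κ i.rev ≤ 2 * (c : ℤ)) :
    (2 : ℝ) ^ (κ (Fin.last m)) ≤ (2 : ℝ) ^ (3 * c) * (2 : ℝ) ^ (-(2 * κ 0)) *
      (3 / 4 : ℝ) ^ (κ (Fin.last m) - κ 0) := by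
  have h0 := (hc 0).2
  rw [Fin.rev_zero] at h0
  have hl : 0 ≤ κ (Fin.last m) - κ 0 := by
    have := hκ (Fin.zero_le (Fin.last m))
    linarith
  obtain ⟨l, hl⟩ := Int.eq_ofNat_of_zero_le hl
  rw [hl]
  have hx : (2 : ℝ) ^ (κ (Fin.last m) + 2 * κ 0) ≤ (2 : ℝ) ^ (3 * c) * (3 / 4 : ℝ) ^ l := by
    have h4 : ((2 : ℝ) ^ (κ (Fin.last m) + 2 * κ 0)) ^ 2 ≤
        ((2 : ℝ) ^ (3 * c) * (3 / 4 : ℝ) ^ l) ^ 2 := by
      have e1 : ((2 : ℝ) ^ (κ (Fin.last m) + 2 * κ 0)) ^ 2 =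
          (2 : ℝ) ^ (2 * (κ (Fin.last m) + 2 * κ 0)) := by
        rw [← zpow_natCast, ← _root_.zpow_mul]
        congr 1
        push_cast
        ring
      have e2 : (2 : ℝ) ^ (2 * (κ (Fin.last m) + 2 * κ 0)) ≤
          (2 : ℝ) ^ ((6 * c : ℕ) : ℤ) * (2 : ℝ) ^ (-(l : ℤ)) := by
        rw [← zpow_add₀ (by norm_num : (2 : ℝ) ≠ 0)]
        apply zpow_le_zpow_right₀ (by norm_num)
        push_cast
        have : κ (Fin.last m) - κ 0 = (l : ℤ) := hl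
        linarith
      have e3 : (2 : ℝ) ^ (-(l : ℤ)) ≤ ((3 / 4 : ℝ) ^ l) ^ 2 := by
        rw [_root_.zpow_neg, zpow_natCast, ← inv_pow, ← pow_mul, mul_comm l 2, pow_mul]
        apply pow_le_pow_left₀ (by norm_num)
        norm_num
      rw [e1, mul_pow]
      refine e2.trans ?_
      have e4 : (2 : ℝ) ^ ((6 * c : ℕ) : ℤ) = ((2 : ℝ) ^ (3 * c)) ^ 2 := by
        rw [zpow_natCast, ← pow_mul]
        congr 1
        ring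
      rw [e4]
      exact mul_le_mul_of_nonneg_left e3 (by positivity)
    exact le_of_sq_le_sq h4 (by positivity)
  have e5 : (2 : ℝ) ^ (κ (Fin.last m)) = (2 : ℝ) ^ (κ (Fin.last m) + 2 * κ 0) *
      (2 : ℝ) ^ (-(2 * κ 0)) := by
    rw [← zpow_add₀ (by norm_num : (2 : ℝ) ≠ 0)]
    congr 1
    ring
  rw [e5]
  have h6 := mul_le_mul_of_nonneg_right hx (by positivity : (0 : ℝ) ≤ (2 : ℝ) ^ (-(2 * κ 0)))
  refine h6.trans (le_of_eq ?_)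
  rw [zpow_natCast]
  ring

theorem odd_zero_r (m : ℕ) (hm : Even m) (h2 : 2 ≤ m) (c : ℕ) : ∃ K1 : ℕ, ∀ t : ℕ,
    ∀ H : ℕ, 1 ≤ H → ∀ (q : ℕ) (a : ℤ), Squarefree q → (q : ℤ) ∣ a → (H : ℝ) ≤ 2 ^ t * q →
    ∀ κ : Fin (m + 1) → ℤ, Monotone κ →
    (∀ i : Fin (m + 1), 1 ≤ κ i + κ i.rev ∧ κ i + κ i.rev ≤ 2 * (c : ℤ)) → ∑ i, κ i ≤ (c : ℤ) →
    ∀ s : ℤ, s ≠ 0 →
    (({M ∈ OT (m + 1) H κ a | M.2 0 0 = s}.ncard : ℕ) : ℝ) ≤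
      2 ^ (K1 * (t + 1)) * (H : ℝ) ^ m * (2 : ℝ) ^ (Dk κ) * (2 : ℝ) ^ (-(2 * κ 0)) *
        (3 / 4 : ℝ) ^ (κ (Fin.last m) - κ 0) := by
  obtain ⟨K1, hK1, h1⟩ := odd_fixed (m + 1)
  have hK0 : (0 : ℝ) ≤ K1 := le_trans zero_le_one hK1
  obtain ⟨k1, hk1⟩ := pow_unbounded_of_one_lt K1 (one_lt_two : (1 : ℝ) < 2)
  refine ⟨k1 + (m + 1) ^ 2 + (c + 2 * c * m + 8 * c * (m + 1) ^ 2) + 3 * c, fun t => ?_⟩
  intro H hH q a hq hqa hHq κ hκ hc hs s hs0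
  have h3 := h1 ((2 : ℝ) ^ t) (one_le_pow₀ (by norm_num)) H hH q a hq hqa hHq κ hκ 0 s hs0
  have hset : {M ∈ OT (m + 1) H κ a | (∀ i, i < (0 : Fin (m + 1)) → M.2 i i = 0) ∧ M.2 0 0 = s} =
      {M ∈ OT (m + 1) H κ a | M.2 0 0 = s} := by
    ext M
    simp only [Set.mem_ofPred_eq]
    constructor
    · rintro ⟨h, -, h'⟩
      exact ⟨h, h'⟩
    · rintro ⟨h, h'⟩
      exact ⟨h, fun i hi => absurd hi (Fin.not_lt_zero i), h'⟩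
  rw [hset] at h3
  have e0 : (m + 1 - 1 - ((0 : Fin (m + 1)) : ℕ)) = m := by simp
  rw [e0] at h3
  refine h3.trans ?_
  have h4 := oz_exp m c hm h2 κ hκ hc hs
  have h5 := oz_pow m c κ hκ hc
  have h6 : (2 : ℝ) ^ ((m : ℤ) * κ 0 + (∑ j, if (0 : Fin (m + 1)) < j then κ j else 0) + 2 * Xk κ) ≤
      (2 : ℝ) ^ (Dk κ) * (2 : ℝ) ^ (κ (Fin.last m)) *
        (2 : ℝ) ^ (c + 2 * c * m + 8 * c * (m + 1) ^ 2) := by
    rw [← zpow_add₀ (by norm_num : (2 : ℝ) ≠ 0), ← zpow_natCast,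
      ← zpow_add₀ (by norm_num : (2 : ℝ) ≠ 0)]
    exact zpow_le_zpow_right₀ (by norm_num) h4
  have hA : (0 : ℝ) ≤ K1 * ((2 : ℝ) ^ t) ^ ((m + 1) ^ 2) * (H : ℝ) ^ m := by positivity
  have hcon : K1 * ((2 : ℝ) ^ t) ^ ((m + 1) ^ 2) *
      ((2 : ℝ) ^ (c + 2 * c * m + 8 * c * (m + 1) ^ 2) * (2 : ℝ) ^ (3 * c)) ≤
      (2 : ℝ) ^ ((k1 + (m + 1) ^ 2 + (c + 2 * c * m + 8 * c * (m + 1) ^ 2) + 3 * c) * (t + 1)) := by
    calc K1 * ((2 : ℝ) ^ t) ^ ((m + 1) ^ 2) *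
          ((2 : ℝ) ^ (c + 2 * c * m + 8 * c * (m + 1) ^ 2) * (2 : ℝ) ^ (3 * c))
        ≤ (2 : ℝ) ^ k1 * ((2 : ℝ) ^ t) ^ ((m + 1) ^ 2) *
          ((2 : ℝ) ^ (c + 2 * c * m + 8 * c * (m + 1) ^ 2) * (2 : ℝ) ^ (3 * c)) := by
          gcongr
      _ = (2 : ℝ) ^ (k1 + t * (m + 1) ^ 2 + (c + 2 * c * m + 8 * c * (m + 1) ^ 2 + 3 * c)) := by
          rw [← pow_mul, ← pow_add, ← pow_add, ← pow_add]
      _ ≤ _ := by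
          apply pow_le_pow_right₀ (by norm_num)
          have g1 : 0 ≤ k1 * t := Nat.zero_le _
          have g2 : 0 ≤ (c + 2 * c * m + 8 * c * (m + 1) ^ 2) * t := Nat.zero_le _
          have g3 : 0 ≤ 3 * c * t := Nat.zero_le _
          have g4 : 0 ≤ (m + 1) ^ 2 := Nat.zero_le _
          nlinarith
  have hB : (0 : ℝ) ≤ (H : ℝ) ^ m * (2 : ℝ) ^ (Dk κ) * (2 : ℝ) ^ (-(2 * κ 0)) *
      (3 / 4 : ℝ) ^ (κ (Fin.last m) - κ 0) := by positivity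
  calc K1 * ((2 : ℝ) ^ t) ^ ((m + 1) ^ 2) * (H : ℝ) ^ m *
        (2 : ℝ) ^ ((m : ℤ) * κ 0 + (∑ j, if (0 : Fin (m + 1)) < j then κ j else 0) + 2 * Xk κ)
      ≤ K1 * ((2 : ℝ) ^ t) ^ ((m + 1) ^ 2) * (H : ℝ) ^ m *
        ((2 : ℝ) ^ (Dk κ) * (2 : ℝ) ^ (κ (Fin.last m)) *
          (2 : ℝ) ^ (c + 2 * c * m + 8 * c * (m + 1) ^ 2)) :=
        mul_le_mul_of_nonneg_left h6 hA
    _ ≤ K1 * ((2 : ℝ) ^ t) ^ ((m + 1) ^ 2) * (H : ℝ) ^ m *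
        ((2 : ℝ) ^ (Dk κ) * ((2 : ℝ) ^ (3 * c) * (2 : ℝ) ^ (-(2 * κ 0)) *
          (3 / 4 : ℝ) ^ (κ (Fin.last m) - κ 0)) *
          (2 : ℝ) ^ (c + 2 * c * m + 8 * c * (m + 1) ^ 2)) := by
        apply mul_le_mul_of_nonneg_left _ hA
        apply mul_le_mul_of_nonneg_right _ (by positivity)
        exact mul_le_mul_of_nonneg_left h5 (by positivity)
    _ = (K1 * ((2 : ℝ) ^ t) ^ ((m + 1) ^ 2) *
        ((2 : ℝ) ^ (c + 2 * c * m + 8 * c * (m + 1) ^ 2) * (2 : ℝ) ^ (3 * c))) *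
        ((H : ℝ) ^ m * (2 : ℝ) ^ (Dk κ) * (2 : ℝ) ^ (-(2 * κ 0)) *
          (3 / 4 : ℝ) ^ (κ (Fin.last m) - κ 0)) := by ring
    _ ≤ _ := by
        refine (mul_le_mul_of_nonneg_right hcon hB).trans (le_of_eq ?_)
        ring

end Pool.Agent.Helper38.DZR
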