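import Pool.Agent.Helper32.DZ.OddLow

set_option autoImplicit false

/-!
DZR-13 OddLowR. `odd_low` with the dependence on `t` explicit.

PROOF: copy `Pool/Agent/Helper32/DZ/OddLow.lean`; the constant there is `2^(2 g w + 1)`, `w = 2c + t + 1`.
-/

open Matrix Pool.Agent.Helper32.DZ

namespace Pool.Agent.Helper38.DZR

private theorem odd_low_aux (g : ℕ) (c t : ℕ) :
    ∀ H : ℕ, 1 ≤ H → ∀ (q : ℕ) (a : ℤ), Squarefree q → (q : ℤ) ∣ a → (H : ℝ) ≤ 2 ^ t * q →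
    ∀ κ : Fin (g + g + 1) → ℤ, Monotone κ →
    (∀ i : Fin (g + g + 1), 1 ≤ κ i + κ i.rev ∧ κ i + κ i.rev ≤ 2 * (c : ℤ)) →
    (OT (g + g + 1) H κ a).Nonempty →
    (2 : ℝ) ^ (-(2 * κ 0)) ≤ (2 : ℝ) ^ (2 * (g * (2 * c + t + 1)) + 1) * H := by
  intro H hH q a hq hqa hHq κ hκ hc hne
  obtain ⟨M, hM⟩ := hne
  have hd : g + g + 1 = 2 * g + 1 := by ring
  have hH1 : (1 : ℝ) ≤ (H : ℝ) := by exact_mod_cast hH
  have hK1 : (1 : ℝ) ≤ (2 : ℝ) ^ (2 * (g * (2 * c + t + 1))) := one_le_pow₀ (by norm_num)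
  have hstep : ∀ k : ℕ, ∀ hk : k ≤ g, (∀ i : Fin (g + g + 1), (i : ℕ) < k → M.2 i i = 0) →
      κ ⟨k, by omega⟩ ≤ κ 0 + (k : ℤ) * (2 * (c : ℤ) + t + 1) := by
    intro k
    induction k with
    | zero =>
      intro _ _
      have h1 : (⟨0, by omega⟩ : Fin (g + g + 1)) = 0 := rfl
      rw [h1]
      simp
    | succ k ih =>
      intro hk hP
      have h1 := ih (by omega) (fun i hi => hP i (by omega))
      have h2 := pivot_constr hd κ hκ (c : ℤ) hc H q t a hq hqa hHq M hM (k + 1) hP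
        ⟨k, by omega⟩ ⟨k + 1, by omega⟩ (by simp) (by simp only; omega) rfl
      push_cast
      linarith
  by_cases hall : ∀ i : Fin (g + g + 1), (i : ℕ) < g → M.2 i i = 0
  · have h1 := hstep g le_rfl hall
    have h2 := (hc ⟨g, by omega⟩).1
    have h3 : (⟨g, by omega⟩ : Fin (g + g + 1)).rev = ⟨g, by omega⟩ := by
      ext
      rw [Fin.val_rev]
      simp only
      omega
    rw [h3] at h2
    have h4 : -(2 * κ 0) ≤ ((2 * (g * (2 * c + t + 1)) : ℕ) : ℤ) := by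
      push_cast
      have h5 : (1 : ℤ) ≤ κ ⟨g, by omega⟩ := by omega
      linarith
    have h5 : (2 : ℝ) ^ (-(2 * κ 0)) ≤ (2 : ℝ) ^ (2 * (g * (2 * c + t + 1))) := by
      rw [← _root_.zpow_natCast]
      exact zpow_le_zpow_right₀ (by norm_num) h4
    refine h5.trans ?_
    rw [pow_succ]
    nlinarith
  · have hex : ∃ k : ℕ, ∃ hk : k < g, (∀ i : Fin (g + g + 1), (i : ℕ) < k → M.2 i i = 0) ∧
        M.2 ⟨k, by omega⟩ ⟨k, by omega⟩ ≠ 0 := by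
      by_contra hno
      push Not at hno
      apply hall
      have h1 : ∀ k : ℕ, k ≤ g → ∀ i : Fin (g + g + 1), (i : ℕ) < k → M.2 i i = 0 := by
        intro k
        induction k with
        | zero => intro _ i hi; omega
        | succ k ih =>
          intro hk i hi
          rcases Nat.lt_succ_iff_lt_or_eq.1 hi with h2 | h2
          · exact ih (by omega) i h2
          · have h3 := hno k (by omega) (ih (by omega))
            have h4 : i = ⟨k, by omega⟩ := Fin.ext h2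
            rw [h4]
            exact h3
      exact h1 g le_rfl
    obtain ⟨k, hk, hP, hne0⟩ := hex
    have h1 := hstep k hk.le hP
    have h2 := hM.2.1.2 ⟨k, by omega⟩ ⟨k, by omega⟩
    have h3 : (1 : ℝ) ≤ |((M.2 ⟨k, by omega⟩ ⟨k, by omega⟩ : ℤ) : ℝ)| := by
      exact_mod_cast Int.one_le_abs hne0
    have h4 : (1 : ℝ) < 2 * (H : ℝ) * (2 : ℝ) ^ (κ ⟨k, by omega⟩ + κ ⟨k, by omega⟩) :=
      lt_of_le_of_lt h3 h2
    have hpos : (0 : ℝ) < (2 : ℝ) ^ (-(2 * κ ⟨k, by omega⟩)) := by positivity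
    have h5 : (2 : ℝ) ^ (-(2 * κ ⟨k, by omega⟩)) *
        (2 : ℝ) ^ (κ ⟨k, by omega⟩ + κ ⟨k, by omega⟩) = 1 := by
      rw [← zpow_add₀ (by norm_num)]
      have : -(2 * κ ⟨k, by omega⟩) + (κ ⟨k, by omega⟩ + κ ⟨k, by omega⟩) = 0 := by ring
      rw [this, _root_.zpow_zero]
    have h6 : (2 : ℝ) ^ (-(2 * κ ⟨k, by omega⟩)) ≤ 2 * (H : ℝ) := by
      have h7 := mul_lt_mul_of_pos_left h4 hpos
      rw [mul_one] at h7
      calc (2 : ℝ) ^ (-(2 * κ ⟨k, by omega⟩)) ≤ (2 : ℝ) ^ (-(2 * κ ⟨k, by omega⟩)) *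
            (2 * (H : ℝ) * (2 : ℝ) ^ (κ ⟨k, by omega⟩ + κ ⟨k, by omega⟩)) := h7.le
        _ = 2 * (H : ℝ) * ((2 : ℝ) ^ (-(2 * κ ⟨k, by omega⟩)) *
            (2 : ℝ) ^ (κ ⟨k, by omega⟩ + κ ⟨k, by omega⟩)) := by ring
        _ = 2 * (H : ℝ) := by rw [h5, mul_one]
    have h7 : -(2 * κ 0) ≤ -(2 * κ ⟨k, by omega⟩) +
        ((2 * (g * (2 * c + t + 1)) : ℕ) : ℤ) := by
      push_cast
      have h8 : (k : ℤ) * (2 * (c : ℤ) + t + 1) ≤ (g : ℤ) * (2 * (c : ℤ) + t + 1) :=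
        mul_le_mul_of_nonneg_right (by exact_mod_cast hk.le) (by positivity)
      linarith
    have h8 : (2 : ℝ) ^ (-(2 * κ 0)) ≤ (2 : ℝ) ^ (-(2 * κ ⟨k, by omega⟩)) *
        (2 : ℝ) ^ (2 * (g * (2 * c + t + 1))) := by
      rw [← _root_.zpow_natCast, ← zpow_add₀ (by norm_num)]
      exact zpow_le_zpow_right₀ (by norm_num) h7
    refine h8.trans ?_
    calc (2 : ℝ) ^ (-(2 * κ ⟨k, by omega⟩)) * (2 : ℝ) ^ (2 * (g * (2 * c + t + 1))) ≤
          2 * (H : ℝ) * (2 : ℝ) ^ (2 * (g * (2 * c + t + 1))) :=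
            mul_le_mul_of_nonneg_right h6 (by positivity)
      _ = (2 : ℝ) ^ (2 * (g * (2 * c + t + 1)) + 1) * H := by
            rw [pow_succ]
            ring

theorem odd_low_r (m : ℕ) (hm : Even m) (h2 : 2 ≤ m) (c : ℕ) : ∃ K1 : ℕ, ∀ t : ℕ,
    ∀ H : ℕ, 1 ≤ H → ∀ (q : ℕ) (a : ℤ), Squarefree q → (q : ℤ) ∣ a → (H : ℝ) ≤ 2 ^ t * q →
    ∀ κ : Fin (m + 1) → ℤ, Monotone κ →
    (∀ i : Fin (m + 1), 1 ≤ κ i + κ i.rev ∧ κ i + κ i.rev ≤ 2 * (c : ℤ)) →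
    (OT (m + 1) H κ a).Nonempty → (2 : ℝ) ^ (-(2 * κ 0)) ≤ 2 ^ (K1 * (t + 1)) * H := by
  obtain ⟨g, rfl⟩ := hm
  refine ⟨4 * g * c + 2 * g + 1, ?_⟩
  intro t H hH q a hq hqa hHq κ hκ hc hne
  refine (odd_low_aux g c t H hH q a hq hqa hHq κ hκ hc hne).trans ?_
  apply mul_le_mul_of_nonneg_right _ (Nat.cast_nonneg _)
  apply pow_le_pow_right₀ (by norm_num)
  nlinarith [Nat.zero_le (g * c * t), Nat.zero_le t, Nat.zero_le g]

end Pool.Agent.Helper38.DZR
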