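import Pool.Agent.Helper38.DZR.SumCellsB

set_option autoImplicit false

/-!
DZR-19 OddTotalR. Sum over all cells, odd degree (pure analysis).

PROOF. `l = κ last - κ 0 ≥ 0`. For `2 ≤ H < 4` use the trivial bound `N κ ≤ 8 H^2 2^(2 κ 0)` and `sum_cells_b` (constants). Let
`H ≥ 4`.
(1) Cells with `2^(2 κ 0) ≥ H^(-1/2)`: with `N0 = √H ≥ 2`: `N0 ≤ H`, `N0 ≤ 2 H 2^(2 κ 0)`, so
`N κ ≤ K (log N0)^(-1/8) H^2 2^(2 κ 0)`, the term is `≤ K H^(m+2) (log √H)^(-1/8) (3/4)^l`; group by `σ ∈ {1,...,c}` and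
`sum_cells_b` with `β = 3/4`: `≤ C H^(m+2) (log H)^(-1/8)`.
(2) Cells with `2^(2 κ 0) < H^(-1/2)`: `l ≥ 1 - 2 κ 0` (as `κ 0 + κ last ≥ 1`) and `2^(-2 κ 0) > H^(1/2)`, so
`2^l ≥ H^(1/2)`. The term is `≤ 8 H^(m+2) (3/4)^l`, `(3/4)^l = ((3/4)^(1/2))^l ((3/4)^(1/2))^l` and
`((3/4)^(1/2))^l ≤ (2^(-1/5))^l ≤ H^(-1/10)` (`3/4 ≤ 2^(-2/5)`, i.e. `(3/4)^5 ≤ 1/4`). `sum_cells_b` with `β = √(3/4)`:
`≤ C H^(m+2) H^(-1/10) ≤ C' H^(m+2) (log H)^(-1/8)`.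
-/

namespace Pool.Agent.Helper38.DZR

private theorem h45_zpow_exp' (k : ℤ) : (2 : ℝ) ^ k = Real.exp ((k : ℝ) * Real.log 2) := by
  rw [← Real.rpow_intCast, Real.rpow_def_of_pos (by norm_num)]
  congr 1
  ring

private theorem h45_group3 (m : ℕ) (A B L β : ℝ) (hA : 0 ≤ A) (hB : 0 ≤ B) (hL : 0 ≤ L)
    (T : Finset (Fin (m + 1) → ℤ)) (c : (Fin (m + 1) → ℤ) → ℝ)
    (hc : ∀ κ ∈ T, c κ ≤ A * β ^ (κ (Fin.last m) - κ 0))
    (hT : ∀ σ : ℤ, ∑ κ ∈ T with ∑ i, κ i = σ, β ^ (κ (Fin.last m) - κ 0) ≤ B)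
    (hs : ∀ κ ∈ T, 1 ≤ ∑ i, κ i ∧ ((∑ i, κ i : ℤ) : ℝ) ≤ L) :
    ∑ κ ∈ T, c κ ≤ A * B * L := by
  classical
  refine (Finset.sum_le_sum hc).trans ?_
  rw [← Finset.sum_fiberwise_of_maps_to (s := T) (t := T.image fun κ => ∑ i, κ i)
    (g := fun κ => ∑ i, κ i) (fun κ hκ => Finset.mem_image_of_mem _ hκ)]
  have h1 : ∀ σ ∈ T.image (fun κ => ∑ i, κ i),
      (∑ κ ∈ T with ∑ i, κ i = σ, A * β ^ (κ (Fin.last m) - κ 0)) ≤ A * B := by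
    intro σ _
    rw [← Finset.mul_sum]
    exact mul_le_mul_of_nonneg_left (hT σ) hA
  refine (Finset.sum_le_sum h1).trans ?_
  rw [Finset.sum_const, nsmul_eq_mul, mul_comm]
  refine mul_le_mul_of_nonneg_left ?_ (mul_nonneg hA hB)
  have h2 : (T.image fun κ => ∑ i, κ i) ⊆ Finset.Icc 1 ⌊L⌋ := by
    intro σ hσ
    obtain ⟨κ, hκ, rfl⟩ := Finset.mem_image.1 hσ
    rw [Finset.mem_Icc]
    exact ⟨(hs κ hκ).1, Int.le_floor.2 (hs κ hκ).2⟩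
  have h3 := Finset.card_le_card h2
  rw [Int.card_Icc] at h3
  have h4 : 0 ≤ ⌊L⌋ := Int.floor_nonneg.2 hL
  have h5 : (((T.image fun κ => ∑ i, κ i).card : ℕ) : ℤ) ≤ ⌊L⌋ := by omega
  have h6 : ((((T.image fun κ => ∑ i, κ i).card : ℕ) : ℤ) : ℝ) ≤ ((⌊L⌋ : ℤ) : ℝ) := by
    exact_mod_cast h5
  rw [Int.cast_natCast] at h6
  exact h6.trans (Int.floor_le L)

private theorem h45_term (m : ℕ) (H X n b : ℝ) (k : ℤ) (hH : 0 ≤ H) (hb : 0 ≤ b)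
    (h : n ≤ X * H ^ 2 * (2 : ℝ) ^ (2 * k)) :
    H ^ m * (2 : ℝ) ^ (-(2 * k)) * b * n ≤ X * H ^ (m + 2) * b := by
  have h1 : (2 : ℝ) ^ (-(2 * k)) * (2 : ℝ) ^ (2 * k) = 1 := by
    rw [← zpow_add₀ (by norm_num), neg_add_cancel, zpow_zero]
  have h2 : 0 ≤ H ^ m * (2 : ℝ) ^ (-(2 * k)) * b := by positivity
  calc H ^ m * (2 : ℝ) ^ (-(2 * k)) * b * n
      ≤ H ^ m * (2 : ℝ) ^ (-(2 * k)) * b * (X * H ^ 2 * (2 : ℝ) ^ (2 * k)) :=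
        mul_le_mul_of_nonneg_left h h2
    _ = X * H ^ (m + 2) * b * ((2 : ℝ) ^ (-(2 * k)) * (2 : ℝ) ^ (2 * k)) := by
        rw [pow_add]
        ring
    _ = X * H ^ (m + 2) * b := by rw [h1, mul_one]

theorem odd_total_r (m c : ℕ) (K : ℝ) (hK : 1 ≤ K) : ∃ C : ℝ, 1 ≤ C ∧ ∀ H : ℕ, 2 ≤ H →
    ∀ (I : Finset (Fin (m + 1) → ℤ)) (N : (Fin (m + 1) → ℤ) → ℝ),
    (∀ κ ∈ I, Monotone κ ∧ 1 ≤ κ 0 + κ (Fin.last m) ∧ 1 ≤ ∑ i, κ i ∧ ∑ i, κ i ≤ (c : ℤ)) →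
    (∀ κ ∈ I, 0 ≤ N κ ∧ N κ ≤ 8 * (H : ℝ) ^ 2 * (2 : ℝ) ^ (2 * κ 0)) →
    (∀ κ ∈ I, ∀ N0 : ℝ, 2 ≤ N0 → N0 ≤ H → N0 ≤ 2 * H * (2 : ℝ) ^ (2 * κ 0) →
      N κ ≤ K * (Real.log N0) ^ (-(1 / 8 : ℝ)) * (H : ℝ) ^ 2 * (2 : ℝ) ^ (2 * κ 0)) →
    ∑ κ ∈ I, (H : ℝ) ^ m * (2 : ℝ) ^ (-(2 * κ 0)) * (3 / 4 : ℝ) ^ (κ (Fin.last m) - κ 0) * N κ ≤
      C * (H : ℝ) ^ (m + 2) * (Real.log H) ^ (-(1 / 8 : ℝ)) := by
  classical
  obtain ⟨B0, hB0, hC0⟩ := sum_cells_b m (3 / 4) (by norm_num) (by norm_num)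
  have hβ1 : Real.sqrt (3 / 4) * Real.sqrt (3 / 4) = 3 / 4 := Real.mul_self_sqrt (by norm_num)
  have hβp : 0 < Real.sqrt (3 / 4) := Real.sqrt_pos.2 (by norm_num)
  have hβl : Real.sqrt (3 / 4) < 1 := by
    rw [Real.sqrt_lt' one_pos]
    norm_num
  obtain ⟨B1, hB1, hC1⟩ := sum_cells_b m (Real.sqrt (3 / 4)) hβp hβl
  have hK0 : 0 < K := by linarith
  have hc0 : (0 : ℝ) ≤ (c : ℝ) := Nat.cast_nonneg c
  refine ⟨1 + 16 * B0 * c + 2 * K * B0 * c + 80 * B1 * c, ?_, ?_⟩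
  · have h1 : 0 ≤ 16 * B0 * c + 2 * K * B0 * c + 80 * B1 * c := by positivity
    linarith
  intro H hH I N hI hN hdens
  have hH2 : (2 : ℝ) ≤ (H : ℝ) := by exact_mod_cast hH
  have hH0 : (0 : ℝ) < (H : ℝ) := by linarith
  obtain ⟨L, hL⟩ : ∃ L : ℝ, L = Real.log (H : ℝ) := ⟨_, rfl⟩
  have hLpos : 0 < L := by rw [hL]; exact Real.log_pos (by linarith)
  have hHexp : (H : ℝ) = Real.exp L := by rw [hL, Real.exp_log hH0]
  rw [← hL]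
  have hHp : 0 < (H : ℝ) ^ (m + 2) := by positivity
  have hLr : 0 < L ^ (-(1 / 8 : ℝ)) := Real.rpow_pos_of_pos hLpos _
  have hl2 : 0 < Real.log 2 := Real.log_pos (by norm_num)
  rcases lt_or_ge H 4 with h4 | h4
  · have h1 := h45_group3 m (8 * (H : ℝ) ^ (m + 2)) B0 c (3 / 4) (by positivity) hB0.le hc0 I
      (fun κ => (H : ℝ) ^ m * (2 : ℝ) ^ (-(2 * κ 0)) * (3 / 4 : ℝ) ^ (κ (Fin.last m) - κ 0) * N κ)
      (fun κ hκ => h45_term m H 8 (N κ) _ (κ 0) hH0.le (by positivity) (hN κ hκ).2)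
      (fun σ => hC0 _ σ fun κ hκ => ⟨(hI κ (Finset.mem_filter.1 hκ).1).1,
        (Finset.mem_filter.1 hκ).2⟩)
      (fun κ hκ => ⟨(hI κ hκ).2.2.1, by exact_mod_cast (hI κ hκ).2.2.2⟩)
    have h2 : 1 ≤ 2 * L ^ (-(1 / 8 : ℝ)) := by
      have hL2 : L ≤ 2 := by
        have h3 : (H : ℝ) ≤ 3 := by
          have : H ≤ 3 := by omega
          exact_mod_cast this
        have h5 : L ≤ (H : ℝ) - 1 := by
          rw [hL]
          exact Real.log_le_sub_one_of_pos hH0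
        linarith
      have h3 : (2 : ℝ) ^ (-(1 / 8 : ℝ)) ≤ L ^ (-(1 / 8 : ℝ)) :=
        Real.antitoneOn_rpow_Ioi_of_exponent_nonpos (by norm_num) hLpos
          (show (2 : ℝ) ∈ Set.Ioi 0 by simp) hL2
      have h5 : (2 : ℝ) ^ (-1 : ℝ) ≤ (2 : ℝ) ^ (-(1 / 8 : ℝ)) :=
        Real.rpow_le_rpow_of_exponent_le (by norm_num) (by norm_num)
      rw [Real.rpow_neg_one] at h5
      linarith
    calc ∑ κ ∈ I, (H : ℝ) ^ m * (2 : ℝ) ^ (-(2 * κ 0)) *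
          (3 / 4 : ℝ) ^ (κ (Fin.last m) - κ 0) * N κ ≤ 8 * (H : ℝ) ^ (m + 2) * B0 * c := h1
      _ = 8 * (H : ℝ) ^ (m + 2) * B0 * c * 1 := by ring
      _ ≤ 8 * (H : ℝ) ^ (m + 2) * B0 * c * (2 * L ^ (-(1 / 8 : ℝ))) :=
          mul_le_mul_of_nonneg_left h2 (by positivity)
      _ = 16 * B0 * c * (H : ℝ) ^ (m + 2) * L ^ (-(1 / 8 : ℝ)) := by ring
      _ ≤ (1 + 16 * B0 * c + 2 * K * B0 * c + 80 * B1 * c) * (H : ℝ) ^ (m + 2) *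
          L ^ (-(1 / 8 : ℝ)) := by
          refine mul_le_mul_of_nonneg_right (mul_le_mul_of_nonneg_right ?_ hHp.le) hLr.le
          have h3 : 0 ≤ 1 + 2 * K * B0 * c + 80 * B1 * c := by positivity
          linarith
  have hH4 : (4 : ℝ) ≤ (H : ℝ) := by exact_mod_cast h4
  have hs2 : 2 ≤ Real.sqrt H := by
    refine Real.le_sqrt_of_sq_le ?_
    linarith
  have hsq : Real.sqrt H * Real.sqrt H = H := Real.mul_self_sqrt hH0.le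
  have hlogs : Real.log (Real.sqrt H) = L / 2 := by
    rw [Real.log_sqrt hH0.le, hL]
  have hL1 : 1 ≤ L := by
    have h1 : 2 * Real.log 2 ≤ L := by
      have h2 : 2 * Real.log 2 = Real.log 4 := by
        have h3 : (4 : ℝ) = 2 ^ 2 := by norm_num
        rw [h3, Real.log_pow]
        norm_num
      rw [h2, hL]
      exact Real.log_le_log (by norm_num) hH4
    have := Real.log_two_gt_d9
    linarith
  have hsplit := Finset.sum_filter_add_sum_filter_not I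
    (fun κ : Fin (m + 1) → ℤ => 1 ≤ Real.sqrt H * (2 : ℝ) ^ (2 * κ 0))
    (fun κ => (H : ℝ) ^ m * (2 : ℝ) ^ (-(2 * κ 0)) * (3 / 4 : ℝ) ^ (κ (Fin.last m) - κ 0) * N κ)
  -- (1)
  have e1 : ∑ κ ∈ I.filter (fun κ : Fin (m + 1) → ℤ => 1 ≤ Real.sqrt H * (2 : ℝ) ^ (2 * κ 0)),
      (H : ℝ) ^ m * (2 : ℝ) ^ (-(2 * κ 0)) * (3 / 4 : ℝ) ^ (κ (Fin.last m) - κ 0) * N κ ≤
      (2 * K * L ^ (-(1 / 8 : ℝ)) * (H : ℝ) ^ (m + 2)) * B0 * c := by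
    refine h45_group3 m (2 * K * L ^ (-(1 / 8 : ℝ)) * (H : ℝ) ^ (m + 2)) B0 c (3 / 4)
      (by positivity) hB0.le hc0 _
      (fun κ => (H : ℝ) ^ m * (2 : ℝ) ^ (-(2 * κ 0)) * (3 / 4 : ℝ) ^ (κ (Fin.last m) - κ 0) * N κ)
      ?_ ?_ ?_
    · intro κ hκ
      obtain ⟨hκI, hκ1⟩ := Finset.mem_filter.1 hκ
      refine h45_term m H (2 * K * L ^ (-(1 / 8 : ℝ))) (N κ) _ (κ 0) hH0.le (by positivity) ?_
      have h1 : Real.sqrt H ≤ H := by nlinarith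
      have h2 : Real.sqrt H ≤ 2 * H * (2 : ℝ) ^ (2 * κ 0) := by
        have h3 : 2 * (H : ℝ) * (2 : ℝ) ^ (2 * κ 0) =
            2 * Real.sqrt H * (Real.sqrt H * (2 : ℝ) ^ (2 * κ 0)) := by
          rw [← hsq]
          have h5 : Real.sqrt (Real.sqrt H * Real.sqrt H) = Real.sqrt H := by rw [hsq]
          rw [h5]
          ring
        rw [h3]
        have h5 : 0 ≤ 2 * Real.sqrt H := by positivity
        have h6 := mul_le_mul_of_nonneg_left hκ1 h5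
        have h7 : 0 ≤ Real.sqrt H := Real.sqrt_nonneg _
        linarith
      have h3 := hdens κ hκI _ hs2 h1 h2
      rw [hlogs] at h3
      have h5 : (L / 2) ^ (-(1 / 8 : ℝ)) ≤ 2 * L ^ (-(1 / 8 : ℝ)) := by
        rw [div_eq_mul_inv, Real.mul_rpow hLpos.le (by norm_num)]
        have h6 : ((2 : ℝ)⁻¹) ^ (-(1 / 8 : ℝ)) ≤ 2 := by
          rw [Real.inv_rpow (by norm_num), Real.rpow_neg (by norm_num), inv_inv]
          calc (2 : ℝ) ^ (1 / 8 : ℝ) ≤ (2 : ℝ) ^ (1 : ℝ) :=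
                Real.rpow_le_rpow_of_exponent_le (by norm_num) (by norm_num)
            _ = 2 := Real.rpow_one 2
        rw [mul_comm]
        exact mul_le_mul_of_nonneg_right h6 hLr.le
      refine h3.trans ?_
      have h6 : 0 ≤ K * ((H : ℝ) ^ 2 * (2 : ℝ) ^ (2 * κ 0)) := by positivity
      have h7 := mul_le_mul_of_nonneg_left h5 h6
      calc K * (L / 2) ^ (-(1 / 8 : ℝ)) * (H : ℝ) ^ 2 * (2 : ℝ) ^ (2 * κ 0)
          = K * ((H : ℝ) ^ 2 * (2 : ℝ) ^ (2 * κ 0)) * (L / 2) ^ (-(1 / 8 : ℝ)) := by ring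
        _ ≤ K * ((H : ℝ) ^ 2 * (2 : ℝ) ^ (2 * κ 0)) * (2 * L ^ (-(1 / 8 : ℝ))) := h7
        _ = 2 * K * L ^ (-(1 / 8 : ℝ)) * (H : ℝ) ^ 2 * (2 : ℝ) ^ (2 * κ 0) := by ring
    · intro σ
      refine hC0 _ σ fun κ hκ => ?_
      obtain ⟨h1, h2⟩ := Finset.mem_filter.1 hκ
      exact ⟨(hI κ (Finset.mem_filter.1 h1).1).1, h2⟩
    · intro κ hκ
      have h1 := hI κ (Finset.mem_filter.1 hκ).1
      exact ⟨h1.2.2.1, by exact_mod_cast h1.2.2.2⟩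
  -- (2)
  have e2 : ∑ κ ∈ I.filter (fun κ : Fin (m + 1) → ℤ => ¬ 1 ≤ Real.sqrt H * (2 : ℝ) ^ (2 * κ 0)),
      (H : ℝ) ^ m * (2 : ℝ) ^ (-(2 * κ 0)) * (3 / 4 : ℝ) ^ (κ (Fin.last m) - κ 0) * N κ ≤
      (80 * L ^ (-(1 / 8 : ℝ)) * (H : ℝ) ^ (m + 2)) * B1 * c := by
    refine h45_group3 m (80 * L ^ (-(1 / 8 : ℝ)) * (H : ℝ) ^ (m + 2)) B1 c (Real.sqrt (3 / 4))
      (by positivity) hB1.le hc0 _
      (fun κ => (H : ℝ) ^ m * (2 : ℝ) ^ (-(2 * κ 0)) * (3 / 4 : ℝ) ^ (κ (Fin.last m) - κ 0) * N κ)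
      ?_ ?_ ?_
    · intro κ hκ
      obtain ⟨hκI, hκ1⟩ := Finset.mem_filter.1 hκ
      obtain ⟨hmono, hsum, -, -⟩ := hI κ hκI
      have h1 := h45_term m H 8 (N κ) ((3 / 4 : ℝ) ^ (κ (Fin.last m) - κ 0)) (κ 0) hH0.le
        (by positivity) (hN κ hκI).2
      refine h1.trans ?_
      obtain ⟨l, hl⟩ : ∃ l : ℕ, κ (Fin.last m) - κ 0 = (l : ℤ) := by
        have := hmono (Fin.zero_le (Fin.last m))
        exact ⟨(κ (Fin.last m) - κ 0).toNat, by omega⟩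
      rw [hl, zpow_natCast, zpow_natCast]
      -- `2 ^ l ≥ √H`
      have h2 : L / 2 ≤ (l : ℝ) * Real.log 2 := by
        have h3 : Real.sqrt H * (2 : ℝ) ^ (2 * κ 0) < 1 := not_le.1 hκ1
        have h5 : Real.log (Real.sqrt H * (2 : ℝ) ^ (2 * κ 0)) < 0 :=
          Real.log_neg (by positivity) h3
        rw [Real.log_mul (by positivity) (by positivity), hlogs, h45_zpow_exp',
          Real.log_exp] at h5
        have h6 : -((2 * κ 0 : ℤ) : ℝ) ≤ (l : ℝ) := by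
          have h7 : -(2 * κ 0) ≤ (l : ℤ) := by omega
          exact_mod_cast h7
        have h8 := mul_le_mul_of_nonneg_right h6 hl2.le
        linarith
      have h3 : Real.sqrt (3 / 4) ^ l ≤ 10 * L ^ (-(1 / 8 : ℝ)) := by
        have h5 : Real.log (Real.sqrt (3 / 4)) ≤ -(Real.log 2 / 5) := by
          rw [Real.log_sqrt (by norm_num)]
          have h6 : Real.log ((3 / 4 : ℝ) ^ 5) ≤ Real.log ((2 : ℝ)⁻¹ ^ 2) :=
            Real.log_le_log (by norm_num) (by norm_num)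
          rw [Real.log_pow, Real.log_pow, Real.log_inv] at h6
          push_cast at h6
          linarith
        have h6 : Real.sqrt (3 / 4) ^ l = Real.exp ((l : ℝ) * Real.log (Real.sqrt (3 / 4))) := by
          rw [mul_comm, ← Real.rpow_natCast, Real.rpow_def_of_pos hβp]
        have h7 : (l : ℝ) * Real.log (Real.sqrt (3 / 4)) ≤ -(L / 10) := by
          have h8 := mul_le_mul_of_nonneg_left h5 (Nat.cast_nonneg l : (0 : ℝ) ≤ (l : ℝ))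
          linarith
        have h8 : Real.exp (-(L / 10)) * L ≤ 10 := by
          rw [Real.exp_neg, inv_mul_eq_div, div_le_iff₀ (Real.exp_pos _)]
          have h9 := Real.add_one_le_exp (L / 10)
          linarith
        have h9 : L ^ (1 / 8 : ℝ) ≤ L := by
          calc L ^ (1 / 8 : ℝ) ≤ L ^ (1 : ℝ) :=
                Real.rpow_le_rpow_of_exponent_le hL1 (by norm_num)
            _ = L := Real.rpow_one L
        have h10 : L ^ (-(1 / 8 : ℝ)) * L ^ (1 / 8 : ℝ) = 1 := by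
          rw [← Real.rpow_add hLpos]
          norm_num
        calc Real.sqrt (3 / 4) ^ l ≤ Real.exp (-(L / 10)) := by
              rw [h6]
              exact Real.exp_le_exp.2 h7
          _ = Real.exp (-(L / 10)) * (L ^ (-(1 / 8 : ℝ)) * L ^ (1 / 8 : ℝ)) := by
              rw [h10, mul_one]
          _ ≤ Real.exp (-(L / 10)) * (L ^ (-(1 / 8 : ℝ)) * L) :=
              mul_le_mul_of_nonneg_left (mul_le_mul_of_nonneg_left h9 hLr.le)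
                (Real.exp_pos _).le
          _ = (Real.exp (-(L / 10)) * L) * L ^ (-(1 / 8 : ℝ)) := by ring
          _ ≤ 10 * L ^ (-(1 / 8 : ℝ)) := mul_le_mul_of_nonneg_right h8 hLr.le
      have h5 : (3 / 4 : ℝ) ^ l = Real.sqrt (3 / 4) ^ l * Real.sqrt (3 / 4) ^ l := by
        rw [← mul_pow, hβ1]
      rw [h5]
      have h6 : 0 ≤ 8 * (H : ℝ) ^ (m + 2) * Real.sqrt (3 / 4) ^ l := by positivity
      have h7 := mul_le_mul_of_nonneg_left h3 h6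
      calc 8 * (H : ℝ) ^ (m + 2) * (Real.sqrt (3 / 4) ^ l * Real.sqrt (3 / 4) ^ l)
          = 8 * (H : ℝ) ^ (m + 2) * Real.sqrt (3 / 4) ^ l * Real.sqrt (3 / 4) ^ l := by ring
        _ ≤ 8 * (H : ℝ) ^ (m + 2) * Real.sqrt (3 / 4) ^ l * (10 * L ^ (-(1 / 8 : ℝ))) := h7
        _ = 80 * L ^ (-(1 / 8 : ℝ)) * (H : ℝ) ^ (m + 2) * Real.sqrt (3 / 4) ^ l := by ring
    · intro σ
      refine hC1 _ σ fun κ hκ => ?_
      obtain ⟨h1, h2⟩ := Finset.mem_filter.1 hκ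
      exact ⟨(hI κ (Finset.mem_filter.1 h1).1).1, h2⟩
    · intro κ hκ
      have h1 := hI κ (Finset.mem_filter.1 hκ).1
      exact ⟨h1.2.2.1, by exact_mod_cast h1.2.2.2⟩
  have e3 : (1 + 16 * B0 * c + 2 * K * B0 * c + 80 * B1 * c) * (H : ℝ) ^ (m + 2) *
      L ^ (-(1 / 8 : ℝ)) = (1 + 16 * B0 * c) * (H : ℝ) ^ (m + 2) * L ^ (-(1 / 8 : ℝ)) +
      (2 * K * L ^ (-(1 / 8 : ℝ)) * (H : ℝ) ^ (m + 2)) * B0 * c +
      (80 * L ^ (-(1 / 8 : ℝ)) * (H : ℝ) ^ (m + 2)) * B1 * c := by ring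
  have e4 : 0 ≤ (1 + 16 * B0 * c) * (H : ℝ) ^ (m + 2) * L ^ (-(1 / 8 : ℝ)) := by positivity
  rw [e3, ← hsplit]
  linarith

end Pool.Agent.Helper38.DZR
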