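import Pool.Agent.Helper38.DZR.SelAbs
import Pool.Agent.Helper58.BSD.EMert

set_option autoImplicit false

/-!
DZR-04 GLower. Lower bound for the Selberg sum.

PROOF. Let `w = exp (√(log R)) ≤ R` (for `R ≥ 3`), `S_w` = the primes of `S` up to `w`.
`∑_(D ∈ fam S R) ω_D ≥ ∑_(D ⊆ S_w, ∏ D ≤ R) ω_D = ∏_(p ∈ S_w) (1 + ω p) - T`, `T = ∑_(D ⊆ S_w, ∏ D > R) ω_D`
(`Finset.prod_one_add` / `Finset.prod_add`).
RANKIN: `s = 1 / log w = 1 / √(log R)`. `T ≤ R^(-s) ∑_(D ⊆ S_w) ∏_(p ∈ D) ω p p^s = R^(-s) ∏_(p ∈ S_w) (1 + ω p p^s)`,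
`p^s ≤ e` for `p ≤ w`, `ω p ≤ 2c/p ≤ 2/p`: `∏ ≤ exp (2e ∑_(p ≤ w) 1/p) ≤ exp (6 (log log w + C)) ≤ C' (log R)^3`
(`∑_(p ≤ w) 1/p ≤ log log w + C`, `log w = √(log R)`), and `R^(-s) = exp (-√(log R))`. So `T ≤ 1/2` for `R ≥ R0`.
LOWER: `log (1 + x) ≥ x - x^2` (`x ≥ 0`), `ω p ≥ c/p`, `∑ (2/p)^2 ≤ 8`:
`∏_(p ∈ S_w) (1 + ω p) ≥ exp (c ∑_(P0 ≤ p ≤ w) 1/p - 8) ≥ exp (c log log w - C'') = e^(-C'') (log R)^(c/2)`
(`∑_(p ≤ w) 1/p ≥ log log w - C`, and the primes `< P0` contribute a constant).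
The product is also `≥ 1`, so `product - 1/2 ≥ product / 2`. For `R < R0`: the sum is `≥ 1` (`D = ∅`) and
`(log R)^(c/2) ≤ K`.
MERTENS in our library: `Pool.Agent.Helper58.BSD.mertens_bdd` (Helper58/BSD/EMert.lean: `∑_(p < ⌈e^t⌉) 1/p = log t + O(1)`,
look at the exact statement); or prove the two inequalities from `Pool.Agent.Helper10.P5.mertens_lower`, `mertens_upper`
(`∑ log p / p = log n + O(1)`) by partial summation.
-/

namespace Pool.Agent.Helper38.DZR

open Filter Topology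

open Pool.Agent.Helper58.BSD in
private theorem gl_mertens : ∃ C X0 : ℝ, 0 ≤ C ∧ ∀ x : ℝ, X0 ≤ x →
    |psum (fun p => (p : ℝ)⁻¹) ⌈x⌉₊ - Real.log (Real.log x)| ≤ C := by
  obtain ⟨M, hM⟩ := mertens_real
  have h1 : ∀ᶠ x : ℝ in atTop,
      |(psum (fun p => (p : ℝ)⁻¹) ⌈x⌉₊ - Real.log (Real.log x)) - M| < 1 := by
    have h0 := Metric.tendsto_nhds.1 hM 1 one_pos
    filter_upwards [h0] with x hx
    rwa [Real.dist_eq] at hx
  obtain ⟨X0, hX0⟩ := eventually_atTop.1 h1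
  refine ⟨|M| + 1, X0, by positivity, fun x hx => ?_⟩
  have h2 := hX0 x hx
  have h3 := abs_sub_abs_le_abs_sub (psum (fun p => (p : ℝ)⁻¹) ⌈x⌉₊ - Real.log (Real.log x)) M
  linarith

private theorem gl_log_one_add {x : ℝ} (hx : 0 ≤ x) : x - x ^ 2 ≤ Real.log (1 + x) := by
  refine le_trans ?_ (Real.le_log_one_add_of_nonneg hx)
  rw [le_div_iff₀ (by linarith)]
  nlinarith [sq_nonneg x, mul_nonneg hx (sq_nonneg x)]

private theorem gl_sq_sum : ∃ B : ℝ, 0 ≤ B ∧ ∀ T : Finset ℕ, ∑ p ∈ T, (((p : ℝ))⁻¹) ^ 2 ≤ B := by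
  have hs : Summable fun n : ℕ => (((n : ℝ))⁻¹) ^ 2 := by
    have h0 : Summable fun n : ℕ => (((n : ℝ)) ^ 2)⁻¹ := Real.summable_nat_pow_inv.2 one_lt_two
    simpa only [inv_pow] using h0
  exact ⟨∑' n : ℕ, (((n : ℝ))⁻¹) ^ 2, tsum_nonneg fun n => by positivity,
    fun T => hs.sum_le_tsum T fun n _ => by positivity⟩

private theorem gl_event (C : ℝ) : ∀ᶠ R : ℕ in atTop,
    Real.exp (6 * C) * Real.log R ^ 3 * Real.exp (-√(Real.log R)) ≤ 1 / 2 := by
  have h1 : Tendsto (fun R : ℕ => √(Real.log (R : ℝ))) atTop atTop :=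
    Real.tendsto_sqrt_atTop.comp (Real.tendsto_log_atTop.comp tendsto_natCast_atTop_atTop)
  have h2 := (Real.tendsto_pow_mul_exp_neg_atTop_nhds_zero 6).comp h1
  have h3 := h2.const_mul (Real.exp (6 * C))
  rw [mul_zero] at h3
  have h4 := h3.eventually (ge_mem_nhds (show (0 : ℝ) < 1 / 2 by norm_num))
  filter_upwards [h4, eventually_ge_atTop 1] with R hR hR1
  have hL : 0 ≤ Real.log (R : ℝ) := Real.log_nonneg (by exact_mod_cast hR1)
  refine le_trans (le_of_eq ?_) hR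
  have h5 : √(Real.log (R : ℝ)) ^ 6 = Real.log R ^ 3 := by
    rw [show (6 : ℕ) = 2 * 3 from rfl, pow_mul, Real.sq_sqrt hL]
  simp only [Function.comp_apply]
  rw [h5]
  ring

private theorem gl_sub (R P0 y : ℕ) (hy : y ≤ R + 1) :
    (Finset.range y).filter (fun p => p.Prime ∧ P0 ≤ p) ⊆
      (Finset.range (R + 1)).filter fun p => p.Prime ∧ P0 ≤ p := by
  intro p hp
  rw [Finset.mem_filter, Finset.mem_range] at hp ⊢
  exact ⟨by omega, hp.2⟩

/-- Rankin: the complete product minus the tail -/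
private theorem gl_rankin (S Sw : Finset ℕ) (R : ℕ) (hR : 0 < R) (hsub : Sw ⊆ S) (ω : ℕ → ℝ)
    (hω : ∀ p ∈ S, 0 ≤ ω p) (s : ℝ) (hs : 0 ≤ s) :
    ∏ p ∈ Sw, (1 + ω p) - (R : ℝ) ^ (-s) * ∏ p ∈ Sw, (1 + ω p * (p : ℝ) ^ s) ≤
      ∑ D ∈ fam S R, ∏ p ∈ D, ω p := by
  have hRr : (0 : ℝ) < R := by exact_mod_cast hR
  rw [Finset.prod_one_add, Finset.prod_one_add, Finset.mul_sum, sub_le_iff_le_add]
  have h1 : ∑ D ∈ Sw.powerset, ∏ p ∈ D, ω p =
      ∑ D ∈ Sw.powerset.filter (fun D => ∏ p ∈ D, p ≤ R), ∏ p ∈ D, ω p +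
      ∑ D ∈ Sw.powerset.filter (fun D => ¬ ∏ p ∈ D, p ≤ R), ∏ p ∈ D, ω p :=
    (Finset.sum_filter_add_sum_filter_not _ _ _).symm
  rw [h1]
  have hnn : ∀ D, D ⊆ S → 0 ≤ ∏ p ∈ D, ω p := fun D hD =>
    Finset.prod_nonneg fun p hp => hω p (hD hp)
  refine add_le_add ?_ ?_
  · refine Finset.sum_le_sum_of_subset_of_nonneg ?_ ?_
    · intro D hD
      rw [Finset.mem_filter, Finset.mem_powerset] at hD
      unfold fam
      rw [Finset.mem_filter, Finset.mem_powerset]
      exact ⟨hD.1.trans hsub, hD.2⟩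
    · intro D hD _
      unfold fam at hD
      rw [Finset.mem_filter, Finset.mem_powerset] at hD
      exact hnn D hD.1
  · have h2 : ∀ D ∈ Sw.powerset, 0 ≤ (R : ℝ) ^ (-s) * ∏ p ∈ D, (ω p * (p : ℝ) ^ s) := by
      intro D hD
      rw [Finset.mem_powerset] at hD
      refine mul_nonneg (by positivity) (Finset.prod_nonneg fun p hp' => ?_)
      exact mul_nonneg (hω p (hsub (hD hp'))) (by positivity)
    refine le_trans (Finset.sum_le_sum (g := fun D => (R : ℝ) ^ (-s) * ∏ p ∈ D, (ω p * (p : ℝ) ^ s)) ?_)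
      (Finset.sum_le_sum_of_subset_of_nonneg (Finset.filter_subset _ _) fun D hD _ => h2 D hD)
    intro D hD
    rw [Finset.mem_filter, Finset.mem_powerset, not_le] at hD
    have h3 : ∏ p ∈ D, (ω p * (p : ℝ) ^ s) = (∏ p ∈ D, ω p) * ((∏ p ∈ D, p : ℕ) : ℝ) ^ s := by
      rw [Finset.prod_mul_distrib, Nat.cast_prod, ← Real.finsetProd_rpow _ _ (fun p _ => by positivity)]
    rw [h3]
    have h4 : (1 : ℝ) ≤ (R : ℝ) ^ (-s) * ((∏ p ∈ D, p : ℕ) : ℝ) ^ s := by
      rw [Real.rpow_neg hRr.le, ← one_div, one_div_mul_eq_div, one_le_div (by positivity)]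
      exact Real.rpow_le_rpow hRr.le (by exact_mod_cast hD.2.le) hs
    have h5 := hnn D (hD.1.trans hsub)
    nlinarith

theorem g_lower (c : ℝ) (hc : 0 < c) (hc1 : c ≤ 1) (P0 : ℕ) : ∃ K : ℝ, 1 ≤ K ∧
    ∀ R : ℕ, 2 ≤ R → ∀ ω : ℕ → ℝ,
    (∀ p : ℕ, p.Prime → P0 ≤ p → p ≤ R → c / p ≤ ω p ∧ ω p ≤ 2 * c / p) →
    (Real.log R) ^ (c / 2) / K ≤
      ∑ D ∈ fam ((Finset.range (R + 1)).filter fun p => p.Prime ∧ P0 ≤ p) R, ∏ p ∈ D, ω p := by
  obtain ⟨C, X0, hC0, hC⟩ := gl_mertens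
  obtain ⟨B, hB0, hB⟩ := gl_sq_sum
  have hX : ∀ᶠ R : ℕ in atTop, X0 ≤ Real.exp √(Real.log (R : ℝ)) :=
    (Real.tendsto_exp_atTop.comp (Real.tendsto_sqrt_atTop.comp
      (Real.tendsto_log_atTop.comp tendsto_natCast_atTop_atTop))).eventually_ge_atTop X0
  obtain ⟨R0, hR0⟩ := eventually_atTop.1 ((gl_event C).and (hX.and (eventually_ge_atTop 3)))
  set K1 : ℝ := 2 * Real.exp (C + P0 + B) with hK1
  set K2 : ℝ := (Real.log (max R0 1 : ℕ)) ^ (c / 2) with hK2
  have hK1p : 0 < K1 := by positivity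
  have hlm : 0 ≤ Real.log ((max R0 1 : ℕ) : ℝ) :=
    Real.log_nonneg (by exact_mod_cast le_max_right R0 1)
  have hK2p : 0 ≤ K2 := by positivity
  refine ⟨K1 + K2 + 1, by linarith, fun R hR ω hω => ?_⟩
  set S := (Finset.range (R + 1)).filter fun p => p.Prime ∧ P0 ≤ p with hS
  have hKp : 0 < K1 + K2 + 1 := by linarith
  have hRr : (2 : ℝ) ≤ R := by exact_mod_cast hR
  have hLpos : 0 < Real.log (R : ℝ) := Real.log_pos (by linarith)
  have hωS : ∀ p ∈ S, c / p ≤ ω p ∧ ω p ≤ 2 * c / p := by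
    intro p hp
    rw [hS, Finset.mem_filter, Finset.mem_range] at hp
    exact hω p hp.2.1 hp.2.2 (by omega)
  have hω0 : ∀ p ∈ S, 0 ≤ ω p := fun p hp => le_trans (by positivity) (hωS p hp).1
  rw [div_le_iff₀ hKp]
  rcases lt_or_ge R R0 with hlt | hge
  · have h1 : (1 : ℝ) ≤ ∑ D ∈ fam S R, ∏ p ∈ D, ω p := by
      have hmem : (∅ : Finset ℕ) ∈ fam S R := by
        unfold fam
        rw [Finset.mem_filter, Finset.mem_powerset, Finset.prod_empty]
        exact ⟨Finset.empty_subset _, by omega⟩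
      have h2 := Finset.single_le_sum (f := fun D => ∏ p ∈ D, ω p) (s := fam S R) (a := ∅)
        (fun D hD => ?_) hmem
      · simpa using h2
      · unfold fam at hD
        rw [Finset.mem_filter, Finset.mem_powerset] at hD
        exact Finset.prod_nonneg fun p hp => hω0 p (hD.1 hp)
    have h3 : Real.log (R : ℝ) ^ (c / 2) ≤ K2 := by
      rw [hK2]
      refine Real.rpow_le_rpow hLpos.le (Real.log_le_log (by linarith) ?_) (by linarith)
      have : R ≤ max R0 1 := le_max_of_le_left hlt.le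
      exact_mod_cast this
    nlinarith
  · obtain ⟨hE, hX0, hR3⟩ := hR0 R hge
    set L : ℝ := Real.log (R : ℝ) with hL
    set x : ℝ := Real.exp √L with hx
    have hR3r : (3 : ℝ) ≤ R := by exact_mod_cast hR3
    have hL1 : 1 ≤ L := by
      rw [hL, Real.le_log_iff_exp_le (by linarith)]
      exact le_trans Real.exp_one_lt_three.le hR3r
    have hsq : 1 ≤ √L := by
      rw [show (1 : ℝ) = √1 by simp]
      exact Real.sqrt_le_sqrt hL1
    have hsqL : √L * √L = L := Real.mul_self_sqrt (by linarith)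
    have hxR : x ≤ R := by
      rw [hx, ← Real.exp_log (show (0 : ℝ) < R by linarith)]
      refine Real.exp_le_exp.2 ?_
      rw [← hL]
      nlinarith
    have hyR : ⌈x⌉₊ ≤ R + 1 := (Nat.ceil_le.2 hxR).trans (Nat.le_succ R)
    have hM := hC x hX0
    have hlx : Real.log (Real.log x) = 1 / 2 * Real.log L := by
      rw [hx, Real.log_exp, Real.log_sqrt (by linarith)]
      ring
    rw [hlx, abs_le] at hM
    set Sw := (Finset.range ⌈x⌉₊).filter (fun p => p.Prime ∧ P0 ≤ p) with hSw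
    have hsub : Sw ⊆ S := gl_sub R P0 _ hyR
    have hprime : ∀ p ∈ Sw, p.Prime := fun p hp => by
      rw [hSw, Finset.mem_filter] at hp
      exact hp.2.1
    have hpx : ∀ p ∈ Sw, (p : ℝ) < x := fun p hp => by
      rw [hSw, Finset.mem_filter, Finset.mem_range] at hp
      exact Nat.lt_ceil.1 hp.1
    have hsum_le : ∑ p ∈ Sw, ((p : ℝ))⁻¹ ≤ Pool.Agent.Helper58.BSD.psum (fun p => (p : ℝ)⁻¹) ⌈x⌉₊ := by
      unfold Pool.Agent.Helper58.BSD.psum
      refine Finset.sum_le_sum_of_subset_of_nonneg ?_ fun p _ _ => by positivity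
      intro p hp
      rw [hSw, Finset.mem_filter] at hp
      rw [Finset.mem_filter]
      exact ⟨hp.1, hp.2.1⟩
    have hsum_ge : Pool.Agent.Helper58.BSD.psum (fun p => (p : ℝ)⁻¹) ⌈x⌉₊ ≤ ∑ p ∈ Sw, ((p : ℝ))⁻¹ + P0 := by
      unfold Pool.Agent.Helper58.BSD.psum
      rw [← Finset.sum_filter_add_sum_filter_not _ (fun p => P0 ≤ p)]
      refine add_le_add (le_of_eq ?_) ?_
      · rw [Finset.filter_filter]
      · refine le_trans (Finset.sum_le_card_nsmul _ _ 1 ?_) ?_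
        · intro p hp
          rw [Finset.mem_filter, Finset.mem_filter] at hp
          exact inv_le_one_of_one_le₀ (by exact_mod_cast hp.1.2.one_lt.le)
        · rw [nsmul_eq_mul, mul_one]
          have h6 : ((Finset.range ⌈x⌉₊).filter Nat.Prime).filter (fun p => ¬ P0 ≤ p) ⊆ Finset.range P0 := by
            intro p hp
            rw [Finset.mem_filter, not_le] at hp
            exact Finset.mem_range.2 hp.2
          have h7 := Finset.card_le_card h6
          rw [Finset.card_range] at h7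
          exact_mod_cast h7
    have hran := gl_rankin S Sw R (by omega) hsub ω hω0 (1 / √L) (by positivity)
    -- the tail
    have htail : (R : ℝ) ^ (-(1 / √L)) * ∏ p ∈ Sw, (1 + ω p * (p : ℝ) ^ (1 / √L)) ≤ 1 / 2 := by
      have h8 : (R : ℝ) ^ (-(1 / √L)) = Real.exp (-√L) := by
        rw [Real.rpow_def_of_pos (by linarith), ← hL]
        congr 1
        rw [mul_neg, mul_one_div, Real.div_sqrt]
      have h9 : ∏ p ∈ Sw, (1 + ω p * (p : ℝ) ^ (1 / √L)) ≤ Real.exp (6 * C) * L ^ 3 := by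
        have h10 : ∀ p ∈ Sw, 1 + ω p * (p : ℝ) ^ (1 / √L) ≤ Real.exp (6 * ((p : ℝ))⁻¹) := by
          intro p hp
          have hp0 : (0 : ℝ) < p := by exact_mod_cast (hprime p hp).pos
          have h11 : (p : ℝ) ^ (1 / √L) ≤ Real.exp 1 := by
            have h12 : (p : ℝ) ^ (1 / √L) ≤ x ^ (1 / √L) :=
              Real.rpow_le_rpow hp0.le (hpx p hp).le (by positivity)
            rw [hx, ← Real.exp_mul, mul_one_div_cancel (by positivity)] at h12
            exact h12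
          have h13 := (hωS p (hsub hp)).2
          have h14 : ω p * (p : ℝ) ^ (1 / √L) ≤ 6 * ((p : ℝ))⁻¹ := by
            have h15 : ω p * (p : ℝ) ^ (1 / √L) ≤ (2 * c / p) * 3 :=
              mul_le_mul h13 (h11.trans Real.exp_one_lt_three.le) (by positivity) (by positivity)
            refine h15.trans ?_
            rw [div_eq_mul_inv]
            have h16 : 0 < ((p : ℝ))⁻¹ := by positivity
            nlinarith
          have h17 := Real.add_one_le_exp (6 * ((p : ℝ))⁻¹)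
          linarith
        calc ∏ p ∈ Sw, (1 + ω p * (p : ℝ) ^ (1 / √L))
            ≤ ∏ p ∈ Sw, Real.exp (6 * ((p : ℝ))⁻¹) := by
              refine Finset.prod_le_prod (fun p hp => ?_) h10
              have := mul_nonneg (hω0 p (hsub hp)) (show 0 ≤ (p : ℝ) ^ (1 / √L) by positivity)
              linarith
          _ = Real.exp (6 * ∑ p ∈ Sw, ((p : ℝ))⁻¹) := by
              rw [← Real.exp_sum, Finset.mul_sum]
          _ ≤ Real.exp (6 * C + 3 * Real.log L) := by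
              refine Real.exp_le_exp.2 ?_
              linarith [hM.2]
          _ = Real.exp (6 * C) * L ^ 3 := by
              rw [Real.exp_add]
              congr 1
              rw [mul_comm, Real.exp_mul, Real.exp_log (by linarith)]
              norm_cast
      rw [h8, mul_comm]
      exact le_trans (mul_le_mul_of_nonneg_right h9 (Real.exp_pos _).le) hE
    -- the main term
    have hone : (1 : ℝ) ≤ ∏ p ∈ Sw, (1 + ω p) := by
      calc (1 : ℝ) = ∏ _p ∈ Sw, (1 : ℝ) := by simp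
        _ ≤ ∏ p ∈ Sw, (1 + ω p) := Finset.prod_le_prod (fun _ _ => zero_le_one)
            fun p hp => by linarith [hω0 p (hsub hp)]
    have hmain : Real.exp (-(C + P0 + B)) * L ^ (c / 2) ≤ ∏ p ∈ Sw, (1 + ω p) := by
      have h20 : ∏ p ∈ Sw, Real.exp (c * ((p : ℝ))⁻¹ - ((p : ℝ)⁻¹) ^ 2) ≤ ∏ p ∈ Sw, (1 + ω p) := by
        refine Finset.prod_le_prod (fun p _ => (Real.exp_pos _).le) fun p hp => ?_
        have hp0 : (0 : ℝ) < p := by exact_mod_cast (hprime p hp).pos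
        have h21 : 0 ≤ c * ((p : ℝ))⁻¹ := by positivity
        have h22 := gl_log_one_add h21
        have h23 : c * ((p : ℝ))⁻¹ - ((p : ℝ)⁻¹) ^ 2 ≤ Real.log (1 + c * ((p : ℝ))⁻¹) := by
          refine le_trans ?_ h22
          have h24 : (c * ((p : ℝ))⁻¹) ^ 2 ≤ ((p : ℝ)⁻¹) ^ 2 := by
            rw [mul_pow]
            have : c ^ 2 ≤ 1 := by nlinarith
            nlinarith [sq_nonneg ((p : ℝ)⁻¹)]
          linarith
        have h25 := (Real.le_log_iff_exp_le (by linarith)).1 h23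
        have h26 := (hωS p (hsub hp)).1
        rw [div_eq_mul_inv] at h26
        linarith
      refine le_trans ?_ h20
      rw [← Real.exp_sum, Finset.sum_sub_distrib, ← Finset.mul_sum]
      have h27 : L ^ (c / 2) = Real.exp (c / 2 * Real.log L) := by
        rw [Real.rpow_def_of_pos (by linarith), mul_comm]
      rw [h27, ← Real.exp_add]
      refine Real.exp_le_exp.2 ?_
      have h28 := hB Sw
      have h29 : 1 / 2 * Real.log L - C - P0 ≤ ∑ p ∈ Sw, ((p : ℝ))⁻¹ := by linarith [hM.1]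
      have h30 := mul_le_mul_of_nonneg_left h29 hc.le
      have h31 : 0 ≤ (1 - c) * (C + P0) := mul_nonneg (by linarith) (by positivity)
      nlinarith
    have hfin : (1 / 2) * (Real.exp (-(C + P0 + B)) * L ^ (c / 2)) ≤ ∑ D ∈ fam S R, ∏ p ∈ D, ω p := by
      linarith
    have hLc : 0 ≤ L ^ (c / 2) := by positivity
    have hsum0 : 0 ≤ ∑ D ∈ fam S R, ∏ p ∈ D, ω p := le_trans (by positivity) hfin
    have h40 : L ^ (c / 2) ≤ (∑ D ∈ fam S R, ∏ p ∈ D, ω p) * K1 := by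
      have h41 : L ^ (c / 2) = (1 / 2) * (Real.exp (-(C + P0 + B)) * L ^ (c / 2)) * K1 := by
        rw [hK1, Real.exp_neg]
        field_simp
      rw [h41]
      exact mul_le_mul_of_nonneg_right hfin hK1p.le
    refine h40.trans ?_
    exact mul_le_mul_of_nonneg_left (by linarith) hsum0

end Pool.Agent.Helper38.DZR
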