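import Pool.Agent.Helper38.DZR.CrtCount
import Pool.Agent.Helper38.DZR.GLower

set_option autoImplicit false

/-!
DZR-05 SieveBox. A sieve with rate for integral points of a box.

PROOF. Let `k' = card I`, `q = p^k`. Let `P1 ≥ P0, 2, 1/c, 4`, and for `p ≥ P1` choose a subset `Ω' p ⊆ Ω p` with exactly
`⌈(c/p) q^k'⌉₊` elements (`Set.exists_subset_card_eq` / `Set.exists_superset_subset_encard_eq`; `Ω p` is finite with at least
that many elements because `ncard` is an integer), and `ω p = |Ω' p| / q^k'`. As `k k' ≥ 2`: `1/q^k' ≤ 1/p^2 ≤ c/p`, so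
`c/p ≤ ω p ≤ 2c/p ≤ 1/2 < 1` and `ω p ≥ 1/p^2`.
If `N ≥ N0`: `R = ⌊N^(1/(16 k))⌋₊ ≥ 2`, `S` = primes `p`, `P1 ≤ p ≤ R`. The set is contained in
`{x ∈ box | ∀ p ∈ S, x mod p^k ∉ Ω' p}`. `selberg_abs` with `X` = the (finite) box, `bad p x ↔ x mod p^k ∈ Ω' p`,
`n = ∏ (2 L i)`, and for `D, D' ∈ fam`: `∏_(p ∈ D ∪ D') p^k ≤ R^(2k) ≤ N^(1/8) ≤ N`, so by `crt_count` (constant `C`)
`E = C (R^(2k) / N) ∏ L i`. So the number is at most `n / G + R^6 E`, `R^(6 + 2k) ≤ R^(8k) ≤ N^(1/2)`,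
`R^6 E ≤ C N^(-1/2) ∏ L i ≤ C' (log N)^(-c/2) ∏ L i`, and `G ≥ (log R)^(c/2) / K1` (`g_lower` with `P1`),
`log R ≥ (log N) / (32 k)` for `N ≥ N0` (`R ≥ N^(1/(32k))`), so `n / G ≤ 2^k' K1 (32 k)^(c/2) (log N)^(-c/2) ∏ L i`.
If `2 ≤ N < N0`: the number is at most `∏ (2 L i + 1) ≤ ∏ (3 L i)` and `(log N)^(-c/2) ≥ (log N0)^(-c/2)`.
-/

namespace Pool.Agent.Helper38.DZR

open Classical in
private lemma sb_main (I : Type) [Fintype I] [DecidableEq I] (k : ℕ) (hk1 : 1 ≤ k)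
    (c : ℝ) (hc : 0 < c) (hc1 : c ≤ 1 / 4) (P1 : ℕ) (C K1 : ℝ) (hC : 1 ≤ C) (hK1 : 1 ≤ K1)
    (hcrt : ∀ D : Finset ℕ, (∀ p ∈ D, p.Prime) → ∀ Ω : (p : ℕ) → Set (I → ZMod (p ^ k)),
      ∀ (L : I → ℝ) (N : ℝ), ((∏ p ∈ D, p ^ k : ℕ) : ℝ) ≤ N → (∀ i, N ≤ L i) →
      {x : I → ℤ | (∀ i, |(x i : ℝ)| < L i) ∧
        ∀ p ∈ D, (fun i => ((x i : ℤ) : ZMod (p ^ k))) ∈ Ω p}.Finite ∧
      |(({x : I → ℤ | (∀ i, |(x i : ℝ)| < L i) ∧
        ∀ p ∈ D, (fun i => ((x i : ℤ) : ZMod (p ^ k))) ∈ Ω p}.ncard : ℕ) : ℝ) -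
        (∏ p ∈ D, ((Ω p).ncard : ℝ) / ((p : ℝ) ^ k) ^ (Fintype.card I)) * ∏ i, (2 * L i)| ≤
        C * (((∏ p ∈ D, p ^ k : ℕ) : ℝ) / N) * ∏ i, L i)
    (hg : ∀ R : ℕ, 2 ≤ R → ∀ ω : ℕ → ℝ,
      (∀ p : ℕ, p.Prime → P1 ≤ p → p ≤ R → c / p ≤ ω p ∧ ω p ≤ 2 * c / p) →
      (Real.log R) ^ (c / 2) / K1 ≤
        ∑ D ∈ fam ((Finset.range (R + 1)).filter fun p => p.Prime ∧ P1 ≤ p) R, ∏ p ∈ D, ω p)
    (N : ℝ) (hN : (2 : ℝ) ^ (32 * k) ≤ N) (L : I → ℝ) (hL : ∀ i, N ≤ L i)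
    (Ω : (p : ℕ) → Set (I → ZMod (p ^ k)))
    (h1 : ∀ p : ℕ, p.Prime → P1 ≤ p →
      c / p ≤ ((Ω p).ncard : ℝ) / ((p : ℝ) ^ k) ^ (Fintype.card I) ∧
      ((Ω p).ncard : ℝ) / ((p : ℝ) ^ k) ^ (Fintype.card I) ≤ 2 * c / p)
    (h2 : ∀ p : ℕ, p.Prime → P1 ≤ p →
      1 / (p : ℝ) ^ 2 ≤ ((Ω p).ncard : ℝ) / ((p : ℝ) ^ k) ^ (Fintype.card I))
    (X : Finset (I → ℤ)) (hX : ∀ x, x ∈ X ↔ ∀ i, |(x i : ℝ)| < L i)
    (Y : Finset (I → ℤ)) (hY : ∀ x ∈ Y, x ∈ X ∧ ∀ p : ℕ, p.Prime → P1 ≤ p →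
      (fun i => ((x i : ℤ) : ZMod (p ^ k))) ∉ Ω p) :
    (Y.card : ℝ) ≤
      (2 ^ Fintype.card I * K1 * (32 * k : ℝ) ^ (c / 2) + C) * (∏ i, L i) *
        (Real.log N) ^ (-(c / 2)) := by
  have hkR : (1 : ℝ) ≤ (k : ℝ) := by exact_mod_cast hk1
  have hN1 : (1 : ℝ) ≤ N := le_trans (one_le_pow₀ (by norm_num)) hN
  have hN0 : (0 : ℝ) < N := by linarith
  -- y = N^(1/(32k))
  obtain ⟨y, hy2, hyN⟩ : ∃ y : ℝ, 2 ≤ y ∧ y ^ (32 * k) = N := by
    refine ⟨N ^ ((1 : ℝ) / ((32 * k : ℕ) : ℝ)), ?_, ?_⟩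
    · have h3 : ((2 : ℝ) ^ (32 * k)) ^ ((1 : ℝ) / ((32 * k : ℕ) : ℝ)) ≤
          N ^ ((1 : ℝ) / ((32 * k : ℕ) : ℝ)) :=
        Real.rpow_le_rpow (by positivity) hN (by positivity)
      have h4 : ((2 : ℝ) ^ (32 * k)) ^ ((1 : ℝ) / ((32 * k : ℕ) : ℝ)) = 2 := by
        rw [one_div]
        exact Real.pow_rpow_inv_natCast (by norm_num) (by omega)
      linarith
    · rw [one_div]
      exact Real.rpow_inv_natCast_pow hN0.le (by omega)
  have hy0 : (0 : ℝ) < y := by linarith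
  set R : ℕ := ⌊y ^ 2⌋₊ with hR
  have hRle : (R : ℝ) ≤ y ^ 2 := Nat.floor_le (by positivity)
  have hRge : y ≤ (R : ℝ) := by
    have := Nat.lt_floor_add_one (y ^ 2)
    rw [← hR] at this
    nlinarith
  have hR2 : 2 ≤ R := by
    have : (2 : ℝ) ≤ (R : ℝ) := le_trans hy2 hRge
    exact_mod_cast this
  have hR1 : (1 : ℝ) ≤ (R : ℝ) := by
    have : (2 : ℝ) ≤ (R : ℝ) := le_trans hy2 hRge
    linarith
  have hR16 : (R : ℝ) ^ (16 * k) ≤ N := by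
    calc (R : ℝ) ^ (16 * k) ≤ (y ^ 2) ^ (16 * k) := pow_le_pow_left₀ (by positivity) hRle _
      _ = y ^ (32 * k) := by rw [← pow_mul]; congr 1; ring
      _ = N := hyN
  have hR2k : (R : ℝ) ^ (2 * k) ≤ N :=
    le_trans (pow_le_pow_right₀ hR1 (by omega)) hR16
  have hprodL : (0 : ℝ) < ∏ i, L i := Finset.prod_pos fun i _ => lt_of_lt_of_le hN0 (hL i)
  set ω : ℕ → ℝ := fun p => ((Ω p).ncard : ℝ) / ((p : ℝ) ^ k) ^ (Fintype.card I) with hω
  set S : Finset ℕ := (Finset.range (R + 1)).filter fun p => p.Prime ∧ P1 ≤ p with hS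
  have hSmem : ∀ p ∈ S, p.Prime ∧ P1 ≤ p := by
    intro p hp
    rw [hS, Finset.mem_filter] at hp
    exact hp.2
  have hG := hg R hR2 ω (fun p hp hp1 _ => h1 p hp hp1)
  -- the sieve
  have hsel := selberg_abs S (fun p hp => (hSmem p hp).1) R (by omega) ω
    (fun p hp => h2 p (hSmem p hp).1 (hSmem p hp).2)
    (fun p hp => by
      have h3 := (h1 p (hSmem p hp).1 (hSmem p hp).2).2
      have h4 : (2 : ℝ) ≤ (p : ℝ) := by exact_mod_cast (hSmem p hp).1.two_le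
      have h5 : 2 * c / (p : ℝ) ≤ 1 / 4 := by
        rw [div_le_iff₀ (by linarith)]
        nlinarith
      show ((Ω p).ncard : ℝ) / ((p : ℝ) ^ k) ^ (Fintype.card I) < 1
      linarith)
    X (fun p x => (fun i => ((x i : ℤ) : ZMod (p ^ k))) ∈ Ω p)
    (∏ i, (2 * L i)) (C * ((R : ℝ) ^ (2 * k) / N) * ∏ i, L i)
    (Finset.prod_nonneg fun i _ => by have := hL i; linarith)
    (by positivity)
    (by
      intro D hD D' hD'
      have hDS : D ⊆ S ∧ ∏ p ∈ D, p ≤ R := by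
        simpa [fam, Finset.mem_filter, Finset.mem_powerset] using hD
      have hDS' : D' ⊆ S ∧ ∏ p ∈ D', p ≤ R := by
        simpa [fam, Finset.mem_filter, Finset.mem_powerset] using hD'
      have hpr : ∀ p ∈ D ∪ D', p.Prime := by
        intro p hp
        rcases Finset.mem_union.mp hp with h | h
        · exact (hSmem p (hDS.1 h)).1
        · exact (hSmem p (hDS'.1 h)).1
      have hprodle : ∏ p ∈ D ∪ D', p ≤ R * R := by
        have h3 := Finset.prod_union_inter (s₁ := D) (s₂ := D') (f := fun p : ℕ => p)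
        have h4 : 1 ≤ ∏ p ∈ D ∩ D', p := by
          apply Nat.one_le_iff_ne_zero.mpr
          rw [Finset.prod_ne_zero_iff]
          intro p hp
          exact (hpr p (Finset.mem_union_left _ (Finset.mem_inter.mp hp).1)).ne_zero
        calc ∏ p ∈ D ∪ D', p ≤ (∏ p ∈ D ∪ D', p) * ∏ p ∈ D ∩ D', p :=
              Nat.le_mul_of_pos_right _ h4
          _ = (∏ p ∈ D, p) * ∏ p ∈ D', p := h3
          _ ≤ R * R := Nat.mul_le_mul hDS.2 hDS'.2
      have hprodk : ((∏ p ∈ D ∪ D', p ^ k : ℕ) : ℝ) ≤ (R : ℝ) ^ (2 * k) := by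
        have h3 : (∏ p ∈ D ∪ D', p ^ k) ≤ R ^ (2 * k) := by
          rw [Finset.prod_pow]
          calc (∏ p ∈ D ∪ D', p) ^ k ≤ (R * R) ^ k := Nat.pow_le_pow_left hprodle k
            _ = R ^ (2 * k) := by rw [← pow_two, ← pow_mul]
        exact_mod_cast h3
      have h5 := (hcrt (D ∪ D') hpr Ω L N (le_trans hprodk hR2k) hL).2
      have h6 : {x : I → ℤ | (∀ i, |(x i : ℝ)| < L i) ∧
          ∀ p ∈ D ∪ D', (fun i => ((x i : ℤ) : ZMod (p ^ k))) ∈ Ω p} =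
          ((X.filter fun s => ∀ p ∈ D ∪ D',
            (fun i => ((s i : ℤ) : ZMod (p ^ k))) ∈ Ω p : Finset (I → ℤ)) : Set (I → ℤ)) := by
        ext x
        simp only [Set.mem_ofPred_eq, Finset.coe_filter, hX]
      rw [h6, Set.ncard_coe_finset] at h5
      rw [mul_comm (∏ p ∈ D ∪ D', ((Ω p).ncard : ℝ) / ((p : ℝ) ^ k) ^ (Fintype.card I))] at h5
      refine le_trans h5 ?_
      gcongr)
  have hYle : (Y.card : ℝ) ≤ ((X.filter fun s => ∀ p ∈ S,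
      ¬ (fun i => ((s i : ℤ) : ZMod (p ^ k))) ∈ Ω p).card : ℝ) := by
    have : Y.card ≤ (X.filter fun s => ∀ p ∈ S,
      ¬ (fun i => ((s i : ℤ) : ZMod (p ^ k))) ∈ Ω p).card := by
      apply Finset.card_le_card
      intro x hx
      rw [Finset.mem_filter]
      exact ⟨(hY x hx).1, fun p hp => (hY x hx).2 p (hSmem p hp).1 (hSmem p hp).2⟩
    exact_mod_cast this
  refine le_trans hYle (le_trans hsel ?_)
  -- logarithms
  have hlogN : Real.log N = (32 * k : ℝ) * Real.log y := by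
    rw [← hyN, Real.log_pow]
    push_cast
    ring
  have hlogy : 0 < Real.log y := Real.log_pos (by linarith)
  have hlogNpos : 0 < Real.log N := by rw [hlogN]; positivity
  have hlogR : Real.log N / (32 * k) ≤ Real.log R := by
    rw [hlogN, mul_div_cancel_left₀ _ (by positivity)]
    exact Real.log_le_log hy0 hRge
  have hlogN1 : 1 ≤ Real.log N := by
    rw [hlogN]
    have h3 : Real.log 2 ≤ Real.log y := Real.log_le_log (by norm_num) hy2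
    have h4 := Real.log_two_gt_d9
    nlinarith
  have hB : (Real.log N) ^ (c / 2) / (32 * k : ℝ) ^ (c / 2) ≤ (Real.log R) ^ (c / 2) := by
    rw [← Real.div_rpow hlogNpos.le (by positivity)]
    exact Real.rpow_le_rpow (by positivity) hlogR (by positivity)
  have hNneg : (Real.log N) ^ (-(c / 2)) = ((Real.log N) ^ (c / 2))⁻¹ :=
    Real.rpow_neg hlogNpos.le _
  set A := (Real.log N) ^ (c / 2) with hA
  have hApos : 0 < A := Real.rpow_pos_of_pos hlogNpos _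
  set B := (32 * k : ℝ) ^ (c / 2) with hBdef
  have hBpos : 0 < B := Real.rpow_pos_of_pos (by positivity) _
  have hGpos : A / B / K1 ≤ ∑ D ∈ fam S R, ∏ p ∈ D, ω p := by
    refine le_trans ?_ hG
    gcongr
  have hT1 : (∏ i, (2 * L i)) / (∑ D ∈ fam S R, ∏ p ∈ D, ω p) ≤
      2 ^ Fintype.card I * K1 * B * (∏ i, L i) * A⁻¹ := by
    have h3 : (∏ i, (2 * L i)) = 2 ^ Fintype.card I * ∏ i, L i := by
      rw [Finset.prod_mul_distrib, Finset.prod_const, Finset.card_univ]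
    rw [h3]
    have h4 : 0 < A / B / K1 := by positivity
    calc 2 ^ Fintype.card I * (∏ i, L i) / (∑ D ∈ fam S R, ∏ p ∈ D, ω p)
        ≤ 2 ^ Fintype.card I * (∏ i, L i) / (A / B / K1) := by
          gcongr
      _ = 2 ^ Fintype.card I * K1 * B * (∏ i, L i) * A⁻¹ := by
          field_simp
  have hT2 : (R : ℝ) ^ 6 * (C * ((R : ℝ) ^ (2 * k) / N) * ∏ i, L i) ≤
      C * (∏ i, L i) * A⁻¹ := by
    have h3 : (R : ℝ) ^ 6 * (R : ℝ) ^ (2 * k) ≤ (R : ℝ) ^ (8 * k) := by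
      rw [← pow_add]
      exact pow_le_pow_right₀ hR1 (by omega)
    have h4 : (R : ℝ) ^ (8 * k) * (R : ℝ) ^ (8 * k) ≤ N := by
      rw [← pow_add]
      have : 8 * k + 8 * k = 16 * k := by ring
      rw [this]
      exact hR16
    have h5 : A * A ≤ N := by
      rw [hA, ← Real.rpow_add hlogNpos]
      calc Real.log N ^ (c / 2 + c / 2) ≤ Real.log N ^ (1 : ℝ) :=
            Real.rpow_le_rpow_of_exponent_le hlogN1 (by linarith)
        _ = Real.log N := Real.rpow_one _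
        _ ≤ N := (Real.log_le_sub_one_of_pos hN0).trans (by linarith)
    have h6 : (R : ℝ) ^ (8 * k) * A ≤ N := by
      have h7 : ((R : ℝ) ^ (8 * k) * A) ^ 2 ≤ N ^ 2 := by
        calc ((R : ℝ) ^ (8 * k) * A) ^ 2 =
            ((R : ℝ) ^ (8 * k) * (R : ℝ) ^ (8 * k)) * (A * A) := by ring
          _ ≤ N * N := by gcongr
          _ = N ^ 2 := by ring
      exact le_of_sq_le_sq h7 hN0.le
    have h8 : (R : ℝ) ^ 6 * (R : ℝ) ^ (2 * k) / N ≤ A⁻¹ := by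
      rw [div_le_iff₀ hN0, inv_mul_eq_div, le_div_iff₀ hApos]
      calc (R : ℝ) ^ 6 * (R : ℝ) ^ (2 * k) * A ≤ (R : ℝ) ^ (8 * k) * A := by gcongr
        _ ≤ N := h6
    calc (R : ℝ) ^ 6 * (C * ((R : ℝ) ^ (2 * k) / N) * ∏ i, L i)
        = C * (∏ i, L i) * ((R : ℝ) ^ 6 * (R : ℝ) ^ (2 * k) / N) := by ring
      _ ≤ C * (∏ i, L i) * A⁻¹ := by gcongr
  rw [hNneg]
  calc (∏ i, (2 * L i)) / (∑ D ∈ fam S R, ∏ p ∈ D, ω p) +
        (R : ℝ) ^ 6 * (C * ((R : ℝ) ^ (2 * k) / N) * ∏ i, L i)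
      ≤ 2 ^ Fintype.card I * K1 * B * (∏ i, L i) * A⁻¹ + C * (∏ i, L i) * A⁻¹ :=
        add_le_add hT1 hT2
    _ = _ := by ring

theorem sieve_box (I : Type) [Fintype I] [DecidableEq I] (k : ℕ) (hk : 2 ≤ k * Fintype.card I)
    (c : ℝ) (hc : 0 < c) (hc1 : c ≤ 1 / 4) (P0 : ℕ) : ∃ K : ℝ, 1 ≤ K ∧ ∀ N : ℝ, 2 ≤ N →
    ∀ L : I → ℝ, (∀ i, N ≤ L i) → ∀ Ω : (p : ℕ) → Set (I → ZMod (p ^ k)),
    (∀ p : ℕ, p.Prime → P0 ≤ p →
      (c / p) * ((p : ℝ) ^ k) ^ (Fintype.card I) ≤ ((Ω p).ncard : ℝ)) →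
    {x : I → ℤ | (∀ i, |(x i : ℝ)| < L i) ∧ ∀ p : ℕ, p.Prime → P0 ≤ p →
      (fun i => ((x i : ℤ) : ZMod (p ^ k))) ∉ Ω p}.Finite ∧
    (({x : I → ℤ | (∀ i, |(x i : ℝ)| < L i) ∧ ∀ p : ℕ, p.Prime → P0 ≤ p →
      (fun i => ((x i : ℤ) : ZMod (p ^ k))) ∉ Ω p}.ncard : ℕ) : ℝ) ≤
      K * (∏ i, L i) * (Real.log N) ^ (-(c / 2)) := by
  classical
  have hk1 : 1 ≤ k := by
    rcases Nat.eq_zero_or_pos k with h | h
    · subst h; omega
    · exact h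
  obtain ⟨C, hC, hcrt⟩ := crt_count I k
  set P1 : ℕ := max (max P0 4) ⌈1 / c⌉₊ with hP1
  obtain ⟨K1, hK1, hg⟩ := g_lower c hc (by linarith) P1
  have hP10 : P0 ≤ P1 := le_trans (le_max_left _ _) (le_max_left _ _)
  have hP1c : 1 / c ≤ (P1 : ℝ) :=
    le_trans (Nat.le_ceil _) (by exact_mod_cast (le_max_right (max P0 4) ⌈1 / c⌉₊))
  have hkR : (1 : ℝ) ≤ (k : ℝ) := by exact_mod_cast hk1
  set B := (32 * k : ℝ) ^ (c / 2) with hB
  have hBpos : 0 < B := Real.rpow_pos_of_pos (by positivity) _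
  set A0 := (Real.log ((2 : ℝ) ^ (32 * k))) ^ (c / 2) with hA0
  have hlogN0 : 0 < Real.log ((2 : ℝ) ^ (32 * k)) := by
    apply Real.log_pos
    exact one_lt_pow₀ (by norm_num) (by omega)
  have hA0pos : 0 < A0 := Real.rpow_pos_of_pos hlogN0 _
  refine ⟨1 + (2 ^ Fintype.card I * K1 * B + C) + (2 ^ Fintype.card I + C) * A0, ?_, ?_⟩
  · have : 0 ≤ (2 ^ Fintype.card I * K1 * B + C) + (2 ^ Fintype.card I + C) * A0 := by positivity
    linarith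
  intro N hN L hL Ω hΩ
  have hN0 : 0 < N := by linarith
  have hprodL : (0 : ℝ) < ∏ i, L i := Finset.prod_pos fun i _ => lt_of_lt_of_le hN0 (hL i)
  have hlogNpos : 0 < Real.log N := Real.log_pos (by linarith)
  -- the box is finite
  have hbox := hcrt ∅ (by simp) (fun _ => ∅) L N (by simp; linarith) hL
  have hboxfin : {x : I → ℤ | ∀ i, |(x i : ℝ)| < L i}.Finite := by
    refine hbox.1.subset ?_
    intro x hx
    exact ⟨hx, by simp⟩
  have hfin : {x : I → ℤ | (∀ i, |(x i : ℝ)| < L i) ∧ ∀ p : ℕ, p.Prime → P0 ≤ p →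
      (fun i => ((x i : ℤ) : ZMod (p ^ k))) ∉ Ω p}.Finite :=
    hboxfin.subset fun x hx => hx.1
  refine ⟨hfin, ?_⟩
  have hrp : 0 < (Real.log N) ^ (-(c / 2)) := Real.rpow_pos_of_pos hlogNpos _
  by_cases hcase : (2 : ℝ) ^ (32 * k) ≤ N
  · -- large N
    have hex : ∀ p : ℕ, ∃ T : Set (I → ZMod (p ^ k)), p.Prime → P1 ≤ p →
        T ⊆ Ω p ∧ T.ncard = ⌈(c / p) * ((p : ℝ) ^ k) ^ (Fintype.card I)⌉₊ := by
      intro p
      by_cases h : p.Prime ∧ P1 ≤ p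
      · have h3 : ⌈(c / p) * ((p : ℝ) ^ k) ^ (Fintype.card I)⌉₊ ≤ (Ω p).ncard :=
          Nat.ceil_le.mpr (hΩ p h.1 (le_trans hP10 h.2))
        obtain ⟨T, hT1, hT2⟩ := Set.exists_subset_card_eq h3
        exact ⟨T, fun _ _ => ⟨hT1, hT2⟩⟩
      · exact ⟨∅, fun h1 h2 => absurd ⟨h1, h2⟩ h⟩
    choose Ω' hΩ' using hex
    have key : ∀ p : ℕ, p.Prime → P1 ≤ p →
        c / p ≤ ((Ω' p).ncard : ℝ) / ((p : ℝ) ^ k) ^ (Fintype.card I) ∧
        ((Ω' p).ncard : ℝ) / ((p : ℝ) ^ k) ^ (Fintype.card I) ≤ 2 * c / p ∧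
        1 / (p : ℝ) ^ 2 ≤ c / p := by
      intro p hp hp1
      have hp2 : (2 : ℝ) ≤ (p : ℝ) := by exact_mod_cast hp.two_le
      have hp0 : (0 : ℝ) < (p : ℝ) := by linarith
      have hq : (0 : ℝ) < ((p : ℝ) ^ k) ^ (Fintype.card I) := by positivity
      have hpc : 1 / c ≤ (p : ℝ) := le_trans hP1c (by exact_mod_cast hp1)
      have h3 : 1 / (p : ℝ) ^ 2 ≤ c / p := by
        rw [div_le_iff₀ (by positivity)]
        rw [div_le_iff₀ hc] at hpc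
        calc (1 : ℝ) ≤ p * c := hpc
          _ = c / p * p ^ 2 := by field_simp
      have h4 : (p : ℝ) ^ 2 ≤ ((p : ℝ) ^ k) ^ (Fintype.card I) := by
        rw [← pow_mul]
        exact pow_le_pow_right₀ (by linarith) hk
      have h5 : 1 / ((p : ℝ) ^ k) ^ (Fintype.card I) ≤ c / p := by
        refine le_trans ?_ h3
        gcongr
      have h6 := (hΩ' p hp hp1).2
      have hnn : 0 ≤ (c / p) * ((p : ℝ) ^ k) ^ (Fintype.card I) := by positivity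
      refine ⟨?_, ?_, h3⟩
      · rw [le_div_iff₀ hq, h6]
        exact Nat.le_ceil _
      · rw [h6]
        have h7 := (Nat.ceil_lt_add_one hnn).le
        calc ((⌈(c / p) * ((p : ℝ) ^ k) ^ (Fintype.card I)⌉₊ : ℕ) : ℝ) /
              ((p : ℝ) ^ k) ^ (Fintype.card I)
            ≤ ((c / p) * ((p : ℝ) ^ k) ^ (Fintype.card I) + 1) /
              ((p : ℝ) ^ k) ^ (Fintype.card I) := by gcongr
          _ = c / p + 1 / ((p : ℝ) ^ k) ^ (Fintype.card I) := by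
              rw [add_div, mul_div_cancel_right₀ _ hq.ne']
          _ ≤ c / p + c / p := by linarith
          _ = 2 * c / p := by ring
    have hmain := sb_main I k hk1 c hc hc1 P1 C K1 hC hK1 hcrt hg N hcase L hL Ω'
      (fun p hp hp1 => ⟨(key p hp hp1).1, (key p hp hp1).2.1⟩)
      (fun p hp hp1 => le_trans (key p hp hp1).2.2 (key p hp hp1).1)
      hboxfin.toFinset (fun x => by simp) hfin.toFinset
      (fun x hx => by
        rw [Set.Finite.mem_toFinset] at hx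
        refine ⟨by rw [Set.Finite.mem_toFinset]; exact hx.1, ?_⟩
        intro p hp hp1 hmem
        exact hx.2 p hp (le_trans hP10 hp1) ((hΩ' p hp hp1).1 hmem))
    rw [Set.ncard_eq_toFinset_card _ hfin]
    refine le_trans hmain ?_
    have h9 : 0 ≤ (2 ^ Fintype.card I + C) * A0 := by positivity
    refine mul_le_mul_of_nonneg_right (mul_le_mul_of_nonneg_right ?_ hprodL.le) hrp.le
    rw [← hB]
    linarith
  · -- small N
    have hcase' : N ≤ (2 : ℝ) ^ (32 * k) := le_of_not_ge hcase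
    have h3 : (({x : I → ℤ | (∀ i, |(x i : ℝ)| < L i) ∧ ∀ p : ℕ, p.Prime → P0 ≤ p →
      (fun i => ((x i : ℤ) : ZMod (p ^ k))) ∉ Ω p}.ncard : ℕ) : ℝ) ≤
      (({x : I → ℤ | (∀ i, |(x i : ℝ)| < L i) ∧
        ∀ p ∈ (∅ : Finset ℕ), (fun i => ((x i : ℤ) : ZMod (p ^ k))) ∈
          (fun _ => ∅ : (p : ℕ) → Set (I → ZMod (p ^ k))) p}.ncard : ℕ) : ℝ) := by
      have : ({x : I → ℤ | (∀ i, |(x i : ℝ)| < L i) ∧ ∀ p : ℕ, p.Prime → P0 ≤ p →
      (fun i => ((x i : ℤ) : ZMod (p ^ k))) ∉ Ω p}.ncard : ℕ) ≤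
      ({x : I → ℤ | (∀ i, |(x i : ℝ)| < L i) ∧
        ∀ p ∈ (∅ : Finset ℕ), (fun i => ((x i : ℤ) : ZMod (p ^ k))) ∈
          (fun _ => ∅ : (p : ℕ) → Set (I → ZMod (p ^ k))) p}.ncard : ℕ) := by
        apply Set.ncard_le_ncard _ hbox.1
        intro x hx
        exact ⟨hx.1, by simp⟩
      exact_mod_cast this
    have h4 := (abs_le.mp hbox.2).2
    have h5 : (∏ i, (2 * L i)) = 2 ^ Fintype.card I * ∏ i, L i := by
      rw [Finset.prod_mul_distrib, Finset.prod_const, Finset.card_univ]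
    rw [Finset.prod_empty, one_mul, h5, Finset.prod_empty, Nat.cast_one] at h4
    have h6 : C * (1 / N) * ∏ i, L i ≤ C * ∏ i, L i := by
      have : 1 / N ≤ 1 := by rw [div_le_one hN0]; linarith
      calc C * (1 / N) * ∏ i, L i ≤ C * 1 * ∏ i, L i := by gcongr
        _ = C * ∏ i, L i := by ring
    have h7 : 1 ≤ A0 * (Real.log N) ^ (-(c / 2)) := by
      rw [Real.rpow_neg hlogNpos.le, ← div_eq_mul_inv, one_le_div (Real.rpow_pos_of_pos hlogNpos _)]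
      exact Real.rpow_le_rpow hlogNpos.le (Real.log_le_log hN0 hcase') (by positivity)
    have h8 : (2 ^ Fintype.card I + C) * (∏ i, L i) ≤
        (2 ^ Fintype.card I + C) * (∏ i, L i) * (A0 * (Real.log N) ^ (-(c / 2))) :=
      le_mul_of_one_le_right (by positivity) h7
    have h9 : (2 ^ Fintype.card I + C) * (∏ i, L i) * (A0 * (Real.log N) ^ (-(c / 2))) ≤
        (1 + (2 ^ Fintype.card I * K1 * B + C) + (2 ^ Fintype.card I + C) * A0) * (∏ i, L i) *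
          (Real.log N) ^ (-(c / 2)) := by
      have h10 : 0 ≤ (1 + (2 ^ Fintype.card I * K1 * B + C)) * (∏ i, L i) *
          (Real.log N) ^ (-(c / 2)) := by positivity
      nlinarith
    linarith

end Pool.Agent.Helper38.DZR
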