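import Pool.Agent.Helper32.DZ.PairDens
import Pool.Agent.Helper38.DZR.SieveBox

set_option autoImplicit false

/-!
DZR-09 PairDensR. Pairs `(a, s)` such that `-s` is a square modulo every prime factor of `a`: rate.

PROOF: as `Pool/Agent/Helper32/DZ/PairDens.lean` (the count of nonsquares is there, private: copy it), with `sieve_box` instead of
`crt_box`: `I = Fin 2`, `k = 1`, `c = 1/4`, `P0 = 3`, `L = ![L1, L2]`,
`Ω p = {x : Fin 2 → ZMod (p ^ 1) | x 0 = 0 ∧ ¬ IsSquare (-x 1)}` (transport along `p ^ 1 = p`: `pow_one`; e.g. work with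
the ring equivalence `ZMod.ringEquivCongr (pow_one p)`, or note that for a prime `p` the ring `ZMod (p^1)` is a field with
`p` elements: `Fact (p^1).Prime` from `pow_one`, so all arguments work verbatim for the prime number `p ^ 1`).
-/

namespace Pool.Agent.Helper38.DZR

private theorem ns_card (p : ℕ) [Fact p.Prime] (hp : p ≠ 2) :
    2 * ((Finset.univ.filter (fun a : ZMod p => ¬ IsSquare a)).card : ℤ) + 1 = (p : ℤ) := by
  classical
  have hchar : ringChar (ZMod p) ≠ 2 := by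
    rw [ZMod.ringChar_zmod_n]
    exact hp
  have h1 := quadraticChar_sum_zero hchar
  have h2 : ∀ a : ZMod p, quadraticChar (ZMod p) a =
      1 - 2 * (if ¬ IsSquare a then (1 : ℤ) else 0) - (if a = 0 then (1 : ℤ) else 0) := by
    intro a
    by_cases h0 : a = 0
    · subst h0
      have : IsSquare (0 : ZMod p) := IsSquare.zero
      simp [this]
    · by_cases hs : IsSquare a
      · rw [(quadraticChar_one_iff_isSquare h0).2 hs]
        simp [hs, h0]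
      · rw [quadraticChar_neg_one_iff_not_isSquare.2 hs]
        simp [hs, h0]
  have h3 : ∑ a : ZMod p, (1 - 2 * (if ¬ IsSquare a then (1 : ℤ) else 0) -
      (if a = 0 then (1 : ℤ) else 0)) = 0 := by
    refine Eq.trans ?_ h1
    exact Finset.sum_congr rfl fun a _ => (h2 a).symm
  rw [Finset.sum_sub_distrib, Finset.sum_sub_distrib, ← Finset.mul_sum, Finset.sum_const,
    Finset.card_univ, ZMod.card, Finset.sum_boole, Finset.sum_ite_eq'] at h3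
  simp only [nsmul_eq_mul, mul_one, Finset.mem_univ, if_true] at h3
  linarith

private theorem sq_cast (m p : ℕ) (h : m = p) (z : ℤ) (hz : IsSquare ((z : ℤ) : ZMod p)) :
    IsSquare ((z : ℤ) : ZMod m) := by
  subst h
  exact hz

theorem pair_dens_r : ∃ K : ℝ, 1 ≤ K ∧ ∀ N : ℝ, 2 ≤ N → ∀ L1 L2 : ℝ, N ≤ L1 → N ≤ L2 →
    {x : ℤ × ℤ | |(x.1 : ℝ)| < L1 ∧ |(x.2 : ℝ)| < L2 ∧
      ∀ p : ℕ, p.Prime → (p : ℤ) ∣ x.1 → IsSquare (((-x.2 : ℤ)) : ZMod p)}.Finite ∧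
    (({x : ℤ × ℤ | |(x.1 : ℝ)| < L1 ∧ |(x.2 : ℝ)| < L2 ∧
      ∀ p : ℕ, p.Prime → (p : ℤ) ∣ x.1 → IsSquare (((-x.2 : ℤ)) : ZMod p)}.ncard : ℕ) : ℝ) ≤
      K * (Real.log N) ^ (-(1 / 8 : ℝ)) * (L1 * L2) := by
  classical
  obtain ⟨K, hK1, hK⟩ := sieve_box (Fin 2) 1 (by simp) (1 / 4) (by norm_num) le_rfl 3
  refine ⟨K, hK1, fun N hN L1 L2 h1 h2 => ?_⟩
  set Ω : (p : ℕ) → Set (Fin 2 → ZMod (p ^ 1)) := fun p => {x | x 0 = 0 ∧ ¬ IsSquare (-x 1)} with hΩ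
  have hω : ∀ p : ℕ, p.Prime → 3 ≤ p →
      ((1 / 4 : ℝ) / p) * ((p : ℝ) ^ 1) ^ (Fintype.card (Fin 2)) ≤ ((Ω p).ncard : ℝ) := by
    intro p hpp hp3
    have : Fact (p ^ 1).Prime := ⟨by rw [pow_one]; exact hpp⟩
    have : NeZero (p ^ 1) := ⟨(Fact.out : (p ^ 1).Prime).ne_zero⟩
    have hp0 : (0 : ℝ) < p := by exact_mod_cast hpp.pos
    have hns := ns_card (p ^ 1) (by rw [pow_one]; omega)
    have hinj : Function.Injective (fun a : ZMod (p ^ 1) => (![0, -a] : Fin 2 → ZMod (p ^ 1))) := by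
      intro a b hab
      have := congrFun hab 1
      simpa using this
    have hsub : ((Finset.univ.filter (fun a : ZMod (p ^ 1) => ¬ IsSquare a)).image
        (fun a : ZMod (p ^ 1) => (![0, -a] : Fin 2 → ZMod (p ^ 1))) :
          Set (Fin 2 → ZMod (p ^ 1))) ⊆ Ω p := by
      intro x hx
      rw [Finset.coe_image] at hx
      obtain ⟨a, ha, rfl⟩ := hx
      have ha' := (Finset.mem_filter.1 (Finset.mem_coe.1 ha)).2
      refine ⟨rfl, ?_⟩
      simpa using ha'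
    have hcard := Set.ncard_le_ncard hsub (Set.toFinite _)
    rw [Set.ncard_coe_finset, Finset.card_image_of_injective _ hinj] at hcard
    have hcR : (((Finset.univ.filter (fun a : ZMod (p ^ 1) => ¬ IsSquare a)).card : ℕ) : ℝ) ≤
        ((Ω p).ncard : ℝ) := by exact_mod_cast hcard
    have hnsR : 2 * (((Finset.univ.filter (fun a : ZMod (p ^ 1) => ¬ IsSquare a)).card : ℕ) : ℝ) + 1
        = (p : ℝ) := by
      have e : ((p ^ 1 : ℕ) : ℤ) = (p : ℤ) := by rw [pow_one]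
      rw [e] at hns
      exact_mod_cast hns
    have hp3R : (3 : ℝ) ≤ p := by exact_mod_cast hp3
    rw [Fintype.card_fin, pow_one]
    have e1 : (1 / 4 : ℝ) / (p : ℝ) * (p : ℝ) ^ 2 = p / 4 := by
      field_simp
    rw [e1]
    linarith
  obtain ⟨hfin, hle⟩ := hK N hN (![L1, L2]) (by
      intro i
      fin_cases i
      · exact h1
      · exact h2) Ω hω
  have hmap : ∀ x ∈ {x : ℤ × ℤ | |(x.1 : ℝ)| < L1 ∧ |(x.2 : ℝ)| < L2 ∧
      ∀ p : ℕ, p.Prime → (p : ℤ) ∣ x.1 → IsSquare (((-x.2 : ℤ)) : ZMod p)},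
      (![x.1, x.2] : Fin 2 → ℤ) ∈ {x : Fin 2 → ℤ | (∀ i, |(x i : ℝ)| < (![L1, L2] : Fin 2 → ℝ) i) ∧
        ∀ p : ℕ, p.Prime → 3 ≤ p → (fun i => ((x i : ℤ) : ZMod (p ^ 1))) ∉ Ω p} := by
    rintro ⟨u, v⟩ ⟨hu, hv, hsq⟩
    refine ⟨?_, ?_⟩
    · intro i
      fin_cases i
      · exact hu
      · exact hv
    · intro p hpp _ hmem
      have hm0 : ((u : ℤ) : ZMod (p ^ 1)) = 0 := hmem.1
      have hm1 : ¬ IsSquare (-((v : ℤ) : ZMod (p ^ 1))) := hmem.2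
      apply hm1
      have hd := (ZMod.intCast_zmod_eq_zero_iff_dvd u (p ^ 1)).1 hm0
      rw [Nat.cast_pow, pow_one] at hd
      have := sq_cast (p ^ 1) p (pow_one p) _ (hsq p hpp hd)
      simpa using this
  have hinj : Set.InjOn (fun x : ℤ × ℤ => (![x.1, x.2] : Fin 2 → ℤ))
      {x : ℤ × ℤ | |(x.1 : ℝ)| < L1 ∧ |(x.2 : ℝ)| < L2 ∧
      ∀ p : ℕ, p.Prime → (p : ℤ) ∣ x.1 → IsSquare (((-x.2 : ℤ)) : ZMod p)} := by
    rintro ⟨u, v⟩ _ ⟨u', v'⟩ _ h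
    have e0 := congrFun h 0
    have e1 := congrFun h 1
    simp at e0 e1
    rw [e0, e1]
  refine ⟨Set.Finite.of_injOn hmap hinj hfin, ?_⟩
  have hnc := Set.ncard_le_ncard_of_injOn _ hmap hinj hfin
  have hncR : ((Set.ncard {x : ℤ × ℤ | |(x.1 : ℝ)| < L1 ∧ |(x.2 : ℝ)| < L2 ∧
      ∀ p : ℕ, p.Prime → (p : ℤ) ∣ x.1 → IsSquare (((-x.2 : ℤ)) : ZMod p)} : ℕ) : ℝ) ≤
      ((Set.ncard {x : Fin 2 → ℤ | (∀ i, |(x i : ℝ)| < (![L1, L2] : Fin 2 → ℝ) i) ∧
        ∀ p : ℕ, p.Prime → 3 ≤ p → (fun i => ((x i : ℤ) : ZMod (p ^ 1))) ∉ Ω p} : ℕ) : ℝ) := by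
    exact_mod_cast hnc
  refine hncR.trans (hle.trans (le_of_eq ?_))
  rw [Fin.prod_univ_two, show (-(1 / 4 / 2) : ℝ) = -(1 / 8 : ℝ) by norm_num]
  simp only [Matrix.cons_val_zero, Matrix.cons_val_one]
  ring

end Pool.Agent.Helper38.DZR
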