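import Mathlib

set_option autoImplicit false

/-!
DZR-10 SqfPartR. Most integers have a large squarefree divisor: rate.

PROOF (model: `Pool/Agent/Helper32/DZ/SqfPart.lean`). `α ≠ 0`: `|α| = s^2 b`, `b` squarefree (`Nat.sq_mul_squarefree`), `b ∣ α`.
If `α` is in the set then `H > 2^(4u) b`. Either `|α| < H / 4^u`: at most `2 H / 4^u ≤ 2 H / 2^u` integers `α ≠ 0`. Or
`|α| ≥ H / 4^u`, then `s^2 = |α| / b > (H / 4^u) (2^(4u) / H) = 4^u`, `s > 2^u`, `s^2 ∣ α`: at most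
`∑_(2^u < s ≤ H) 2 H / s^2 ≤ 2 H / 2^u` (`∑_(s > S) 1/s^2 ≤ 1/S`, telescoping). Total `≤ 4 H / 2^u`.
-/

namespace Pool.Agent.Helper38.DZR

theorem sqf_part_r (u H : ℕ) (hH : 1 ≤ H) :
    (({α : ℤ | α ≠ 0 ∧ |α| ≤ (H : ℤ) ∧
      ¬ ∃ q : ℕ, Squarefree q ∧ (q : ℤ) ∣ α ∧ (H : ℝ) ≤ 2 ^ (4 * u) * q}.ncard : ℕ) : ℝ) ≤
      8 * (H : ℝ) / 2 ^ u := by
  classical
  set S0 : ℕ := 2 ^ u with hS0
  have hS1' : 1 ≤ S0 := Nat.one_le_two_pow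
  have hS1 : (1 : ℝ) ≤ S0 := by exact_mod_cast hS1'
  have hS0r : (S0 : ℝ) = 2 ^ u := by rw [hS0]; push_cast; rfl
  have ht : (2 : ℝ) ^ (4 * u) = (S0 : ℝ) ^ 4 := by rw [hS0r, ← pow_mul, mul_comm]
  have hH0 : (0 : ℝ) < H := by exact_mod_cast hH
  have hSpos : (0 : ℝ) < S0 := by linarith
  rw [ht, ← hS0r]
  set B : Finset ℕ := (Finset.Ioc 0 H).filter
    (fun n => ¬ ∃ q : ℕ, Squarefree q ∧ q ∣ n ∧ (H : ℝ) ≤ (S0 : ℝ) ^ 4 * q) with hB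
  have h1 : {α : ℤ | α ≠ 0 ∧ |α| ≤ (H : ℤ) ∧
      ¬ ∃ q : ℕ, Squarefree q ∧ (q : ℤ) ∣ α ∧ (H : ℝ) ≤ (S0 : ℝ) ^ 4 * q} ⊆
      ((B.image (fun n : ℕ => (n : ℤ)) ∪ B.image (fun n : ℕ => -(n : ℤ)) : Finset ℤ) : Set ℤ) := by
    rintro α ⟨hα0, hαH, hα⟩
    have hmem : α.natAbs ∈ B := by
      rw [hB, Finset.mem_filter, Finset.mem_Ioc]
      refine ⟨⟨Int.natAbs_pos.2 hα0, ?_⟩, ?_⟩
      · have : (α.natAbs : ℤ) ≤ H := by rw [Int.natCast_natAbs]; exact hαH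
        exact_mod_cast this
      · rintro ⟨q, hq1, hq2, hq3⟩
        exact hα ⟨q, hq1, Int.natCast_dvd.2 hq2, hq3⟩
    rw [Finset.mem_coe, Finset.mem_union, Finset.mem_image, Finset.mem_image]
    rcases Int.natAbs_eq α with h | h
    · exact Or.inl ⟨_, hmem, h.symm⟩
    · exact Or.inr ⟨_, hmem, h.symm⟩
  have h2 : {α : ℤ | α ≠ 0 ∧ |α| ≤ (H : ℤ) ∧
      ¬ ∃ q : ℕ, Squarefree q ∧ (q : ℤ) ∣ α ∧ (H : ℝ) ≤ (S0 : ℝ) ^ 4 * q}.ncard ≤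
      B.card + B.card := by
    refine (Set.ncard_le_ncard h1 (Finset.finite_toSet _)).trans ?_
    rw [Set.ncard_coe_finset]
    exact (Finset.card_union_le _ _).trans
      (Nat.add_le_add Finset.card_image_le Finset.card_image_le)
  have h3 : B ⊆ (Finset.Ioc 0 ⌊(H : ℝ) / (S0 : ℝ) ^ 2⌋₊) ∪ (Finset.Ioc S0 H).biUnion
      (fun s => (Finset.Ioc 0 H).filter (fun n => s ^ 2 ∣ n)) := by
    intro n hn
    rw [hB, Finset.mem_filter, Finset.mem_Ioc] at hn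
    obtain ⟨⟨hn0, hnH⟩, hn1⟩ := hn
    rw [Finset.mem_union]
    by_cases hsm : (n : ℝ) ≤ (H : ℝ) / (S0 : ℝ) ^ 2
    · left
      rw [Finset.mem_Ioc]
      exact ⟨hn0, Nat.le_floor hsm⟩
    · right
      push Not at hsm
      obtain ⟨a, b, hab, hsq⟩ := Nat.sq_mul_squarefree n
      have ha : a ∣ n := ⟨b ^ 2, by rw [← hab]; ring⟩
      have hb : b ^ 2 ∣ n := ⟨a, hab.symm⟩
      have ha0 : 0 < a := Nat.pos_of_ne_zero hsq.ne_zero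
      have hHa : (S0 : ℝ) ^ 4 * (a : ℝ) < H := by
        by_contra hcon
        push Not at hcon
        exact hn1 ⟨a, hsq, ha, hcon⟩
      have hab' : (b : ℝ) ^ 2 * a = n := by exact_mod_cast hab
      have ha0' : (0 : ℝ) < a := by exact_mod_cast ha0
      have hbS : (S0 : ℝ) ^ 2 < (b : ℝ) ^ 2 := by
        have h5 : (S0 : ℝ) ^ 2 * (a : ℝ) < (b : ℝ) ^ 2 * a := by
          rw [hab']
          refine lt_trans ?_ hsm
          rw [lt_div_iff₀ (by positivity)]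
          have h6 : (S0 : ℝ) ^ 2 * (a : ℝ) * (S0 : ℝ) ^ 2 = (S0 : ℝ) ^ 4 * (a : ℝ) := by ring
          rw [h6]
          exact hHa
        exact lt_of_mul_lt_mul_right h5 ha0'.le
      have hbS' : S0 < b := by
        have := lt_of_pow_lt_pow_left₀ 2 (Nat.cast_nonneg b) hbS
        exact_mod_cast this
      rw [Finset.mem_biUnion]
      refine ⟨b, Finset.mem_Ioc.2 ⟨hbS', ?_⟩, Finset.mem_filter.2 ⟨Finset.mem_Ioc.2 ⟨hn0, hnH⟩, hb⟩⟩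
      calc b ≤ b ^ 2 := Nat.le_self_pow two_ne_zero b
        _ ≤ n := Nat.le_of_dvd hn0 hb
        _ ≤ H := hnH
  have h4 : (B.card : ℝ) ≤ H / S0 + H / S0 := by
    have h5 : B.card ≤ ⌊(H : ℝ) / (S0 : ℝ) ^ 2⌋₊ + ∑ s ∈ Finset.Ioc S0 H, H / s ^ 2 := by
      refine (Finset.card_le_card h3).trans ((Finset.card_union_le _ _).trans
        (Nat.add_le_add (by simp) (Finset.card_biUnion_le.trans (le_of_eq ?_))))
      exact Finset.sum_congr rfl fun s _ => Nat.Ioc_filter_dvd_card_eq_div H (s ^ 2)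
    have h6 : (B.card : ℝ) ≤ (⌊(H : ℝ) / (S0 : ℝ) ^ 2⌋₊ : ℝ) +
        ∑ s ∈ Finset.Ioc S0 H, ((H / s ^ 2 : ℕ) : ℝ) := by
      exact_mod_cast h5
    have h7 : (⌊(H : ℝ) / (S0 : ℝ) ^ 2⌋₊ : ℝ) ≤ H / S0 := by
      refine (Nat.floor_le (by positivity)).trans ?_
      refine div_le_div_of_nonneg_left hH0.le hSpos ?_
      nlinarith
    have h8 : ∑ s ∈ Finset.Ioc S0 H, ((H / s ^ 2 : ℕ) : ℝ) ≤ H * (S0 : ℝ)⁻¹ := by
      rcases le_total H S0 with hle | hle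
      · rw [Finset.Ioc_eq_empty_of_le hle, Finset.sum_empty]
        positivity
      · calc ∑ s ∈ Finset.Ioc S0 H, ((H / s ^ 2 : ℕ) : ℝ)
            ≤ ∑ s ∈ Finset.Ioc S0 H, (H : ℝ) * ((s : ℝ) ^ 2)⁻¹ := by
              refine Finset.sum_le_sum fun s _ => ?_
              refine Nat.cast_div_le.trans (le_of_eq ?_)
              push_cast
              rw [div_eq_mul_inv]
          _ = (H : ℝ) * ∑ s ∈ Finset.Ioc S0 H, ((s : ℝ) ^ 2)⁻¹ := by rw [Finset.mul_sum]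
          _ ≤ (H : ℝ) * ((S0 : ℝ)⁻¹ - (H : ℝ)⁻¹) :=
              mul_le_mul_of_nonneg_left (sum_Ioc_inv_sq_le_sub (by omega) hle) hH0.le
          _ ≤ H * (S0 : ℝ)⁻¹ := by
              refine mul_le_mul_of_nonneg_left ?_ hH0.le
              have : 0 ≤ (H : ℝ)⁻¹ := inv_nonneg.2 hH0.le
              linarith
    rw [← div_eq_mul_inv] at h8
    linarith
  have h5 : (({α : ℤ | α ≠ 0 ∧ |α| ≤ (H : ℤ) ∧
      ¬ ∃ q : ℕ, Squarefree q ∧ (q : ℤ) ∣ α ∧ (H : ℝ) ≤ (S0 : ℝ) ^ 4 * q}.ncard : ℕ) : ℝ) ≤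
      (B.card : ℝ) + B.card := by exact_mod_cast h2
  have h6 : 8 * (H : ℝ) / S0 = 8 * (H / S0) := by ring
  have h7 : 0 ≤ (H : ℝ) / S0 := by positivity
  rw [h6]
  linarith

end Pool.Agent.Helper38.DZR
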