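import Pool.Agent.Helper38.DZR.SymDensU

set_option autoImplicit false

/-!
DZR-07 LiftDens. Bad classes modulo `p^2`: `p` divides the determinant exactly once.

`redP`: reduction `ZMod (p^2) → ZMod p`. `BadP m u p`: the classes `x` modulo `p^2` with `p ∣ det`, `p^2 ∤ det`, and
`u * det (without first row and column)` not a square modulo `p`.

PROOF. The fibres of the reduction of vectors `(UpIdx → ZMod (p^2)) → (UpIdx → ZMod p)` have `p^(card)` elements. Let
`y` be in the set of `sym_dens_u`; fix the lifts of all coordinates except the corner `(0,0)`, `p^(card - 1)` choices. The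
corner `t` has `p` lifts `t0 + p s`, and `det (t) = det (t0) + p s det A'` in `ZMod (p^2)` (linear in the corner:
`Matrix.det_succ_row_zero`, or `det_updateRow_add`), with `det A'` a unit modulo `p` (it is not `0` modulo `p` because `0` is a
square), and `p ∣ det (t0)`; so exactly one `s` modulo `p` gives `det = 0` modulo `p^2`: at least `(p - 1) p^(card - 1)`
lifts are in `BadP`. Total `≥ (1/(4p)) p^card (p-1) p^(card-1) ≥ (1/(8p)) (p^2)^card` as `(p-1)/p ≥ 1/2`.
(Reduction commutes with `toSym`, `det`, `submatrix`: `RingHom.map_det`, `Matrix.submatrix_map`.)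
-/

open Matrix Pool.Agent.Helper32.DZ

namespace Pool.Agent.Helper38.DZR

/-- reduction modulo `p` -/
def redP (p : ℕ) : ZMod (p ^ 2) →+* ZMod p := ZMod.castHom (dvd_pow_self p two_ne_zero) (ZMod p)

/-- bad classes modulo `p^2` -/
def BadP (m : ℕ) (u : ℤ) (p : ℕ) : Set (UpIdx (m + 1) → ZMod (p ^ 2)) :=
  {x | redP p (toSym x).det = 0 ∧ (toSym x).det ≠ 0 ∧
    ¬ IsSquare ((u : ZMod p) * redP p ((toSym x).submatrix Fin.succ Fin.succ).det)}

private theorem det_corner {R : Type} [CommRing R] {m : ℕ}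
    (M M' : Matrix (Fin (m + 1)) (Fin (m + 1)) R) (a : R)
    (h0 : M' 0 0 = M 0 0 + a) (h1 : ∀ i j, (i ≠ 0 ∨ j ≠ 0) → M' i j = M i j) :
    M'.det = M.det + a * (M.submatrix Fin.succ Fin.succ).det := by
  have hs : ∀ j : Fin (m + 1), M'.submatrix Fin.succ j.succAbove =
      M.submatrix Fin.succ j.succAbove := by
    intro j
    ext i k
    exact h1 _ _ (Or.inl (Fin.succ_ne_zero i))
  rw [Matrix.det_succ_row_zero, Matrix.det_succ_row_zero M, Fin.sum_univ_succ, Fin.sum_univ_succ]
  simp only [hs]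
  rw [h0, Finset.sum_congr rfl (fun j _ => by
    rw [h1 0 (Fin.succ j) (Or.inr (Fin.succ_ne_zero j))])]
  simp only [Fin.val_zero, pow_zero, one_mul, Fin.succAbove_zero]
  ring

/-- the corner -/
private def cor (m : ℕ) : UpIdx (m + 1) := ⟨(0, 0), le_rfl⟩

private theorem toSym_update {R : Type} [CommRing R] {m : ℕ} (x : UpIdx (m + 1) → R) (a : R) :
    toSym (Function.update x (cor m) (x (cor m) + a)) 0 0 = toSym x 0 0 + a ∧
      ∀ i j, (i ≠ 0 ∨ j ≠ 0) →
        toSym (Function.update x (cor m) (x (cor m) + a)) i j = toSym x i j := by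
  constructor
  · simp only [toSym, Matrix.of_apply]
    have h3 : (⟨(min 0 0, max 0 0), min_le_max⟩ : UpIdx (m + 1)) = cor m := by
      apply Subtype.ext
      simp [cor]
    rw [h3, Function.update_self]
  · intro i j hij
    simp only [toSym, Matrix.of_apply]
    rw [Function.update_of_ne]
    intro h
    have h2 : max i j = 0 := congrArg (fun q : UpIdx (m + 1) => q.1.2) h
    have h4 : i ≤ 0 := h2 ▸ le_max_left i j
    have h5 : j ≤ 0 := h2 ▸ le_max_right i j
    rcases hij with h6 | h6
    · exact h6 (Fin.le_zero_iff.1 h4)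
    · exact h6 (Fin.le_zero_iff.1 h5)

private theorem det_update {R : Type} [CommRing R] {m : ℕ} (x : UpIdx (m + 1) → R) (a : R) :
    (toSym (Function.update x (cor m) (x (cor m) + a))).det =
      (toSym x).det + a * ((toSym x).submatrix Fin.succ Fin.succ).det :=
  det_corner _ _ _ (toSym_update x a).1 (toSym_update x a).2

private theorem sub_update {R : Type} [CommRing R] {m : ℕ} (x : UpIdx (m + 1) → R) (a : R) :
    (toSym (Function.update x (cor m) (x (cor m) + a))).submatrix Fin.succ Fin.succ =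
      (toSym x).submatrix Fin.succ Fin.succ := by
  ext i j
  exact (toSym_update x a).2 _ _ (Or.inl (Fin.succ_ne_zero i))

private theorem red_det {p n : ℕ} (x : UpIdx n → ZMod (p ^ 2)) :
    redP p (toSym x).det = (toSym fun q => redP p (x q)).det := by
  rw [RingHom.map_det]
  rfl

private theorem red_sub {p m : ℕ} (x : UpIdx (m + 1) → ZMod (p ^ 2)) :
    redP p ((toSym x).submatrix Fin.succ Fin.succ).det =
      ((toSym fun q => redP p (x q)).submatrix Fin.succ Fin.succ).det := by
  rw [RingHom.map_det]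
  rfl

private theorem red_nat {p : ℕ} (a : ℕ) : redP p (a : ZMod (p ^ 2)) = (a : ZMod p) :=
  map_natCast _ a

/-- the lift of a class with a given second digit -/
private def lif (p : ℕ) (y : ZMod p) (s : Fin p) : ZMod (p ^ 2) :=
  ((y.val + p * s.val : ℕ) : ZMod (p ^ 2))

private theorem red_lif {p : ℕ} [NeZero p] (y : ZMod p) (s : Fin p) : redP p (lif p y s) = y := by
  unfold lif
  rw [red_nat]
  push_cast
  rw [ZMod.natCast_zmod_val, ZMod.natCast_self, zero_mul, add_zero]

private theorem lif_inj {p : ℕ} [NeZero p] (y y' : ZMod p) (s s' : Fin p)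
    (h : lif p y s = lif p y' s') : y = y' ∧ s = s' := by
  have hp : 0 < p := Nat.pos_of_ne_zero (NeZero.ne p)
  have hy : y = y' := by
    rw [← red_lif y s, ← red_lif y' s', h]
  subst hy
  refine ⟨rfl, ?_⟩
  unfold lif at h
  rw [ZMod.natCast_eq_natCast_iff'] at h
  have hlt : ∀ t : Fin p, y.val + p * t.val < p ^ 2 := by
    intro t
    have h1 : y.val < p := ZMod.val_lt y
    have h2 : t.val + 1 ≤ p := t.isLt
    nlinarith
  rw [Nat.mod_eq_of_lt (hlt s), Nat.mod_eq_of_lt (hlt s')] at h
  have h3 : p * s.val = p * s'.val := by omega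
  exact Fin.ext (Nat.eq_of_mul_eq_mul_left hp h3)

/-- cancellation -/
private theorem cancel_p {p : ℕ} (hp : p.Prime) (D : ZMod (p ^ 2)) (hD : redP p D ≠ 0)
    (s s' : Fin p) (h : ((p * s.val : ℕ) : ZMod (p ^ 2)) * D = ((p * s'.val : ℕ) : ZMod (p ^ 2)) * D) :
    s = s' := by
  have : Fact p.Prime := ⟨hp⟩
  obtain ⟨d, rfl⟩ : ∃ d : ℕ, (d : ZMod (p ^ 2)) = D := ⟨D.val, ZMod.natCast_zmod_val D⟩
  rw [red_nat] at hD
  have hd : ¬ (p : ℤ) ∣ (d : ℤ) := by
    intro h1
    apply hD
    have h2 : p ∣ d := by exact_mod_cast h1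
    exact (ZMod.natCast_eq_zero_iff d p).2 h2
  have h1 : (((p : ℤ) * (((s.val : ℤ) - s'.val) * d) : ℤ) : ZMod (p ^ 2)) = 0 := by
    push_cast
    push_cast at h
    linear_combination h
  rw [ZMod.intCast_zmod_eq_zero_iff_dvd] at h1
  have h2 : (p : ℤ) ∣ ((s.val : ℤ) - s'.val) * d := by
    have hp0 : (p : ℤ) ≠ 0 := by exact_mod_cast hp.ne_zero
    have h3 : (p : ℤ) * p ∣ (p : ℤ) * (((s.val : ℤ) - s'.val) * d) := by
      have : ((p ^ 2 : ℕ) : ℤ) = (p : ℤ) * p := by push_cast; ring
      rwa [this] at h1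
    exact (mul_dvd_mul_iff_left hp0).1 h3
  have h4 : (p : ℤ) ∣ (s.val : ℤ) - s'.val :=
    ((Nat.prime_iff_prime_int.1 hp).dvd_or_dvd h2).resolve_right hd
  have h5 : (s.val : ℤ) - s'.val = 0 := by
    refine Int.eq_zero_of_abs_lt_dvd h4 ?_
    have := s.isLt
    have := s'.isLt
    rw [abs_lt]
    constructor <;> omega
  exact Fin.ext (by omega)

theorem lift_dens (m : ℕ) (hm : 1 ≤ m) (p : ℕ) (hp : p.Prime) (hp2 : 2 * m ≤ p) (hp3 : 3 ≤ p)
    (u : ℤ) (hu : ¬ (p : ℤ) ∣ u) :
    ((1 / 8 : ℝ) / p) * ((p : ℝ) ^ 2) ^ (Fintype.card (UpIdx (m + 1))) ≤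
      (((BadP m u p).ncard : ℕ) : ℝ) := by
  classical
  have : Fact p.Prime := ⟨hp⟩
  have hp0 : (0 : ℝ) < p := by exact_mod_cast hp.pos
  have hu0 : ((u : ℤ) : ZMod p) ≠ 0 := by
    intro h
    exact hu ((ZMod.intCast_zmod_eq_zero_iff_dvd u p).1 h)
  have h0 := sym_dens_u m hm p hp hp2 hp3 (u : ZMod p) hu0
  obtain ⟨Om, hOm⟩ : ∃ Om : Finset (UpIdx (m + 1) → ZMod p), ∀ y, y ∈ Om ↔
      ((toSym y).det = 0 ∧ ¬ IsSquare ((u : ZMod p) * ((toSym y).submatrix Fin.succ Fin.succ).det)) :=
    ⟨Finset.univ.filter fun y => ((toSym y).det = 0 ∧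
      ¬ IsSquare ((u : ZMod p) * ((toSym y).submatrix Fin.succ Fin.succ).det)), fun y => by
      rw [Finset.mem_filter]
      exact ⟨fun h => h.2, fun h => ⟨Finset.mem_univ _, h⟩⟩⟩
  have h0' : ({x : UpIdx (m + 1) → ZMod p | (toSym x).det = 0 ∧
      ¬ IsSquare ((u : ZMod p) * ((toSym x).submatrix Fin.succ Fin.succ).det)}) = (Om : Set _) := by
    ext y
    exact (hOm y).symm
  rw [h0', Set.ncard_coe_finset] at h0
  obtain ⟨W, hW⟩ : ∃ W : Finset (UpIdx (m + 1) → ZMod (p ^ 2)), ∀ x, x ∈ W ↔
      (fun q => redP p (x q)) ∈ Om :=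
    ⟨Finset.univ.filter fun x => (fun q => redP p (x q)) ∈ Om, fun y => by
      rw [Finset.mem_filter]
      exact ⟨fun h => h.2, fun h => ⟨Finset.mem_univ _, h⟩⟩⟩
  have hB : BadP m u p = ((W.filter fun x => ¬ (toSym x).det = 0 : Finset _) : Set _) := by
    ext x
    rw [Finset.mem_coe, Finset.mem_filter, hW, hOm, ← red_det, ← red_sub]
    exact ⟨fun h => ⟨⟨h.1, h.2.2⟩, h.2.1⟩, fun h => ⟨h.1.1, h.2, h.1.2⟩⟩
  rw [hB, Set.ncard_coe_finset]
  have hcard : (W.filter fun x => (toSym x).det = 0).card +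
      (W.filter fun x => ¬ (toSym x).det = 0).card = W.card :=
    Finset.card_filter_add_card_filter_not _
  -- the first injection
  have i1 : Om.card * p ^ (Fintype.card (UpIdx (m + 1))) ≤ W.card := by
    have h1 : (Om ×ˢ (Finset.univ : Finset (UpIdx (m + 1) → Fin p))).card ≤ W.card := by
      refine Finset.card_le_card_of_injOn (fun z q => lif p (z.1 q) (z.2 q)) ?_ ?_
      · rintro ⟨y, s⟩ hz
        rw [Finset.mem_coe, Finset.mem_product] at hz
        rw [Finset.mem_coe, hW]
        simp only [red_lif]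
        exact hz.1
      · rintro ⟨y, s⟩ _ ⟨y', s'⟩ _ h
        have h2 : ∀ q, y q = y' q ∧ s q = s' q := fun q => lif_inj _ _ _ _ (congrFun h q)
        exact Prod.ext (funext fun q => (h2 q).1) (funext fun q => (h2 q).2)
    rw [Finset.card_product, Finset.card_univ, Fintype.card_fun, Fintype.card_fin] at h1
    exact h1
  -- the second injection
  have i2 : (W.filter fun x => (toSym x).det = 0).card * p ≤ W.card := by
    have hne : ∀ x ∈ W, redP p ((toSym x).submatrix Fin.succ Fin.succ).det ≠ 0 := by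
      intro x hx h
      rw [hW, hOm, ← red_sub, h, mul_zero] at hx
      exact hx.2 IsSquare.zero
    have h1 : ((W.filter fun x => (toSym x).det = 0) ×ˢ (Finset.univ : Finset (Fin p))).card ≤
        W.card := by
      refine Finset.card_le_card_of_injOn (fun z => Function.update z.1 (cor m)
        (z.1 (cor m) + ((p * z.2.val : ℕ) : ZMod (p ^ 2)))) ?_ ?_
      · rintro ⟨x, s⟩ hz
        rw [Finset.mem_coe, Finset.mem_product, Finset.mem_filter] at hz
        rw [Finset.mem_coe, hW]
        have h2 : (fun q => redP p (Function.update x (cor m)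
            (x (cor m) + ((p * s.val : ℕ) : ZMod (p ^ 2))) q)) = fun q => redP p (x q) := by
          funext q
          by_cases hq : q = cor m
          · subst hq
            rw [Function.update_self, map_add, red_nat]
            push_cast
            rw [ZMod.natCast_self, zero_mul, add_zero]
          · rw [Function.update_of_ne hq]
        simp only at h2 ⊢
        rw [h2]
        exact (hW x).1 hz.1.1
      · rintro ⟨x, s⟩ hz ⟨x', s'⟩ hz' h
        rw [Finset.mem_coe, Finset.mem_product, Finset.mem_filter] at hz hz'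
        simp only at hz hz' h
        have hd : (toSym x).submatrix Fin.succ Fin.succ =
            (toSym x').submatrix Fin.succ Fin.succ := by
          rw [← sub_update x ((p * s.val : ℕ) : ZMod (p ^ 2)),
            ← sub_update x' ((p * s'.val : ℕ) : ZMod (p ^ 2)), h]
        have h3 := det_update x ((p * s.val : ℕ) : ZMod (p ^ 2))
        have h4 := det_update x' ((p * s'.val : ℕ) : ZMod (p ^ 2))
        rw [h, h4, hz'.1.2, hz.1.2, zero_add, zero_add, ← hd] at h3
        have h5 : s = s' := (cancel_p hp _ (hne x hz.1.1) s' s h3).symm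
        subst h5
        refine Prod.ext ?_ rfl
        funext q
        have h6 := congrFun h q
        by_cases hq : q = cor m
        · subst hq
          rw [Function.update_self, Function.update_self] at h6
          exact add_right_cancel h6
        · rw [Function.update_of_ne hq, Function.update_of_ne hq] at h6
          exact h6
    rw [Finset.card_product, Finset.card_univ, Fintype.card_fin] at h1
    exact h1
  set N := Fintype.card (UpIdx (m + 1)) with hN
  set z := (W.filter fun x => (toSym x).det = 0).card with hz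
  set b := (W.filter fun x => ¬ (toSym x).det = 0).card with hb
  have j1 : (Om.card : ℝ) * (p : ℝ) ^ N ≤ W.card := by exact_mod_cast i1
  have j2 : (z : ℝ) * p ≤ W.card := by exact_mod_cast i2
  have j3 : (z : ℝ) + b = W.card := by exact_mod_cast hcard
  have j4 : (2 : ℝ) * z ≤ W.card := by
    have h2 : (2 : ℝ) ≤ p := by exact_mod_cast hp.two_le
    have h3 : (0 : ℝ) ≤ z := Nat.cast_nonneg _
    nlinarith
  have j5 : (W.card : ℝ) / 2 ≤ b := by linarith
  refine le_trans ?_ j5
  have j6 : (1 / (4 * (p : ℝ))) * (p : ℝ) ^ N * (p : ℝ) ^ N ≤ W.card := by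
    refine le_trans ?_ j1
    exact mul_le_mul_of_nonneg_right h0 (by positivity)
  have j7 : ((p : ℝ) ^ 2) ^ N = (p : ℝ) ^ N * (p : ℝ) ^ N := by
    rw [← pow_mul, mul_comm 2 N, pow_mul, sq]
  rw [j7]
  have j8 : (1 / 8 : ℝ) / p * ((p : ℝ) ^ N * (p : ℝ) ^ N) =
      ((1 / (4 * (p : ℝ))) * (p : ℝ) ^ N * (p : ℝ) ^ N) / 2 := by
    field_simp
    ring
  rw [j8]
  linarith

end Pool.Agent.Helper38.DZR
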