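import Pool.Agent.Helper32.DZ.Props
import Pool.Agent.Helper38.DZR.LiftDens
import Pool.Agent.Helper38.DZR.SieveBox

set_option autoImplicit false

/-!
DZR-08 PropADens. Density with rate of the symmetric matrices of a box which satisfy the local condition `PropA τ ε`.

PROOF (model: `Pool/Agent/Helper32/DZ/AdjDens.lean`). `sieve_box` with `I = UpIdx (m+1)`, `k = 2`, `c = 1/8`,
`P0 = 2 m + 3 + |τ|`, `L q = B q.1.1 q.1.2`, `Ω p = BadP m (ε * τ) p` (`lift_dens`; a prime `p ≥ P0` does not divide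
`ε τ ≠ 0`). The injection `A ↦ (A i j)_(i ≤ j)` from symmetric matrices; `toSym` of the reductions is the reduction of `A`.
If `A` has `PropA τ ε` and `A mod p^2 ∈ BadP` then `p ∣ det A`, `p^2 ∤ det A`, `p ∤ τ`, so `ε τ det A'` is a square modulo
`p`: contradiction. `∏ over UpIdx of B = ∏ i, ∏ j, if i ≤ j then B i j else 1`. `c / 2 = 1/16`.
-/

open Matrix Pool.Agent.Helper32.DZ

namespace Pool.Agent.Helper38.DZR

/-- the upper part of a matrix -/
private def upp {n : ℕ} (A : Matrix (Fin n) (Fin n) ℤ) : UpIdx n → ℤ := fun q => A q.1.1 q.1.2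

private theorem upp_inj {n : ℕ} {A B : Matrix (Fin n) (Fin n) ℤ} (hA : A.IsSymm) (hB : B.IsSymm)
    (h : upp A = upp B) : A = B := by
  ext i j
  rcases le_total i j with hij | hij
  · exact congrFun h ⟨(i, j), hij⟩
  · rw [← hA.apply i j, ← hB.apply i j]
    exact congrFun h ⟨(j, i), hij⟩

private theorem toSym_upp {n : ℕ} {A : Matrix (Fin n) (Fin n) ℤ} (hA : A.IsSymm) (p : ℕ) :
    toSym (fun q => ((upp A q : ℤ) : ZMod p)) = A.map (Int.cast : ℤ → ZMod p) := by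
  ext i j
  change ((A (min i j) (max i j) : ℤ) : ZMod p) = ((A i j : ℤ) : ZMod p)
  rcases le_total i j with hij | hij
  · rw [min_eq_left hij, max_eq_right hij]
  · rw [min_eq_right hij, max_eq_left hij, hA.apply i j]

private theorem det_cast {n : ℕ} (A : Matrix (Fin n) (Fin n) ℤ) (p : ℕ) :
    (A.map (Int.cast : ℤ → ZMod p)).det = ((A.det : ℤ) : ZMod p) := by
  have h := RingHom.map_det (Int.castRingHom (ZMod p)) A
  rw [eq_intCast] at h
  rw [h]
  rfl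

private theorem prod_up {n : ℕ} (B : Fin n → Fin n → ℝ) :
    (∏ i, ∏ j, if i ≤ j then B i j else 1) = ∏ q : UpIdx n, B q.1.1 q.1.2 := by
  rw [← Fintype.prod_prod_type' (fun i j => if i ≤ j then B i j else 1)]
  rw [← Finset.prod_filter (fun q : Fin n × Fin n => q.1 ≤ q.2) (fun q => B q.1 q.2)]
  exact Finset.prod_subtype _ (fun q => by simp) _

theorem propA_dens (m : ℕ) (hm : 1 ≤ m) (τ ε : ℤ) (hτ : τ ≠ 0) (hε : ε = 1 ∨ ε = -1) :
    ∃ K : ℝ, 1 ≤ K ∧ ∀ N : ℝ, 2 ≤ N → ∀ B : Fin (m + 1) → Fin (m + 1) → ℝ, (∀ i j, N ≤ B i j) →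
      (({A : Matrix (Fin (m + 1)) (Fin (m + 1)) ℤ | A ∈ Box B ∧ PropA τ ε A}.ncard : ℕ) : ℝ) ≤
        K * (Real.log N) ^ (-(1 / 16 : ℝ)) * ∏ i, ∏ j, if i ≤ j then B i j else 1 := by
  have hcard : 2 ≤ 2 * Fintype.card (UpIdx (m + 1)) := by
    have h1 : 0 < Fintype.card (UpIdx (m + 1)) := Fintype.card_pos_iff.2 ⟨⟨(0, 0), le_rfl⟩⟩
    omega
  obtain ⟨K, hK1, hK⟩ := sieve_box (UpIdx (m + 1)) 2 hcard (1 / 8) (by norm_num) (by norm_num)
    (2 * m + 3 + τ.natAbs)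
  refine ⟨K, hK1, fun N hN B hB => ?_⟩
  have hndvd : ∀ p : ℕ, p.Prime → 2 * m + 3 + τ.natAbs ≤ p → ¬ (p : ℤ) ∣ ε * τ := by
    intro p hp hP hdvd
    have h1 : (p : ℤ) ∣ τ := by
      rcases hε with h | h
      · rw [h, one_mul] at hdvd
        exact hdvd
      · rw [h, neg_one_mul, dvd_neg] at hdvd
        exact hdvd
    have h2 : p ∣ τ.natAbs := Int.natCast_dvd.1 h1
    have h3 : p ≤ τ.natAbs := Nat.le_of_dvd (Int.natAbs_pos.2 hτ) h2
    omega
  obtain ⟨hfin, hle⟩ := hK N hN (fun q => B q.1.1 q.1.2) (fun q => hB _ _)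
    (fun p => BadP m (ε * τ) p)
    (fun p hp hP => lift_dens m hm p hp (by omega) (by omega) (ε * τ) (hndvd p hp hP))
  have h1 : {A : Matrix (Fin (m + 1)) (Fin (m + 1)) ℤ | A ∈ Box B ∧ PropA τ ε A}.ncard ≤
      {x : UpIdx (m + 1) → ℤ | (∀ i, |(x i : ℝ)| < B i.1.1 i.1.2) ∧
        ∀ p : ℕ, p.Prime → 2 * m + 3 + τ.natAbs ≤ p →
          (fun i => ((x i : ℤ) : ZMod (p ^ 2))) ∉ BadP m (ε * τ) p}.ncard := by
    refine Set.ncard_le_ncard_of_injOn upp ?_ ?_ hfin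
    · rintro A ⟨⟨hsym, hbox⟩, hA⟩
      refine ⟨fun q => hbox _ _, fun p hp hP hmem => ?_⟩
      obtain ⟨hd1, hd2, hns⟩ := hmem
      rw [toSym_upp hsym] at hd1 hd2 hns
      rw [det_cast] at hd1 hd2
      rw [map_intCast, ZMod.intCast_zmod_eq_zero_iff_dvd] at hd1
      rw [Ne, ZMod.intCast_zmod_eq_zero_iff_dvd] at hd2
      have hτp : ¬ (p : ℤ) ∣ τ := fun h => hndvd p hp hP (h.mul_left ε)
      have h3 := hA p hp hd1 (by push_cast at hd2; exact hd2) hτp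
      apply hns
      have h5 : ((A.map (Int.cast : ℤ → ZMod (p ^ 2))).submatrix Fin.succ Fin.succ).det
          = (((A.submatrix Fin.succ Fin.succ).det : ℤ) : ZMod (p ^ 2)) := by
        rw [← det_cast]
        rfl
      rw [h5, map_intCast, ← Int.cast_mul]
      exact h3
    · intro A hA A' hA' h
      exact upp_inj hA.1.1 hA'.1.1 h
  calc (({A : Matrix (Fin (m + 1)) (Fin (m + 1)) ℤ | A ∈ Box B ∧ PropA τ ε A}.ncard : ℕ) : ℝ)
      ≤ _ := Nat.cast_le.2 h1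
    _ ≤ _ := hle
    _ = K * (Real.log N) ^ (-(1 / 16 : ℝ)) * ∏ i, ∏ j, if i ≤ j then B i j else 1 := by
        rw [prod_up]
        have h6 : (-((1 / 8 : ℝ) / 2)) = -(1 / 16 : ℝ) := by norm_num
        rw [h6]
        ring

end Pool.Agent.Helper38.DZR
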