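import Pool.Agent.Helper32.DZ.EvenCount
import Pool.Agent.Helper32.DZ.EvenBound
import Pool.Agent.Helper38.DZR.PropADens

set_option autoImplicit false

open Polynomial Matrix Pool.Agent.Helper32.DZ

namespace Pool.Agent.Helper38.DZR

/-- all `a ∈ F` have the reduced pair `(A a, B a)` in the cell `κ`, with `PropA τ` for all translates -/
def CellP (m : ℕ) (τ : ℤ) (κ : Fin (m + 1) → ℤ) (F : Set (Fin (m + 1 + 1) → ℤ))
    (A B : (Fin (m + 1 + 1) → ℤ) → Matrix (Fin (m + 1)) (Fin (m + 1)) ℤ) : Prop :=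
  Monotone κ ∧ ∀ a ∈ F, PG (A a) (B a) ∧ pen (A a) (B a) = C ((-1) ^ ((m + 1) / 2)) * pol a ∧
    ∀ U ∈ Tr κ, PropA τ ((-1) ^ ((m + 1) / 2 - 1)) (Uᵀ * A a * U) ∧
      ∀ i j, |(((Uᵀ * A a * U) i j : ℤ) : ℝ)| < (2 : ℝ) ^ (κ i + κ j) ∧
        |(((Uᵀ * B a * U) i j : ℤ) : ℝ)| < (2 : ℝ) ^ (κ i + κ j)

private theorem ec_count (m : ℕ) (τ : ℤ) (κ : Fin (m + 1) → ℤ) (F : Set (Fin (m + 1 + 1) → ℤ))
    (hF : F.Finite) (A B : (Fin (m + 1 + 1) → ℤ) → Matrix (Fin (m + 1)) (Fin (m + 1)) ℤ)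
    (h : CellP m τ κ F A B) :
    (F.ncard : ℝ) * (2 : ℝ) ^ (Dk κ) ≤
      (({M : Matrix (Fin (m + 1)) (Fin (m + 1)) ℤ | M ∈ Box (fun i j => (2 : ℝ) ^ (κ i + κ j)) ∧
        PropA τ ((-1) ^ ((m + 1) / 2 - 1)) M}.ncard : ℕ) : ℝ) *
      (((Box fun i j : Fin (m + 1) => (2 : ℝ) ^ (κ i + κ j)).ncard : ℕ) : ℝ) := by
  obtain ⟨hκ, h2⟩ := h
  have hBf : (Box fun i j : Fin (m + 1) => (2 : ℝ) ^ (κ i + κ j)).Finite := (box_card _).1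
  have hSf : {M : Matrix (Fin (m + 1)) (Fin (m + 1)) ℤ |
      M ∈ Box (fun i j => (2 : ℝ) ^ (κ i + κ j)) ∧
        PropA τ ((-1) ^ ((m + 1) / 2 - 1)) M}.Finite := hBf.subset fun M hM => hM.1
  have hC : (C ((-1) ^ ((m + 1) / 2)) : ℤ[X]) ≠ 0 := by
    rw [Ne, C_eq_zero]
    exact pow_ne_zero _ (by norm_num)
  have hpen : ∀ a, ∀ U ∈ Tr κ, pen (Uᵀ * A a * U) (Uᵀ * B a * U) = pen (A a) (B a) := by
    intro a U hU
    rw [pen_conj, ut_det U hU.1, one_pow, C_1, one_mul]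
  have h3 := inj_count F hF κ hκ A B (fun a ha => (h2 a ha).1)
    (fun a ha b hb U hU V hV e1 e2 => by
      have h4 := hpen a U hU
      rw [e1, e2, hpen b V hV, (h2 a ha).2.1, (h2 b hb).2.1] at h4
      exact (pol_inj _ _ (mul_left_cancel₀ hC h4)).symm)
    ({M : Matrix (Fin (m + 1)) (Fin (m + 1)) ℤ |
      M ∈ Box (fun i j => (2 : ℝ) ^ (κ i + κ j)) ∧ PropA τ ((-1) ^ ((m + 1) / 2 - 1)) M} ×ˢ
      (Box fun i j : Fin (m + 1) => (2 : ℝ) ^ (κ i + κ j)))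
    (hSf.prod hBf)
    (fun a ha U hU => by
      have h4 := pg_conj (A a) (B a) U (h2 a ha).1 (Or.inl (ut_det U hU.1))
      have h5 := (h2 a ha).2.2 U hU
      exact ⟨⟨⟨h4.1, fun i j => (h5.2 i j).1⟩, h5.1⟩, ⟨h4.2.1, fun i j => (h5.2 i j).2⟩⟩)
  rw [Set.ncard_prod] at h3
  push_cast at h3
  exact h3

private lemma ec_one_mem {N : ℕ} (κ : Fin N → ℤ) : (1 : Matrix (Fin N) (Fin N) ℤ) ∈ Tr κ := by
  refine ⟨⟨fun i => Matrix.one_apply_eq i, fun i j hij => Matrix.one_apply_ne hij.ne'⟩, ?_⟩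
  intro i j hij
  rw [Matrix.one_apply_ne hij.ne]
  refine ⟨le_refl _, ?_⟩
  rw [Int.cast_zero]
  exact zpow_pos (by norm_num) _

private lemma ec_decay (x l : ℤ) (hl : 0 ≤ l) (h : l ≤ 2 * x) :
    (2 : ℝ) ^ (-x) ≤ (3 / 4 : ℝ) ^ l := by
  obtain ⟨k, rfl⟩ := Int.eq_ofNat_of_zero_le hl
  have h1 : ((2 : ℝ) ^ (-x)) ^ 2 ≤ ((3 / 4 : ℝ) ^ ((k : ℕ) : ℤ)) ^ 2 := by
    calc ((2 : ℝ) ^ (-x)) ^ 2 = (2 : ℝ) ^ (-(2 * x)) := by
          rw [← zpow_natCast, ← _root_.zpow_mul]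
          congr 1
          push_cast
          ring
      _ ≤ (2 : ℝ) ^ (-((k : ℕ) : ℤ)) := zpow_le_zpow_right₀ (by norm_num) (by linarith)
      _ = (1 / 2 : ℝ) ^ k := by
          rw [_root_.zpow_neg, zpow_natCast, one_div, inv_pow]
      _ ≤ (9 / 16 : ℝ) ^ k := pow_le_pow_left₀ (by norm_num) (by norm_num) k
      _ = ((3 / 4 : ℝ) ^ ((k : ℕ) : ℤ)) ^ 2 := by
          rw [zpow_natCast, ← pow_mul, mul_comm k 2, pow_mul]
          norm_num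
  exact (pow_le_pow_iff_left₀ (zpow_pos (by norm_num) _).le (zpow_pos (by norm_num) _).le
    (by norm_num)).1 h1

theorem even_cell_r (m : ℕ) (hm : Odd m) (τ : ℤ) (hτ : τ ≠ 0) : ∃ K : ℝ, 1 ≤ K ∧
    ∀ (κ : Fin (m + 1) → ℤ) (F : Set (Fin (m + 1 + 1) → ℤ)) (_ : F.Finite) (_ : F.Nonempty)
      (A B : (Fin (m + 1 + 1) → ℤ) → Matrix (Fin (m + 1)) (Fin (m + 1)) ℤ),
      CellP m τ κ F A B → 1 ≤ ∑ i, κ i ∧
        (F.ncard : ℝ) ≤ K * ((2 : ℝ) ^ (2 * ∑ i, κ i)) ^ (m + 2) *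
          (3 / 4 : ℝ) ^ (κ (Fin.last m) - κ 0) ∧
        ∀ N : ℝ, 2 ≤ N → N ≤ (2 : ℝ) ^ (2 * κ 0) →
          (F.ncard : ℝ) ≤ K * ((2 : ℝ) ^ (2 * ∑ i, κ i)) ^ (m + 2) *
            (Real.log N) ^ (-(1 / 16 : ℝ)) := by
  have hm1 : 1 ≤ m := hm.pos
  have hε : ((-1 : ℤ) ^ ((m + 1) / 2 - 1) = 1) ∨ ((-1 : ℤ) ^ ((m + 1) / 2 - 1) = -1) :=
    neg_one_pow_eq_or ℤ _
  obtain ⟨K', hK'1, hK'⟩ := propA_dens m hm1 τ _ hτ hε
  have h3 : (1 : ℝ) ≤ 3 ^ ((m + 1) ^ 2) := one_le_pow₀ (by norm_num)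
  refine ⟨((3 : ℝ) ^ ((m + 1) ^ 2)) ^ 2 * K', ?_, ?_⟩
  · exact one_le_mul_of_one_le_of_one_le (one_le_pow₀ h3) hK'1
  intro κ F hF hne A B h
  obtain ⟨a, ha⟩ := hne
  have hκ := h.1
  have hb := ((h.2 a ha).2.2 1 (ec_one_mem κ)).2
  rw [Matrix.transpose_one, Matrix.one_mul, Matrix.mul_one, Matrix.one_mul, Matrix.mul_one] at hb
  have hc := constr_even hm κ hκ (A a) (B a) (h.2 a ha).1 (fun i j => (hb i j).1)
    (fun i j => (hb i j).2)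
  refine ⟨sum_pos hm κ hκ hc, ?_, ?_⟩
  · have hexp := exp_even hm κ hκ hc
    have hx := xk_eq κ
    set σ : ℤ := ∑ i, κ i with hσ
    set Y : ℤ := SLe (fun i j => max (-(κ i + κ j)) 0) with hY
    set l : ℤ := κ (Fin.last m) - κ 0 with hl
    have hl0 : 0 ≤ l := by
      have := hκ (Fin.zero_le (Fin.last m))
      rw [hl]
      linarith
    have hbox : (((Box fun i j : Fin (m + 1) => (2 : ℝ) ^ (κ i + κ j)).ncard : ℕ) : ℝ) ≤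
        (3 : ℝ) ^ ((m + 1) ^ 2) * (2 : ℝ) ^ (Xk κ) := by
      have h1 := box_card_two κ 1 (le_refl _)
      simp only [one_mul, mul_one] at h1
      exact h1
    have hfin : (Box fun i j : Fin (m + 1) => (2 : ℝ) ^ (κ i + κ j)).Finite := (box_card _).1
    have hadj : (({M : Matrix (Fin (m + 1)) (Fin (m + 1)) ℤ |
        M ∈ Box (fun i j => (2 : ℝ) ^ (κ i + κ j)) ∧
          PropA τ ((-1) ^ ((m + 1) / 2 - 1)) M}.ncard : ℕ) : ℝ) ≤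
        (3 : ℝ) ^ ((m + 1) ^ 2) * (2 : ℝ) ^ (Xk κ) := by
      refine le_trans ?_ hbox
      have h1 : {M : Matrix (Fin (m + 1)) (Fin (m + 1)) ℤ |
        M ∈ Box (fun i j => (2 : ℝ) ^ (κ i + κ j)) ∧
          PropA τ ((-1) ^ ((m + 1) / 2 - 1)) M} ⊆ Box (fun i j => (2 : ℝ) ^ (κ i + κ j)) :=
        fun M hM => hM.1
      exact_mod_cast Set.ncard_le_ncard h1 hfin
    have hcount := ec_count m τ κ F hF A B h
    have hD : (0 : ℝ) < (2 : ℝ) ^ (Dk κ) := zpow_pos (by norm_num) _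
    have hprod : (F.ncard : ℝ) * (2 : ℝ) ^ (Dk κ) ≤
        ((3 : ℝ) ^ ((m + 1) ^ 2) * (2 : ℝ) ^ (Xk κ)) *
          ((3 : ℝ) ^ ((m + 1) ^ 2) * (2 : ℝ) ^ (Xk κ)) :=
      hcount.trans (mul_le_mul hadj hbox (Nat.cast_nonneg _) (by positivity))
    have hfin2 : (F.ncard : ℝ) ≤ ((3 : ℝ) ^ ((m + 1) ^ 2)) ^ 2 *
        (2 : ℝ) ^ (2 * Xk κ - Dk κ) := by
      rw [zpow_sub₀ (by norm_num), mul_div_assoc', le_div_iff₀ hD]
      refine hprod.trans (le_of_eq ?_)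
      rw [two_mul, zpow_add₀ (by norm_num)]
      ring
    have hsplit : (2 : ℝ) ^ (2 * Xk κ - Dk κ) =
        ((2 : ℝ) ^ (2 * σ)) ^ (m + 2) * (2 : ℝ) ^ (-(Dk κ - 2 * Y)) := by
      rw [← zpow_natCast ((2 : ℝ) ^ (2 * σ)), ← _root_.zpow_mul, ← zpow_add₀ (by norm_num)]
      congr 1
      rw [hx]
      push_cast
      ring
    refine hfin2.trans ?_
    rw [hsplit]
    have hdec := ec_decay (Dk κ - 2 * Y) l hl0 (by linarith)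
    have hpos : (0 : ℝ) ≤ ((2 : ℝ) ^ (2 * σ)) ^ (m + 2) := by positivity
    calc ((3 : ℝ) ^ ((m + 1) ^ 2)) ^ 2 *
          (((2 : ℝ) ^ (2 * σ)) ^ (m + 2) * (2 : ℝ) ^ (-(Dk κ - 2 * Y)))
        ≤ ((3 : ℝ) ^ ((m + 1) ^ 2)) ^ 2 * (((2 : ℝ) ^ (2 * σ)) ^ (m + 2) * (3 / 4 : ℝ) ^ l) := by
          gcongr
      _ ≤ (((3 : ℝ) ^ ((m + 1) ^ 2)) ^ 2 * (((2 : ℝ) ^ (2 * σ)) ^ (m + 2) * (3 / 4 : ℝ) ^ l)) * K' := by
          exact le_mul_of_one_le_right (by positivity) hK'1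
      _ = _ := by ring
  · intro N hN2 hN
    have h2κ : 0 ≤ 2 * κ 0 := by
      by_contra hneg
      push Not at hneg
      have h1 : (2 : ℝ) ^ (2 * κ 0) < 1 := zpow_lt_one_of_neg₀ (by norm_num) hneg
      linarith
    have hge : ∀ i j, 2 * κ 0 ≤ κ i + κ j := by
      intro i j
      have h1 := hκ (Fin.zero_le i)
      have h2 := hκ (Fin.zero_le j)
      linarith
    have hB : ∀ i j, N ≤ (2 : ℝ) ^ (κ i + κ j) := by
      intro i j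
      exact hN.trans (zpow_le_zpow_right₀ (by norm_num) (hge i j))
    have h1 := hK' N hN2 (fun i j => (2 : ℝ) ^ (κ i + κ j)) hB
    have h2 := prod_two (fun i j => κ i + κ j)
    have h3' := box_card_two κ 1 le_rfl
    have h4 := ec_count m τ κ F hF A B h
    have hX : Xk κ = SLe (fun i j => κ i + κ j) := by
      unfold Xk
      congr 1
      funext i j
      exact max_eq_left (h2κ.trans (hge i j))
    rw [h2] at h1
    rw [hX] at h3'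
    have h3'' : (((Box fun i j : Fin (m + 1) => (2 : ℝ) ^ (κ i + κ j)).ncard : ℕ) : ℝ) ≤
        3 ^ ((m + 1) ^ 2) * (2 : ℝ) ^ (SLe fun i j => κ i + κ j) := by
      simp only [one_mul, mul_one] at h3'
      exact h3'
    have hS := sle_add κ
    have hDk : (1 : ℝ) ≤ (2 : ℝ) ^ (Dk κ) := one_le_zpow₀ (by norm_num) (dk_nonneg κ hκ)
    have hpow : (2 : ℝ) ^ (SLe fun i j => κ i + κ j) * (2 : ℝ) ^ (SLe fun i j => κ i + κ j) =
        ((2 : ℝ) ^ (2 * ∑ i, κ i)) ^ (m + 2) := by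
      rw [hS, ← zpow_add₀ (by norm_num : (2 : ℝ) ≠ 0), ← zpow_natCast, ← _root_.zpow_mul]
      congr 1
      push_cast
      ring
    have hF0 : (0 : ℝ) ≤ (F.ncard : ℝ) := Nat.cast_nonneg _
    have hz : (0 : ℝ) < (2 : ℝ) ^ (SLe fun i j => κ i + κ j) := by positivity
    have hlog : 0 ≤ (Real.log N) ^ (-(1 / 16 : ℝ)) :=
      Real.rpow_nonneg (Real.log_nonneg (by linarith)) _
    calc (F.ncard : ℝ) ≤ (F.ncard : ℝ) * (2 : ℝ) ^ (Dk κ) := le_mul_of_one_le_right hF0 hDk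
      _ ≤ _ := h4
      _ ≤ (K' * (Real.log N) ^ (-(1 / 16 : ℝ)) * (2 : ℝ) ^ (SLe fun i j => κ i + κ j)) *
          (3 ^ ((m + 1) ^ 2) * (2 : ℝ) ^ (SLe fun i j => κ i + κ j)) :=
        mul_le_mul h1 h3'' (Nat.cast_nonneg _) (by positivity)
      _ = (3 ^ ((m + 1) ^ 2) * K') * ((2 : ℝ) ^ (SLe fun i j => κ i + κ j) *
          (2 : ℝ) ^ (SLe fun i j => κ i + κ j)) * (Real.log N) ^ (-(1 / 16 : ℝ)) := by ring
      _ ≤ (((3 : ℝ) ^ ((m + 1) ^ 2)) ^ 2 * K') * ((2 : ℝ) ^ (SLe fun i j => κ i + κ j) *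
          (2 : ℝ) ^ (SLe fun i j => κ i + κ j)) * (Real.log N) ^ (-(1 / 16 : ℝ)) := by
          have h5 : (3 : ℝ) ^ ((m + 1) ^ 2) ≤ ((3 : ℝ) ^ ((m + 1) ^ 2)) ^ 2 :=
            le_self_pow₀ h3 (by norm_num)
          gcongr
      _ = _ := by rw [hpow]

end Pool.Agent.Helper38.DZR
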