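import Pool.Agent.Helper38.DZR.SumCellsB

set_option autoImplicit false

/-!
DZR-17 EvenTotalR. Sum over all cells, even degree (pure analysis).

PROOF. `y κ = (2^(2σ))^(m+2)`, `σ = ∑ κ`, `l = κ last - κ 0 ≥ 0`, `T0 = √(log Y)`. Let `Y ≥ Y0` (for `2 ≤ Y < Y0`: only
`1 ≤ σ`, `2^(2σ) ≤ Y0` occur, the first bound and `sum_cells_b` give a constant, and `(log Y)^(-1/64) ≥ (log Y0)^(-1/64)`).
(1) Cells with `2 κ 0 ≥ T0`: `N = 2^T0 ≥ 2` (real power), `N ≤ 2^(2 κ 0)`, `log N = T0 log 2`. `min (a,b) ≤ √a √b`: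
`c κ ≤ K2 y κ (√(3/4))^l (log N)^(-1/32) ≤ C y κ (√(3/4))^l (log Y)^(-1/64)`. Group by `σ` (`Finset.sum_fiberwise_of_maps_to`,
as in `em_group` in Helper32/DZ/EvenMain.lean), `sum_cells_b` with `β = √(3/4)`, and `∑_σ y ≤ 2 Y^(m+2)` (`geom` of
SumCells.lean with `k = m + 2`): at most `C Y^(m+2) (log Y)^(-1/64)`.
(2) Cells with `2 κ 0 < T0`: `2 σ ≤ 2 (m+1) (κ 0 + l) ≤ (m+1) T0 + 2 (m+1) l`. With `δ = 1/(10 (m+1))`:
`y κ = (2^(2σ))^(m+2-δ) (2^(2σ))^δ ≤ Y^(m+2-δ) 2^(T0/10) (2^(1/5))^l`, and `2^(1/5) * (3/4) ≤ 87/100`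
(`(87/75)^5 ≥ 2`). So `c κ ≤ K2 Y^(m+2-δ) 2^(T0/10) (87/100)^l`. The number of `σ` with `1 ≤ σ`, `2^(2σ) ≤ Y` is at most
`log Y`; `sum_cells_b` with `β = 87/100`: total `≤ C Y^(m+2) Y^(-δ) 2^(T0/10) log Y ≤ C' Y^(m+2) (log Y)^(-1/64)`
(`Y^(-δ) = exp (-δ T0^2)`).
-/

namespace Pool.Agent.Helper38.DZR

private theorem h45_zpow_exp (k : ℤ) : (2 : ℝ) ^ k = Real.exp ((k : ℝ) * Real.log 2) := by
  rw [← Real.rpow_intCast, Real.rpow_def_of_pos (by norm_num)]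
  congr 1
  ring

private theorem h45_group (m : ℕ) (A B Y β : ℝ) (hA : 0 ≤ A) (hB : 0 ≤ B) (hY : 0 ≤ Y)
    (T : Finset (Fin (m + 1) → ℤ)) (c : (Fin (m + 1) → ℤ) → ℝ)
    (hc : ∀ κ ∈ T, c κ ≤ A * ((2 : ℝ) ^ (2 * ∑ i, κ i)) ^ (m + 2) *
      β ^ (κ (Fin.last m) - κ 0))
    (hT : ∀ σ : ℤ, ∑ κ ∈ T with ∑ i, κ i = σ, β ^ (κ (Fin.last m) - κ 0) ≤ B)
    (hs : ∀ κ ∈ T, (2 : ℝ) ^ (2 * ∑ i, κ i) ≤ Y) :
    ∑ κ ∈ T, c κ ≤ A * B * (2 * Y ^ (m + 2)) := by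
  classical
  refine (Finset.sum_le_sum hc).trans ?_
  rw [← Finset.sum_fiberwise_of_maps_to (s := T) (t := T.image fun κ => ∑ i, κ i)
    (g := fun κ => ∑ i, κ i) (fun κ hκ => Finset.mem_image_of_mem _ hκ)]
  have h1 : ∀ σ ∈ T.image (fun κ => ∑ i, κ i),
      (∑ κ ∈ T with ∑ i, κ i = σ, A * ((2 : ℝ) ^ (2 * ∑ i, κ i)) ^ (m + 2) *
        β ^ (κ (Fin.last m) - κ 0)) ≤ (A * B) * ((2 : ℝ) ^ (2 * σ)) ^ (m + 2) := by
    intro σ _
    have h2 : (∑ κ ∈ T with ∑ i, κ i = σ, A * ((2 : ℝ) ^ (2 * ∑ i, κ i)) ^ (m + 2) *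
        β ^ (κ (Fin.last m) - κ 0)) =
        A * ((2 : ℝ) ^ (2 * σ)) ^ (m + 2) *
          ∑ κ ∈ T with ∑ i, κ i = σ, β ^ (κ (Fin.last m) - κ 0) := by
      rw [Finset.mul_sum]
      refine Finset.sum_congr rfl fun κ hκ => ?_
      rw [(Finset.mem_filter.1 hκ).2]
    rw [h2]
    have h3 : 0 ≤ A * ((2 : ℝ) ^ (2 * σ)) ^ (m + 2) := by positivity
    refine (mul_le_mul_of_nonneg_left (hT σ) h3).trans (le_of_eq ?_)
    ring
  refine (Finset.sum_le_sum h1).trans ?_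
  rw [← Finset.mul_sum]
  refine mul_le_mul_of_nonneg_left ?_ (mul_nonneg hA hB)
  refine Pool.Agent.Helper32.DZ.geom (m + 2) (by omega) Y hY _ ?_
  intro σ hσ
  obtain ⟨κ, hκ, rfl⟩ := Finset.mem_image.1 hσ
  exact hs κ hκ

private theorem h45_group2 (m : ℕ) (A B L β : ℝ) (hA : 0 ≤ A) (hB : 0 ≤ B) (hL : 0 ≤ L)
    (T : Finset (Fin (m + 1) → ℤ)) (c : (Fin (m + 1) → ℤ) → ℝ)
    (hc : ∀ κ ∈ T, c κ ≤ A * β ^ (κ (Fin.last m) - κ 0))
    (hT : ∀ σ : ℤ, ∑ κ ∈ T with ∑ i, κ i = σ, β ^ (κ (Fin.last m) - κ 0) ≤ B)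
    (hs : ∀ κ ∈ T, 1 ≤ ∑ i, κ i ∧ ((∑ i, κ i : ℤ) : ℝ) ≤ L) :
    ∑ κ ∈ T, c κ ≤ A * B * L := by
  classical
  refine (Finset.sum_le_sum hc).trans ?_
  rw [← Finset.sum_fiberwise_of_maps_to (s := T) (t := T.image fun κ => ∑ i, κ i)
    (g := fun κ => ∑ i, κ i) (fun κ hκ => Finset.mem_image_of_mem _ hκ)]
  have h1 : ∀ σ ∈ T.image (fun κ => ∑ i, κ i),
      (∑ κ ∈ T with ∑ i, κ i = σ, A * β ^ (κ (Fin.last m) - κ 0)) ≤ A * B := by
    intro σ _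
    rw [← Finset.mul_sum]
    exact mul_le_mul_of_nonneg_left (hT σ) hA
  refine (Finset.sum_le_sum h1).trans ?_
  rw [Finset.sum_const, nsmul_eq_mul, mul_comm]
  refine mul_le_mul_of_nonneg_left ?_ (mul_nonneg hA hB)
  have h2 : (T.image fun κ => ∑ i, κ i) ⊆ Finset.Icc 1 ⌊L⌋ := by
    intro σ hσ
    obtain ⟨κ, hκ, rfl⟩ := Finset.mem_image.1 hσ
    rw [Finset.mem_Icc]
    exact ⟨(hs κ hκ).1, Int.le_floor.2 (hs κ hκ).2⟩
  have h3 := Finset.card_le_card h2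
  rw [Int.card_Icc] at h3
  have h4 : 0 ≤ ⌊L⌋ := Int.floor_nonneg.2 hL
  have h5 : (((T.image fun κ => ∑ i, κ i).card : ℕ) : ℤ) ≤ ⌊L⌋ := by omega
  have h6 : ((((T.image fun κ => ∑ i, κ i).card : ℕ) : ℤ) : ℝ) ≤ ((⌊L⌋ : ℤ) : ℝ) := by
    exact_mod_cast h5
  rw [Int.cast_natCast] at h6
  exact h6.trans (Int.floor_le L)

private theorem h45_log2 : (1 / 2 : ℝ) ≤ Real.log 2 := by
  have := Real.log_two_gt_d9
  linarith

private theorem h45_log2' : Real.log 2 ≤ 1 := by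
  have := Real.log_two_lt_d9
  linarith

/-- the elementary bound -/
private theorem h45_elem (δ a L : ℝ) (hδ : 0 < δ) (hL : 1 ≤ L) :
    Real.exp (-(δ * L) + a * Real.sqrt L) * L ≤
      Real.exp (a ^ 2 / (2 * δ)) * (8 / δ ^ 2) * L ^ (-(1 / 64 : ℝ)) := by
  have hL0 : 0 < L := by linarith
  have hs : Real.sqrt L ^ 2 = L := Real.sq_sqrt hL0.le
  have h1 : -(δ * L) + a * Real.sqrt L ≤ a ^ 2 / (2 * δ) + -(δ / 2 * L) := by
    have h2 : 0 ≤ (δ * Real.sqrt L - a) ^ 2 / (2 * δ) := by positivity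
    have h3 : (δ * Real.sqrt L - a) ^ 2 / (2 * δ) =
        δ / 2 * L - a * Real.sqrt L + a ^ 2 / (2 * δ) := by
      have h4 : (δ * Real.sqrt L - a) ^ 2 =
          δ ^ 2 * Real.sqrt L ^ 2 - 2 * δ * a * Real.sqrt L + a ^ 2 := by ring
      rw [h4, hs]
      field_simp
    rw [h3] at h2
    linarith
  have h2 : Real.exp (-(δ * L) + a * Real.sqrt L) ≤
      Real.exp (a ^ 2 / (2 * δ)) * Real.exp (-(δ / 2 * L)) := by
    rw [← Real.exp_add]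
    exact Real.exp_le_exp.2 h1
  have h3 : (δ / 2 * L) ^ 2 / 2 ≤ Real.exp (δ / 2 * L) := by
    have := Real.quadratic_le_exp_of_nonneg (x := δ / 2 * L) (by positivity)
    have h4 : 0 ≤ δ / 2 * L := by positivity
    linarith
  have h4 : Real.exp (-(δ / 2 * L)) * L ^ 2 ≤ 8 / δ ^ 2 := by
    rw [Real.exp_neg, le_div_iff₀ (by positivity), inv_mul_eq_div, div_mul_eq_mul_div,
      div_le_iff₀ (Real.exp_pos _)]
    have h5 : (δ / 2 * L) ^ 2 / 2 = δ ^ 2 * L ^ 2 / 8 := by ring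
    rw [h5] at h3
    linarith
  have h6 : L ^ (1 / 64 : ℝ) ≤ L := by
    calc L ^ (1 / 64 : ℝ) ≤ L ^ (1 : ℝ) := Real.rpow_le_rpow_of_exponent_le hL (by norm_num)
      _ = L := Real.rpow_one L
  have h7 : L ^ (-(1 / 64 : ℝ)) * L ^ (1 / 64 : ℝ) = 1 := by
    rw [← Real.rpow_add hL0]
    norm_num
  have h8 : 0 < L ^ (-(1 / 64 : ℝ)) := Real.rpow_pos_of_pos hL0 _
  have h9 : 0 < L ^ (1 / 64 : ℝ) := Real.rpow_pos_of_pos hL0 _
  calc Real.exp (-(δ * L) + a * Real.sqrt L) * L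
      ≤ (Real.exp (a ^ 2 / (2 * δ)) * Real.exp (-(δ / 2 * L))) * L :=
        mul_le_mul_of_nonneg_right h2 hL0.le
    _ = (Real.exp (a ^ 2 / (2 * δ)) * Real.exp (-(δ / 2 * L))) * L *
        (L ^ (-(1 / 64 : ℝ)) * L ^ (1 / 64 : ℝ)) := by rw [h7, mul_one]
    _ ≤ (Real.exp (a ^ 2 / (2 * δ)) * Real.exp (-(δ / 2 * L))) * L *
        (L ^ (-(1 / 64 : ℝ)) * L) := by
        refine mul_le_mul_of_nonneg_left ?_ (by positivity)
        exact mul_le_mul_of_nonneg_left h6 h8.le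
    _ = Real.exp (a ^ 2 / (2 * δ)) * (Real.exp (-(δ / 2 * L)) * L ^ 2) *
        L ^ (-(1 / 64 : ℝ)) := by ring
    _ ≤ Real.exp (a ^ 2 / (2 * δ)) * (8 / δ ^ 2) * L ^ (-(1 / 64 : ℝ)) := by
        refine mul_le_mul_of_nonneg_right ?_ h8.le
        exact mul_le_mul_of_nonneg_left h4 (Real.exp_pos _).le

/-- the value `(T log 2)^(-1/32)` -/
private theorem h45_rp (L : ℝ) (hL : 1 ≤ L) :
    (Real.sqrt L * Real.log 2) ^ (-(1 / 32 : ℝ)) ≤ 2 * L ^ (-(1 / 64 : ℝ)) := by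
  have hL0 : 0 < L := by linarith
  have hl2 : 0 < Real.log 2 := Real.log_pos (by norm_num)
  rw [Real.mul_rpow (Real.sqrt_nonneg L) hl2.le]
  have h1 : Real.sqrt L ^ (-(1 / 32 : ℝ)) = L ^ (-(1 / 64 : ℝ)) := by
    rw [Real.sqrt_eq_rpow, ← Real.rpow_mul hL0.le]
    congr 1
    norm_num
  have h2 : Real.log 2 ^ (-(1 / 32 : ℝ)) ≤ 2 := by
    calc Real.log 2 ^ (-(1 / 32 : ℝ)) ≤ (1 / 2 : ℝ) ^ (-(1 / 32 : ℝ)) :=
          Real.antitoneOn_rpow_Ioi_of_exponent_nonpos (by norm_num)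
            (show (1 / 2 : ℝ) ∈ Set.Ioi 0 by simp) hl2 h45_log2
      _ ≤ (1 / 2 : ℝ) ^ (-1 : ℝ) :=
          Real.rpow_le_rpow_of_exponent_ge (by norm_num) (by norm_num) (by norm_num)
      _ = 2 := by
          rw [Real.rpow_neg_one]
          norm_num
  rw [h1, mul_comm]
  exact mul_le_mul_of_nonneg_right h2 (Real.rpow_nonneg hL0.le _)

private theorem h45_min {c P u v : ℝ} (hP : 0 ≤ P) (hu : 0 ≤ u) (hv : 0 ≤ v) (h1 : c ≤ P * (u * u))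
    (h2 : c ≤ P * (v * v)) : c ≤ P * (u * v) := by
  rcases le_total u v with h | h
  · refine h1.trans (mul_le_mul_of_nonneg_left ?_ hP)
    exact mul_le_mul_of_nonneg_left h hu
  · refine h2.trans (mul_le_mul_of_nonneg_left ?_ hP)
    exact mul_le_mul_of_nonneg_right h hv

theorem even_total_r (m : ℕ) (K2 : ℝ) (hK2 : 1 ≤ K2) : ∃ C : ℝ, 1 ≤ C ∧ ∀ Y : ℝ, 2 ≤ Y →
    ∀ (S : Finset (Fin (m + 1) → ℤ)) (c : (Fin (m + 1) → ℤ) → ℝ), (∀ κ ∈ S, 0 ≤ c κ) →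
    (∀ κ ∈ S, Monotone κ ∧ 1 ≤ ∑ i, κ i ∧ (2 : ℝ) ^ (2 * ∑ i, κ i) ≤ Y) →
    (∀ κ ∈ S, c κ ≤ K2 * ((2 : ℝ) ^ (2 * ∑ i, κ i)) ^ (m + 2) *
      (3 / 4 : ℝ) ^ (κ (Fin.last m) - κ 0)) →
    (∀ κ ∈ S, ∀ N : ℝ, 2 ≤ N → N ≤ (2 : ℝ) ^ (2 * κ 0) →
      c κ ≤ K2 * ((2 : ℝ) ^ (2 * ∑ i, κ i)) ^ (m + 2) * (Real.log N) ^ (-(1 / 16 : ℝ))) →
    ∑ κ ∈ S, c κ ≤ C * Y ^ (m + 2) * (Real.log Y) ^ (-(1 / 64 : ℝ)) := by
  classical
  obtain ⟨B0, hB0, hC0⟩ := sum_cells_b m (3 / 4) (by norm_num) (by norm_num)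
  have hβ1 : Real.sqrt (3 / 4) * Real.sqrt (3 / 4) = 3 / 4 := Real.mul_self_sqrt (by norm_num)
  have hβp : 0 < Real.sqrt (3 / 4) := Real.sqrt_pos.2 (by norm_num)
  have hβl : Real.sqrt (3 / 4) < 1 := by
    rw [Real.sqrt_lt' one_pos]
    norm_num
  obtain ⟨B1, hB1, hC1⟩ := sum_cells_b m (Real.sqrt (3 / 4)) hβp hβl
  obtain ⟨B2, hB2, hC2⟩ := sum_cells_b m (87 / 100) (by norm_num) (by norm_num)
  have hm1 : (0 : ℝ) < (m : ℝ) + 1 := by positivity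
  obtain ⟨δ, hδe⟩ : ∃ δ : ℝ, δ = 1 / (10 * ((m : ℝ) + 1)) := ⟨_, rfl⟩
  have hδ : 0 < δ := by rw [hδe]; positivity
  have hδ1 : δ ≤ 1 := by
    rw [hδe, div_le_one (by positivity)]
    have : (0 : ℝ) ≤ (m : ℝ) := Nat.cast_nonneg m
    linarith
  obtain ⟨a, ha⟩ : ∃ a : ℝ, a = Real.log 2 / 10 := ⟨_, rfl⟩
  obtain ⟨C2, hC2e⟩ : ∃ C2 : ℝ, C2 = Real.exp (a ^ 2 / (2 * δ)) * (8 / δ ^ 2) := ⟨_, rfl⟩
  have hC2p : 0 < C2 := by rw [hC2e]; positivity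
  have hK20 : 0 < K2 := by linarith
  refine ⟨1 + 2 * K2 * B0 + 4 * K2 * B1 + K2 * B2 * C2, ?_, ?_⟩
  · have h1 : 0 ≤ 2 * K2 * B0 + 4 * K2 * B1 + K2 * B2 * C2 := by positivity
    linarith
  intro Y hY S c hc0 hS hbd hdens
  have hY0 : 0 < Y := by linarith
  obtain ⟨L, hL⟩ : ∃ L : ℝ, L = Real.log Y := ⟨_, rfl⟩
  have hLpos : 0 < L := by rw [hL]; exact Real.log_pos (by linarith)
  have hYexp : Y = Real.exp L := by rw [hL, Real.exp_log hY0]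
  rw [← hL]
  have hYp : 0 < Y ^ (m + 2) := by positivity
  have hLr : 0 < L ^ (-(1 / 64 : ℝ)) := Real.rpow_pos_of_pos hLpos _
  rcases le_or_gt L 1 with hL1 | hL1
  · -- small `Y`
    have h1 := h45_group m K2 B0 Y (3 / 4) hK20.le hB0.le hY0.le S c hbd
      (fun σ => hC0 _ σ fun κ hκ => ⟨(hS κ (Finset.mem_filter.1 hκ).1).1, (Finset.mem_filter.1 hκ).2⟩)
      (fun κ hκ => (hS κ hκ).2.2)
    have h2 : 1 ≤ L ^ (-(1 / 64 : ℝ)) :=
      Real.one_le_rpow_of_pos_of_le_one_of_nonpos hLpos hL1 (by norm_num)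
    have h3 : 0 ≤ 1 + 4 * K2 * B1 + K2 * B2 * C2 := by positivity
    calc ∑ κ ∈ S, c κ ≤ K2 * B0 * (2 * Y ^ (m + 2)) := h1
      _ = 2 * K2 * B0 * Y ^ (m + 2) * 1 := by ring
      _ ≤ 2 * K2 * B0 * Y ^ (m + 2) * L ^ (-(1 / 64 : ℝ)) :=
          mul_le_mul_of_nonneg_left h2 (by positivity)
      _ ≤ (1 + 2 * K2 * B0 + 4 * K2 * B1 + K2 * B2 * C2) * Y ^ (m + 2) *
          L ^ (-(1 / 64 : ℝ)) := by
          refine mul_le_mul_of_nonneg_right (mul_le_mul_of_nonneg_right ?_ hYp.le) hLr.le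
          linarith
  have hLge : 1 ≤ L := hL1.le
  have hT1 : 1 ≤ Real.sqrt L := by
    rw [Real.one_le_sqrt]
    exact hLge
  have hl2 : 0 < Real.log 2 := Real.log_pos (by norm_num)
  have hsplit := Finset.sum_filter_add_sum_filter_not S
    (fun κ : Fin (m + 1) → ℤ => Real.sqrt L ≤ ((2 * κ 0 : ℤ) : ℝ)) c
  -- (1)
  have e1 : ∑ κ ∈ S.filter (fun κ : Fin (m + 1) → ℤ => Real.sqrt L ≤ ((2 * κ 0 : ℤ) : ℝ)), c κ ≤
      (K2 * (2 * L ^ (-(1 / 64 : ℝ)))) * B1 * (2 * Y ^ (m + 2)) := by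
    refine h45_group m (K2 * (2 * L ^ (-(1 / 64 : ℝ)))) B1 Y (Real.sqrt (3 / 4)) (by positivity)
      hB1.le hY0.le _ c ?_ ?_ ?_
    · intro κ hκ
      obtain ⟨hκS, hκ0⟩ := Finset.mem_filter.1 hκ
      have hN1 : (2 : ℝ) ≤ (2 : ℝ) ^ (Real.sqrt L) := by
        calc (2 : ℝ) = (2 : ℝ) ^ (1 : ℝ) := (Real.rpow_one 2).symm
          _ ≤ (2 : ℝ) ^ (Real.sqrt L) := Real.rpow_le_rpow_of_exponent_le (by norm_num) hT1
      have hN2 : (2 : ℝ) ^ (Real.sqrt L) ≤ (2 : ℝ) ^ (2 * κ 0) := by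
        rw [← Real.rpow_intCast]
        exact Real.rpow_le_rpow_of_exponent_le (by norm_num) hκ0
      have h1 := hdens κ hκS _ hN1 hN2
      rw [Real.log_rpow (by norm_num)] at h1
      have h2 := hbd κ hκS
      have h3 : (3 / 4 : ℝ) ^ (κ (Fin.last m) - κ 0) =
          Real.sqrt (3 / 4) ^ (κ (Fin.last m) - κ 0) *
            Real.sqrt (3 / 4) ^ (κ (Fin.last m) - κ 0) := by
        rw [← mul_zpow, hβ1]
      have hx : 0 < Real.sqrt L * Real.log 2 := by positivity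
      have h4 : (Real.sqrt L * Real.log 2) ^ (-(1 / 16 : ℝ)) =
          (Real.sqrt L * Real.log 2) ^ (-(1 / 32 : ℝ)) *
            (Real.sqrt L * Real.log 2) ^ (-(1 / 32 : ℝ)) := by
        rw [← Real.rpow_add hx]
        congr 1
        norm_num
      rw [h3] at h2
      rw [h4] at h1
      have h5 := h45_min (P := K2 * ((2 : ℝ) ^ (2 * ∑ i, κ i)) ^ (m + 2)) (by positivity)
        (by positivity) (Real.rpow_nonneg hx.le _) h2 h1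
      refine h5.trans ?_
      have h6 := h45_rp L hLge
      have h7 : 0 ≤ K2 * ((2 : ℝ) ^ (2 * ∑ i, κ i)) ^ (m + 2) *
          Real.sqrt (3 / 4) ^ (κ (Fin.last m) - κ 0) := by positivity
      have h8 := mul_le_mul_of_nonneg_left h6 h7
      calc K2 * ((2 : ℝ) ^ (2 * ∑ i, κ i)) ^ (m + 2) *
            (Real.sqrt (3 / 4) ^ (κ (Fin.last m) - κ 0) *
              (Real.sqrt L * Real.log 2) ^ (-(1 / 32 : ℝ)))
          = K2 * ((2 : ℝ) ^ (2 * ∑ i, κ i)) ^ (m + 2) *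
            Real.sqrt (3 / 4) ^ (κ (Fin.last m) - κ 0) *
              (Real.sqrt L * Real.log 2) ^ (-(1 / 32 : ℝ)) := by ring
        _ ≤ K2 * ((2 : ℝ) ^ (2 * ∑ i, κ i)) ^ (m + 2) *
            Real.sqrt (3 / 4) ^ (κ (Fin.last m) - κ 0) * (2 * L ^ (-(1 / 64 : ℝ))) := h8
        _ = K2 * (2 * L ^ (-(1 / 64 : ℝ))) * ((2 : ℝ) ^ (2 * ∑ i, κ i)) ^ (m + 2) *
            Real.sqrt (3 / 4) ^ (κ (Fin.last m) - κ 0) := by ring
    · intro σ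
      refine hC1 _ σ fun κ hκ => ?_
      obtain ⟨h1, h2⟩ := Finset.mem_filter.1 hκ
      exact ⟨(hS κ (Finset.mem_filter.1 h1).1).1, h2⟩
    · intro κ hκ
      exact (hS κ (Finset.mem_filter.1 hκ).1).2.2
  -- (2)
  have e2 : ∑ κ ∈ S.filter (fun κ : Fin (m + 1) → ℤ => ¬ Real.sqrt L ≤ ((2 * κ 0 : ℤ) : ℝ)), c κ ≤
      (K2 * Y ^ (m + 2) * Real.exp (-(δ * L) + a * Real.sqrt L)) * B2 * L := by
    refine h45_group2 m (K2 * Y ^ (m + 2) * Real.exp (-(δ * L) + a * Real.sqrt L)) B2 L (87 / 100)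
      (by positivity) hB2.le hLpos.le _ c ?_ ?_ ?_
    · intro κ hκ
      obtain ⟨hκS, hκ0⟩ := Finset.mem_filter.1 hκ
      obtain ⟨hmono, hσ1, hσY⟩ := hS κ hκS
      have hκ0' : ((2 * κ 0 : ℤ) : ℝ) < Real.sqrt L := not_le.1 hκ0
      obtain ⟨l, hl⟩ : ∃ l : ℕ, κ (Fin.last m) - κ 0 = (l : ℤ) := by
        have := hmono (Fin.zero_le (Fin.last m))
        exact ⟨(κ (Fin.last m) - κ 0).toNat, by omega⟩
      have hσl : ∑ i, κ i ≤ ((m : ℤ) + 1) * (κ 0 + l) := by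
        have h1 : ∀ i ∈ (Finset.univ : Finset (Fin (m + 1))), κ i ≤ κ 0 + l := by
          intro i _
          have := hmono (Fin.le_last i)
          omega
        have h2 := Finset.sum_le_card_nsmul Finset.univ κ _ h1
        rw [Finset.card_univ, Fintype.card_fin, nsmul_eq_mul] at h2
        push_cast at h2
        exact h2
      obtain ⟨s, hs⟩ : ∃ s : ℝ, s = ((2 * ∑ i, κ i : ℤ) : ℝ) * Real.log 2 := ⟨_, rfl⟩
      have hzs : (2 : ℝ) ^ (2 * ∑ i, κ i) = Real.exp s := by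
        rw [h45_zpow_exp, hs]
      have hsL : s ≤ L := by
        rw [hzs, hYexp] at hσY
        exact Real.exp_le_exp.1 hσY
      have hsδ : δ * s ≤ a * Real.sqrt L + (l : ℝ) * (Real.log 2 / 5) := by
        have h1 : ((2 * ∑ i, κ i : ℤ) : ℝ) ≤
            ((m : ℝ) + 1) * (Real.sqrt L + 2 * (l : ℝ)) := by
          have h2 : ((2 * ∑ i, κ i : ℤ) : ℝ) ≤
              ((((m : ℤ) + 1) * (2 * κ 0 + 2 * l) : ℤ) : ℝ) := by
            have h3 : 2 * ∑ i, κ i ≤ ((m : ℤ) + 1) * (2 * κ 0 + 2 * l) := by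
              have h4 : ((m : ℤ) + 1) * (2 * κ 0 + 2 * l) = 2 * (((m : ℤ) + 1) * (κ 0 + l)) := by
                ring
              rw [h4]
              omega
            exact_mod_cast h3
          refine h2.trans ?_
          push_cast
          refine mul_le_mul_of_nonneg_left ?_ hm1.le
          push_cast at hκ0'
          linarith
        have h5 : s ≤ ((m : ℝ) + 1) * (Real.sqrt L + 2 * (l : ℝ)) * Real.log 2 := by
          rw [hs]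
          exact mul_le_mul_of_nonneg_right h1 hl2.le
        have h6 := mul_le_mul_of_nonneg_left h5 hδ.le
        refine h6.trans (le_of_eq ?_)
        rw [hδe, ha]
        field_simp
        ring
      have h34 : (3 / 4 : ℝ) * Real.exp (Real.log 2 / 5) ≤ 87 / 100 := by
        have h1 : Real.exp (Real.log 2 / 5) ≤ 87 / 75 := by
          have h2 : Real.log 2 ≤ Real.log ((87 / 75 : ℝ) ^ 5) :=
            Real.log_le_log (by norm_num) (by norm_num)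
          rw [Real.log_pow] at h2
          push_cast at h2
          calc Real.exp (Real.log 2 / 5) ≤ Real.exp (Real.log (87 / 75)) :=
                Real.exp_le_exp.2 (by linarith)
            _ = 87 / 75 := Real.exp_log (by norm_num)
        linarith
      have hbd' := hbd κ hκS
      rw [hl, zpow_natCast] at hbd'
      rw [hl, zpow_natCast]
      refine hbd'.trans ?_
      have hy : ((2 : ℝ) ^ (2 * ∑ i, κ i)) ^ (m + 2) ≤
          Y ^ (m + 2) * Real.exp (-(δ * L) + a * Real.sqrt L) *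
            Real.exp (Real.log 2 / 5) ^ l := by
        rw [hzs, hYexp, ← Real.exp_nat_mul, ← Real.exp_nat_mul, ← Real.exp_nat_mul,
          ← Real.exp_add, ← Real.exp_add]
        refine Real.exp_le_exp.2 ?_
        push_cast
        have h1 : ((m : ℝ) + 2 - δ) * s ≤ ((m : ℝ) + 2 - δ) * L := by
          refine mul_le_mul_of_nonneg_left hsL ?_
          have : (0 : ℝ) ≤ (m : ℝ) := Nat.cast_nonneg m
          linarith
        linarith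
      have h1 : 0 ≤ (3 / 4 : ℝ) ^ l := by positivity
      calc K2 * ((2 : ℝ) ^ (2 * ∑ i, κ i)) ^ (m + 2) * (3 / 4 : ℝ) ^ l
          ≤ K2 * (Y ^ (m + 2) * Real.exp (-(δ * L) + a * Real.sqrt L) *
            Real.exp (Real.log 2 / 5) ^ l) * (3 / 4 : ℝ) ^ l :=
            mul_le_mul_of_nonneg_right (mul_le_mul_of_nonneg_left hy hK20.le) h1
        _ = K2 * Y ^ (m + 2) * Real.exp (-(δ * L) + a * Real.sqrt L) *
            ((3 / 4 : ℝ) * Real.exp (Real.log 2 / 5)) ^ l := by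
            rw [mul_pow]
            ring
        _ ≤ K2 * Y ^ (m + 2) * Real.exp (-(δ * L) + a * Real.sqrt L) * (87 / 100) ^ l := by
            refine mul_le_mul_of_nonneg_left ?_ (by positivity)
            exact pow_le_pow_left₀ (by positivity) h34 l
    · intro σ
      refine hC2 _ σ fun κ hκ => ?_
      obtain ⟨h1, h2⟩ := Finset.mem_filter.1 hκ
      exact ⟨(hS κ (Finset.mem_filter.1 h1).1).1, h2⟩
    · intro κ hκ
      obtain ⟨hκS, -⟩ := Finset.mem_filter.1 hκ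
      obtain ⟨hmono, hσ1, hσY⟩ := hS κ hκS
      refine ⟨hσ1, ?_⟩
      have h1 : (2 : ℝ) ^ (2 * ∑ i, κ i) =
          Real.exp (((2 * ∑ i, κ i : ℤ) : ℝ) * Real.log 2) := h45_zpow_exp _
      rw [h1, hYexp] at hσY
      have h2 := Real.exp_le_exp.1 hσY
      have h3 : (1 : ℝ) ≤ ((∑ i, κ i : ℤ) : ℝ) := by exact_mod_cast hσ1
      have h4 := h45_log2
      have h5 : ((2 * ∑ i, κ i : ℤ) : ℝ) = 2 * ((∑ i, κ i : ℤ) : ℝ) := by
        rw [Int.cast_mul]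
        norm_num
      rw [h5] at h2
      nlinarith
  have e3 := h45_elem δ a L hδ hLge
  rw [← hC2e] at e3
  have e4 : (K2 * Y ^ (m + 2) * Real.exp (-(δ * L) + a * Real.sqrt L)) * B2 * L ≤
      K2 * B2 * C2 * Y ^ (m + 2) * L ^ (-(1 / 64 : ℝ)) := by
    calc (K2 * Y ^ (m + 2) * Real.exp (-(δ * L) + a * Real.sqrt L)) * B2 * L
        = K2 * B2 * Y ^ (m + 2) * (Real.exp (-(δ * L) + a * Real.sqrt L) * L) := by ring
      _ ≤ K2 * B2 * Y ^ (m + 2) * (C2 * L ^ (-(1 / 64 : ℝ))) :=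
          mul_le_mul_of_nonneg_left e3 (by positivity)
      _ = K2 * B2 * C2 * Y ^ (m + 2) * L ^ (-(1 / 64 : ℝ)) := by ring
  have e5 : (K2 * (2 * L ^ (-(1 / 64 : ℝ)))) * B1 * (2 * Y ^ (m + 2)) =
      4 * K2 * B1 * Y ^ (m + 2) * L ^ (-(1 / 64 : ℝ)) := by ring
  rw [e5] at e1
  have e6 : 0 ≤ (1 + 2 * K2 * B0) * Y ^ (m + 2) * L ^ (-(1 / 64 : ℝ)) := by positivity
  have e7 : (1 + 2 * K2 * B0 + 4 * K2 * B1 + K2 * B2 * C2) * Y ^ (m + 2) *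
      L ^ (-(1 / 64 : ℝ)) = (1 + 2 * K2 * B0) * Y ^ (m + 2) * L ^ (-(1 / 64 : ℝ)) +
      4 * K2 * B1 * Y ^ (m + 2) * L ^ (-(1 / 64 : ℝ)) +
      K2 * B2 * C2 * Y ^ (m + 2) * L ^ (-(1 / 64 : ℝ)) := by ring
  rw [e7]
  linarith

end Pool.Agent.Helper38.DZR
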