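import Pool.Agent.Helper32.DZ.CellEvenS
import Pool.Agent.Helper38.DZR.EvenCellR
import Pool.Agent.Helper38.DZR.EvenTotalR

set_option autoImplicit false

/-!
DZR-18 EvenMainR. Even degree `m + 2`... size `n = m + 1`, degree `m + 1` with `m` odd: the number of `f` with `HasE τ`, rate.

PROOF. As `even_main` in Helper32/DZ/EvenMain.lean: `F = {a | |a_i| ≤ H, Good a, HasE τ a}` finite; `cell_even_s` (constant `K1`)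
and `choose` give `A a`, `B a`, `κ a`; `c κ0 = #{a ∈ F | κ a = κ0}`, `CellP m τ κ0 _ A B`; `even_cell_r` (constant `K2`) and
`even_total_r` with `Y = K1 H ≥ 2`: `#F ≤ C (K1 H)^(m+2) (log (K1 H))^(-1/64) ≤ C' H^(m+2) (log H)^(-1/64)`
(`log (K1 H) ≥ log H > 0`).
-/

open Polynomial Matrix Pool.Agent.Helper32.DZ

namespace Pool.Agent.Helper38.DZR

theorem even_main_r (m : ℕ) (hm : Odd m) (τ : ℤ) (hτ : τ ≠ 0) : ∃ C : ℝ, 1 ≤ C ∧ ∀ H : ℕ, 2 ≤ H →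
    {a : Fin (m + 1 + 1) → ℤ | (∀ i, |a i| ≤ (H : ℤ)) ∧ Good a ∧ HasE τ a}.Finite ∧
    (({a : Fin (m + 1 + 1) → ℤ | (∀ i, |a i| ≤ (H : ℤ)) ∧ Good a ∧ HasE τ a}.ncard : ℕ) : ℝ) ≤
      C * (H : ℝ) ^ (m + 2) * (Real.log H) ^ (-(1 / 64 : ℝ)) := by
  classical
  obtain ⟨K1, hK1, hcell⟩ := cell_even_s m hm τ
  obtain ⟨K2, hK2, hbd⟩ := even_cell_r m hm τ hτ
  obtain ⟨C3, hC3, htot⟩ := even_total_r m K2 hK2
  have hK1p : 0 < K1 := by linarith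
  refine ⟨C3 * K1 ^ (m + 2), ?_, fun H hH => ?_⟩
  · have h1 : (1 : ℝ) ≤ K1 ^ (m + 2) := one_le_pow₀ hK1
    nlinarith
  have hH1 : 1 ≤ H := by omega
  have hH2 : (2 : ℝ) ≤ (H : ℝ) := by exact_mod_cast hH
  have hfin : {a : Fin (m + 1 + 1) → ℤ | (∀ i, |a i| ≤ (H : ℤ)) ∧ Good a ∧ HasE τ a}.Finite := by
    refine (Set.finite_Icc (fun _ : Fin (m + 1 + 1) => -(H : ℤ)) (fun _ => (H : ℤ))).subset ?_
    rintro a ⟨ha, -, -⟩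
    exact ⟨fun i => (abs_le.1 (ha i)).1, fun i => (abs_le.1 (ha i)).2⟩
  refine ⟨hfin, ?_⟩
  obtain ⟨Fs, hFs⟩ : ∃ Fs : Finset (Fin (m + 1 + 1) → ℤ), Fs = hfin.toFinset := ⟨_, rfl⟩
  have hmem : ∀ a, a ∈ Fs ↔ ((∀ i, |a i| ≤ (H : ℤ)) ∧ Good a ∧ HasE τ a) := by
    intro a
    rw [hFs, Set.Finite.mem_toFinset]
    exact Iff.rfl
  have hncard : {a : Fin (m + 1 + 1) → ℤ | (∀ i, |a i| ≤ (H : ℤ)) ∧ Good a ∧ HasE τ a}.ncard =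
      Fs.card := by
    rw [hFs, Set.ncard_eq_toFinset_card _ hfin]
  have hch : ∀ a : Fin (m + 1 + 1) → ℤ, ∃ (A B : Matrix (Fin (m + 1)) (Fin (m + 1)) ℤ)
      (κ : Fin (m + 1) → ℤ), a ∈ Fs → PG A B ∧ pen A B = C ((-1) ^ ((m + 1) / 2)) * pol a ∧
      Monotone κ ∧ (2 : ℝ) ^ (2 * ∑ i, κ i) ≤ K1 * H ∧
      ∀ U ∈ Tr κ, PropA τ ((-1) ^ ((m + 1) / 2 - 1)) (Uᵀ * A * U) ∧
        ∀ i j, |(((Uᵀ * A * U) i j : ℤ) : ℝ)| < (2 : ℝ) ^ (κ i + κ j) ∧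
          |(((Uᵀ * B * U) i j : ℤ) : ℝ)| < (2 : ℝ) ^ (κ i + κ j) := by
    intro a
    by_cases ha : a ∈ Fs
    · obtain ⟨h1, h2, h3⟩ := (hmem a).1 ha
      obtain ⟨A, B, κ, h⟩ := hcell H hH1 a h1 h2 h3
      exact ⟨A, B, κ, fun _ => h⟩
    · exact ⟨0, 0, 0, fun h => absurd h ha⟩
  choose A B κ hAB using hch
  obtain ⟨c, hc⟩ : ∃ c : (Fin (m + 1) → ℤ) → ℝ,
      c = fun κ0 => ((Fs.filter fun a => κ a = κ0).card : ℝ) := ⟨_, rfl⟩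
  have hcell2 : ∀ κ0 ∈ Fs.image κ, CellP m τ κ0 (↑(Fs.filter fun a => κ a = κ0)) A B ∧
      (2 : ℝ) ^ (2 * ∑ i, κ0 i) ≤ K1 * H ∧ (Fs.filter fun a => κ a = κ0).Nonempty := by
    intro κ0 hκ0
    obtain ⟨a0, ha0, rfl⟩ := Finset.mem_image.1 hκ0
    obtain ⟨-, -, g4, g5, -⟩ := hAB a0 ha0
    refine ⟨⟨g4, ?_⟩, g5, ⟨a0, Finset.mem_filter.2 ⟨ha0, rfl⟩⟩⟩
    intro a ha
    rw [Finset.mem_coe, Finset.mem_filter] at ha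
    obtain ⟨f1, f2, -, -, f6⟩ := hAB a ha.1
    refine ⟨f1, f2, ?_⟩
    rw [ha.2] at f6
    exact f6
  have hsum : (Fs.card : ℝ) = ∑ κ0 ∈ Fs.image κ, c κ0 := by
    rw [Finset.card_eq_sum_card_image κ Fs, hc]
    push_cast
    rfl
  have hcd : ∀ κ0 ∈ Fs.image κ, 1 ≤ ∑ i, κ0 i ∧
      c κ0 ≤ K2 * ((2 : ℝ) ^ (2 * ∑ i, κ0 i)) ^ (m + 2) *
        (3 / 4 : ℝ) ^ (κ0 (Fin.last m) - κ0 0) ∧
      ∀ N : ℝ, 2 ≤ N → N ≤ (2 : ℝ) ^ (2 * κ0 0) →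
        c κ0 ≤ K2 * ((2 : ℝ) ^ (2 * ∑ i, κ0 i)) ^ (m + 2) * (Real.log N) ^ (-(1 / 16 : ℝ)) := by
    intro κ0 h0
    obtain ⟨g1, g2, g3⟩ := hcell2 κ0 h0
    have h := hbd κ0 _ (Finset.finite_toSet _) (Finset.coe_nonempty.2 g3) A B g1
    rw [Set.ncard_coe_finset] at h
    rw [hc]
    exact h
  have hKH : 2 ≤ K1 * H := by nlinarith
  have hmain := htot (K1 * H) hKH (Fs.image κ) c
    (fun κ0 _ => by
      rw [hc]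
      exact Nat.cast_nonneg _)
    (fun κ0 h0 => ⟨(hcell2 κ0 h0).1.1, (hcd κ0 h0).1, (hcell2 κ0 h0).2.1⟩)
    (fun κ0 h0 => (hcd κ0 h0).2.1) (fun κ0 h0 => (hcd κ0 h0).2.2)
  rw [hncard, hsum]
  refine hmain.trans ?_
  have hlog : (Real.log (K1 * H)) ^ (-(1 / 64 : ℝ)) ≤ (Real.log H) ^ (-(1 / 64 : ℝ)) := by
    refine Real.antitoneOn_rpow_Ioi_of_exponent_nonpos (by norm_num)
      (Real.log_pos (by linarith)) (Real.log_pos (by linarith)) ?_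
    exact Real.log_le_log (by linarith) (by nlinarith)
  have h1 : C3 * (K1 * (H : ℝ)) ^ (m + 2) = C3 * K1 ^ (m + 2) * (H : ℝ) ^ (m + 2) := by
    rw [mul_pow]
    ring
  rw [h1]
  exact mul_le_mul_of_nonneg_left hlog (by positivity)

end Pool.Agent.Helper38.DZR
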