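import Pool.Agent.Helper38.DZR.OddFixR
import Pool.Agent.Helper38.DZR.SqfPartR

set_option autoImplicit false

/-!
DZR-21 OddMainR. Odd degree `d = m + 1`, `m ≥ 2` even: rate.

PROOF. `K1` from `odd_fix_r` (WLOG `K1 ≥ 1`). Let `u = ⌊log log H / (64 K1 log 2)⌋₊` (`0` if `log log H < 0`), `t = 4 u`:
`2^(K1 (t+1)) ≤ 2^K1 (2^u)^(4 K1) ≤ 2^K1 max 1 ((log H)^(1/16))`. The set is the union of the set of `odd_fix_r` and of the `a` whose
last coefficient `α ≠ 0` has no such divisor: at most `8 H / 2^u * (2H+1)^(m+1) ≤ C H^(m+2) / 2^u` (`sqf_part_r`; the other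
`m + 1` coefficients are free: `Fin.snoc` / injection into a product), and `2^(-u) ≤ 2 (log H)^(-1/(64 K1))` if `log H ≥ 1`.
`c = min (1/16) (1/(64 K1))`. For `H = 2` (`log H < 1`) every bound is a constant.
-/

open Polynomial Matrix Pool.Agent.Helper32.DZ

namespace Pool.Agent.Helper38.DZR

private lemma box_finite (n H : ℕ) : {a : Fin n → ℤ | ∀ i, |a i| ≤ (H : ℤ)}.Finite := by
  refine (Finset.finite_toSet (Fintype.piFinset fun _ : Fin n =>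
    Finset.Icc (-(H : ℤ)) (H : ℤ))).subset ?_
  intro a ha
  rw [Finset.mem_coe, Fintype.mem_piFinset]
  intro i
  rw [Finset.mem_Icc]
  exact abs_le.1 (ha i)

private lemma box_card (n H : ℕ) :
    {a : Fin n → ℤ | ∀ i, |a i| ≤ (H : ℤ)}.ncard ≤ (2 * H + 1) ^ n := by
  have h1 : {a : Fin n → ℤ | ∀ i, |a i| ≤ (H : ℤ)} ⊆ ((Fintype.piFinset fun _ : Fin n =>
    Finset.Icc (-(H : ℤ)) (H : ℤ) : Finset (Fin n → ℤ)) : Set (Fin n → ℤ)) := by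
    intro a ha
    rw [Finset.mem_coe, Fintype.mem_piFinset]
    intro i
    rw [Finset.mem_Icc]
    exact abs_le.1 (ha i)
  refine (Set.ncard_le_ncard h1 (Finset.finite_toSet _)).trans ?_
  rw [Set.ncard_coe_finset, Fintype.card_piFinset, Finset.prod_const, Finset.card_univ,
    Fintype.card_fin, Int.card_Icc]
  apply Nat.pow_le_pow_left
  omega

/-- the coefficient vectors whose last coefficient is in a given finite set -/
private lemma last_card (n H : ℕ) (B : Set ℤ) (hB : B.Finite) :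
    ({a : Fin (n + 1) → ℤ | (∀ i, |a i| ≤ (H : ℤ)) ∧ a (Fin.last n) ∈ B}.ncard : ℝ) ≤
      (B.ncard : ℝ) * (2 * (H : ℝ) + 1) ^ n := by
  have h2 : {a : Fin (n + 1) → ℤ | (∀ i, |a i| ≤ (H : ℤ)) ∧ a (Fin.last n) ∈ B}.ncard ≤
      (B ×ˢ {b : Fin n → ℤ | ∀ i, |b i| ≤ (H : ℤ)}).ncard := by
    refine Set.ncard_le_ncard_of_injOn (fun a => (a (Fin.last n), fun i : Fin n => a i.castSucc))
      ?_ ?_ (hB.prod (box_finite n H))
    · intro a ha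
      exact ⟨ha.2, fun i => ha.1 _⟩
    · intro a _ b _ hab
      have h3 : a (Fin.last n) = b (Fin.last n) := congrArg Prod.fst hab
      have h4 : (fun i : Fin n => a i.castSucc) = fun i : Fin n => b i.castSucc :=
        congrArg Prod.snd hab
      funext i
      refine Fin.lastCases h3 (fun j => congrFun h4 j) i
  rw [Set.ncard_prod] at h2
  have h5 := h2.trans (Nat.mul_le_mul_left B.ncard (box_card n H))
  exact_mod_cast h5

theorem odd_main_r (m : ℕ) (hm : Even m) (h2 : 2 ≤ m) : ∃ C c : ℝ, 1 ≤ C ∧ 0 < c ∧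
    ∀ H : ℕ, 2 ≤ H →
    {a : Fin (m + 1 + 1) → ℤ | (∀ i, |a i| ≤ (H : ℤ)) ∧ Good a ∧ HasO a}.Finite ∧
    (({a : Fin (m + 1 + 1) → ℤ | (∀ i, |a i| ≤ (H : ℤ)) ∧ Good a ∧ HasO a}.ncard : ℕ) : ℝ) ≤
      C * (H : ℝ) ^ (m + 2) * (Real.log H) ^ (-c) := by
  obtain ⟨K0, hK0⟩ := odd_fix_r m hm h2
  obtain ⟨K, hK⟩ : ∃ K : ℕ, K = K0 + 1 := ⟨_, rfl⟩
  have hK1 : (1 : ℝ) ≤ K := by
    rw [hK]
    push_cast
    have : (0 : ℝ) ≤ K0 := Nat.cast_nonneg _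
    linarith
  obtain ⟨c, hc⟩ : ∃ c : ℝ, c = 1 / (64 * K) := ⟨_, rfl⟩
  have hc0 : 0 < c := by rw [hc]; positivity
  have hc1 : c ≤ 1 / 16 := by
    rw [hc]
    apply one_div_le_one_div_of_le (by norm_num)
    linarith
  refine ⟨2 ^ K + 16 * 3 ^ (m + 1) + 3 ^ (m + 2), c, ?_, hc0, fun H hH => ?_⟩
  · have h3 : (1 : ℝ) ≤ 2 ^ K := one_le_pow₀ (by norm_num)
    have h4 : (0 : ℝ) ≤ 16 * 3 ^ (m + 1) + 3 ^ (m + 2) := by positivity
    linarith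
  have hfin : {a : Fin (m + 1 + 1) → ℤ | (∀ i, |a i| ≤ (H : ℤ)) ∧ Good a ∧ HasO a}.Finite :=
    (box_finite (m + 1 + 1) H).subset fun a ha => ha.1
  refine ⟨hfin, ?_⟩
  have hH0 : (0 : ℝ) < H := by
    have : 0 < H := by omega
    exact_mod_cast this
  have hH1 : (1 : ℝ) ≤ H := by
    have : 1 ≤ H := by omega
    exact_mod_cast this
  have h2H : 2 * (H : ℝ) + 1 ≤ 3 * H := by linarith
  have hlog0 : 0 < Real.log H := Real.log_pos (by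
    have : (2 : ℝ) ≤ H := by exact_mod_cast hH
    linarith)
  obtain ⟨x, hx⟩ : ∃ x : ℝ, x = Real.log H := ⟨_, rfl⟩
  rw [← hx]
  rw [← hx] at hlog0
  have hHp : (0 : ℝ) ≤ (H : ℝ) ^ (m + 2) := by positivity
  have hxc : 0 < x ^ (-c) := Real.rpow_pos_of_pos hlog0 _
  rcases le_or_gt 1 x with hx1 | hx1
  · -- the main case
    obtain ⟨u, hu⟩ : ∃ u : ℕ, u = ⌊Real.log x / (64 * K * Real.log 2)⌋₊ := ⟨_, rfl⟩
    have hl2 : 0 < Real.log 2 := Real.log_pos (by norm_num)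
    have hlx : 0 ≤ Real.log x := Real.log_nonneg hx1
    have hden : 0 < 64 * (K : ℝ) * Real.log 2 := by positivity
    have hu1 : (u : ℝ) * (64 * K * Real.log 2) ≤ Real.log x := by
      rw [← le_div_iff₀ hden, hu]
      exact Nat.floor_le (by positivity)
    have hu2 : Real.log x ≤ ((u : ℝ) + 1) * (64 * K * Real.log 2) := by
      rw [← div_le_iff₀ hden, hu]
      exact (Nat.lt_floor_add_one _).le
    -- first bound
    have hp1 : (2 : ℝ) ^ (K0 * (4 * u + 1)) ≤ 2 ^ K * x ^ (1 / 16 : ℝ) := by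
      have e1 : (2 : ℝ) ^ (K0 * (4 * u + 1)) ≤ 2 ^ (K * (4 * u + 1)) := by
        apply pow_le_pow_right₀ (by norm_num)
        apply Nat.mul_le_mul_right
        omega
      have e2 : (2 : ℝ) ^ (K * (4 * u + 1)) = 2 ^ K * 2 ^ (4 * K * u) := by
        rw [← pow_add]
        congr 1
        ring
      have e3 : (2 : ℝ) ^ (4 * K * u) ≤ x ^ (1 / 16 : ℝ) := by
        rw [← Real.log_le_log_iff (by positivity) (Real.rpow_pos_of_pos hlog0 _), Real.log_pow,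
          Real.log_rpow hlog0]
        push_cast
        linarith
      rw [e2] at e1
      exact e1.trans (mul_le_mul_of_nonneg_left e3 (by positivity))
    have hp2 : (1 : ℝ) / 2 ^ u ≤ 2 * x ^ (-c) := by
      have e1 : x ^ c ≤ 2 ^ (u + 1) := by
        rw [← Real.log_le_log_iff (Real.rpow_pos_of_pos hlog0 _) (by positivity), Real.log_pow,
          Real.log_rpow hlog0, hc]
        push_cast
        rw [div_mul_eq_mul_div, one_mul, div_le_iff₀ (by positivity)]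
        linarith
      rw [Real.rpow_neg hlog0.le, ← div_eq_mul_inv, div_le_div_iff₀ (by positivity)
        (Real.rpow_pos_of_pos hlog0 _), one_mul]
      rw [pow_succ] at e1
      linarith
    have hsub : {a : Fin (m + 1 + 1) → ℤ | (∀ i, |a i| ≤ (H : ℤ)) ∧ Good a ∧ HasO a} ⊆
        {a : Fin (m + 1 + 1) → ℤ | (∀ i, |a i| ≤ (H : ℤ)) ∧ Good a ∧ HasO a ∧
          ∃ q : ℕ, Squarefree q ∧ (q : ℤ) ∣ a (Fin.last (m + 1)) ∧ (H : ℝ) ≤ 2 ^ (4 * u) * q} ∪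
        {a : Fin (m + 1 + 1) → ℤ | (∀ i, |a i| ≤ (H : ℤ)) ∧ a (Fin.last (m + 1)) ∈
          {α : ℤ | α ≠ 0 ∧ |α| ≤ (H : ℤ) ∧
            ¬ ∃ q : ℕ, Squarefree q ∧ (q : ℤ) ∣ α ∧ (H : ℝ) ≤ 2 ^ (4 * u) * q}} := by
      intro a ha
      by_cases h : ∃ q : ℕ, Squarefree q ∧ (q : ℤ) ∣ a (Fin.last (m + 1)) ∧
        (H : ℝ) ≤ 2 ^ (4 * u) * q
      · exact Or.inl ⟨ha.1, ha.2.1, ha.2.2, h⟩
      · exact Or.inr ⟨ha.1, ha.2.1.1, ha.1 _, h⟩
    have hBfin : {α : ℤ | α ≠ 0 ∧ |α| ≤ (H : ℤ) ∧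
            ¬ ∃ q : ℕ, Squarefree q ∧ (q : ℤ) ∣ α ∧ (H : ℝ) ≤ 2 ^ (4 * u) * q}.Finite := by
      refine (Set.finite_Icc (-(H : ℤ)) (H : ℤ)).subset ?_
      intro α hα
      exact abs_le.1 hα.2.1
    have hS1 := hK0 (4 * u) H hH
    have hS2 := last_card (m + 1) H _ hBfin
    have hB := sqf_part_r u H (by omega)
    have hcard : (({a : Fin (m + 1 + 1) → ℤ | (∀ i, |a i| ≤ (H : ℤ)) ∧ Good a ∧
        HasO a}.ncard : ℕ) : ℝ) ≤
        (({a : Fin (m + 1 + 1) → ℤ | (∀ i, |a i| ≤ (H : ℤ)) ∧ Good a ∧ HasO a ∧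
          ∃ q : ℕ, Squarefree q ∧ (q : ℤ) ∣ a (Fin.last (m + 1)) ∧
            (H : ℝ) ≤ 2 ^ (4 * u) * q}.ncard : ℕ) : ℝ) +
        (({a : Fin (m + 1 + 1) → ℤ | (∀ i, |a i| ≤ (H : ℤ)) ∧ a (Fin.last (m + 1)) ∈
          {α : ℤ | α ≠ 0 ∧ |α| ≤ (H : ℤ) ∧
            ¬ ∃ q : ℕ, Squarefree q ∧ (q : ℤ) ∣ α ∧
              (H : ℝ) ≤ 2 ^ (4 * u) * q}}.ncard : ℕ) : ℝ) := by
      have e1 := (Set.ncard_le_ncard hsub (Set.Finite.union
        ((box_finite (m + 1 + 1) H).subset fun a ha => ha.1)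
        ((box_finite (m + 1 + 1) H).subset fun a ha => ha.1))).trans (Set.ncard_union_le _ _)
      exact_mod_cast e1
    rw [← hx] at hS1
    have hb1 : (2 : ℝ) ^ (K0 * (4 * u + 1)) * (H : ℝ) ^ (m + 2) * x ^ (-(1 / 8 : ℝ)) ≤
        2 ^ K * (H : ℝ) ^ (m + 2) * x ^ (-c) := by
      have e1 : x ^ (1 / 16 : ℝ) * x ^ (-(1 / 8 : ℝ)) ≤ x ^ (-c) := by
        rw [← Real.rpow_add hlog0]
        apply Real.rpow_le_rpow_of_exponent_le hx1
        linarith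
      have e2 : 0 ≤ x ^ (-(1 / 8 : ℝ)) := Real.rpow_nonneg hlog0.le _
      calc (2 : ℝ) ^ (K0 * (4 * u + 1)) * (H : ℝ) ^ (m + 2) * x ^ (-(1 / 8 : ℝ))
          ≤ (2 ^ K * x ^ (1 / 16 : ℝ)) * (H : ℝ) ^ (m + 2) * x ^ (-(1 / 8 : ℝ)) :=
            mul_le_mul_of_nonneg_right (mul_le_mul_of_nonneg_right hp1 hHp) e2
        _ = 2 ^ K * (H : ℝ) ^ (m + 2) * (x ^ (1 / 16 : ℝ) * x ^ (-(1 / 8 : ℝ))) := by ring
        _ ≤ 2 ^ K * (H : ℝ) ^ (m + 2) * x ^ (-c) :=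
            mul_le_mul_of_nonneg_left e1 (by positivity)
    have hb2 : (8 * (H : ℝ) / 2 ^ u) * (2 * (H : ℝ) + 1) ^ (m + 1) ≤
        16 * 3 ^ (m + 1) * (H : ℝ) ^ (m + 2) * x ^ (-c) := by
      have e1 : (2 * (H : ℝ) + 1) ^ (m + 1) ≤ (3 * H) ^ (m + 1) :=
        pow_le_pow_left₀ (by positivity) h2H _
      have e2 : 8 * (H : ℝ) / 2 ^ u ≤ 8 * H * (2 * x ^ (-c)) := by
        rw [div_eq_mul_one_div]
        exact mul_le_mul_of_nonneg_left hp2 (by positivity)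
      calc (8 * (H : ℝ) / 2 ^ u) * (2 * (H : ℝ) + 1) ^ (m + 1)
          ≤ (8 * H * (2 * x ^ (-c))) * (3 * H) ^ (m + 1) :=
            mul_le_mul e2 e1 (by positivity) (by positivity)
        _ = 16 * 3 ^ (m + 1) * (H : ℝ) ^ (m + 2) * x ^ (-c) := by
            rw [mul_pow]
            ring
    have hb3 : ({α : ℤ | α ≠ 0 ∧ |α| ≤ (H : ℤ) ∧
            ¬ ∃ q : ℕ, Squarefree q ∧ (q : ℤ) ∣ α ∧ (H : ℝ) ≤ 2 ^ (4 * u) * q}.ncard : ℝ) *
        (2 * (H : ℝ) + 1) ^ (m + 1) ≤ (8 * (H : ℝ) / 2 ^ u) * (2 * (H : ℝ) + 1) ^ (m + 1) :=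
      mul_le_mul_of_nonneg_right hB (by positivity)
    have hb4 : 0 ≤ 3 ^ (m + 2) * (H : ℝ) ^ (m + 2) * x ^ (-c) := by positivity
    calc (({a : Fin (m + 1 + 1) → ℤ | (∀ i, |a i| ≤ (H : ℤ)) ∧ Good a ∧
        HasO a}.ncard : ℕ) : ℝ) ≤ _ := hcard
      _ ≤ 2 ^ K * (H : ℝ) ^ (m + 2) * x ^ (-c) +
          16 * 3 ^ (m + 1) * (H : ℝ) ^ (m + 2) * x ^ (-c) :=
          add_le_add (hS1.trans hb1) (hS2.trans (hb3.trans hb2))
      _ ≤ (2 ^ K + 16 * 3 ^ (m + 1) + 3 ^ (m + 2)) * (H : ℝ) ^ (m + 2) * x ^ (-c) := by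
          linarith
  · -- `log H < 1`
    have hxc1 : 1 ≤ x ^ (-c) := by
      apply Real.one_le_rpow_of_pos_of_le_one_of_nonpos hlog0 hx1.le
      linarith
    have e1 : (({a : Fin (m + 1 + 1) → ℤ | (∀ i, |a i| ≤ (H : ℤ)) ∧ Good a ∧
        HasO a}.ncard : ℕ) : ℝ) ≤ (2 * (H : ℝ) + 1) ^ (m + 1 + 1) := by
      have e2 := (Set.ncard_le_ncard (fun a ha => ha.1 :
        {a : Fin (m + 1 + 1) → ℤ | (∀ i, |a i| ≤ (H : ℤ)) ∧ Good a ∧ HasO a} ⊆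
          {a : Fin (m + 1 + 1) → ℤ | ∀ i, |a i| ≤ (H : ℤ)}) (box_finite _ H)).trans
        (box_card (m + 1 + 1) H)
      exact_mod_cast e2
    have e3 : (2 * (H : ℝ) + 1) ^ (m + 1 + 1) ≤ (3 * H) ^ (m + 1 + 1) :=
      pow_le_pow_left₀ (by positivity) h2H _
    have e4 : (3 * (H : ℝ)) ^ (m + 1 + 1) = 3 ^ (m + 2) * (H : ℝ) ^ (m + 2) := mul_pow _ _ _
    have e5 : 3 ^ (m + 2) * (H : ℝ) ^ (m + 2) ≤
        (2 ^ K + 16 * 3 ^ (m + 1) + 3 ^ (m + 2)) * (H : ℝ) ^ (m + 2) :=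
      mul_le_mul_of_nonneg_right (by
        have : (0 : ℝ) ≤ 2 ^ K + 16 * 3 ^ (m + 1) := by positivity
        linarith) hHp
    have e6 : (2 ^ K + 16 * 3 ^ (m + 1) + 3 ^ (m + 2)) * (H : ℝ) ^ (m + 2) ≤
        (2 ^ K + 16 * 3 ^ (m + 1) + 3 ^ (m + 2)) * (H : ℝ) ^ (m + 2) * x ^ (-c) :=
      le_mul_of_one_le_right (by positivity) hxc1
    linarith

end Pool.Agent.Helper38.DZR
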