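import Mathlib

set_option autoImplicit false

/-!
DZR-02 ClassCount. Integral points of a box in given residue classes modulo `M`: main term and error.

PROOF. Let `k = card I`, `C = 4^k`. For one class `r : I → ZMod M` the number of `x` is `∏_i n_i`, `n_i` = number of integers
`z` with `|z| < L i`, `z = r_i` modulo `M`; with `ℓ_i = 2 L i / M ≥ 2`: `|n_i - ℓ_i| ≤ 1` (`z = a + M t`, `t` in an open
interval of length `ℓ_i`: the number of integers in an open interval of length `ℓ` lies between `ℓ - 1` and `ℓ + 1`). So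
`|∏ n_i - ∏ ℓ_i| ≤ ∏ (ℓ_i + 1) - ∏ ℓ_i ≤ ∏ ℓ_i * ((1 + M/(2N))^k - 1) ≤ ∏ ℓ_i * 2^k * (M / N)` (`(1+x)^k - 1 ≤ 2^k x` for
`0 ≤ x ≤ 1`; for the first inequality: induction, or `Finset.prod` of numbers in `[ℓ-1, ℓ+1]`: both
`∏ n_i ≤ ∏ (ℓ_i + 1)` and `∏ ℓ_i - ∏ n_i ≤ ∏ ℓ_i - ∏ (ℓ_i - 1) ≤ ∏ (ℓ_i + 1) - ∏ ℓ_i`).
Sum over the at most `M^k` classes of `Ω`: the main terms give `Ω.ncard / M^k * ∏ (2 L i)` and the error is at most
`M^k ∏ (2 L i / M) 2^k (M/N) = 4^k (M/N) ∏ L i`. (`Set.ncard` as a sum over the finset of classes: fibres of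
`x ↦ (x mod M)`, `Finset.card_eq_sum_card_fiberwise`.)
-/

namespace Pool.Agent.Helper38.DZR

/-- the integers of absolute value less than `L` -/
private noncomputable def zs (L : ℝ) : Finset ℤ :=
  (Finset.Icc (-⌈L⌉) ⌈L⌉).filter fun z => |(z : ℝ)| < L

private theorem mem_zs (L : ℝ) (z : ℤ) : z ∈ zs L ↔ |(z : ℝ)| < L := by
  unfold zs
  rw [Finset.mem_filter, Finset.mem_Icc]
  refine ⟨fun h => h.2, fun h => ⟨?_, h⟩⟩
  have h1 := abs_lt.1 h
  have h2 := Int.le_ceil L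
  constructor
  · have h3 : ((-⌈L⌉ : ℤ) : ℝ) ≤ (z : ℝ) := by push_cast; linarith
    exact_mod_cast h3
  · have h3 : (z : ℝ) ≤ ((⌈L⌉ : ℤ) : ℝ) := by linarith
    exact_mod_cast h3

private theorem count_one (M : ℕ) (hM : 1 ≤ M) (L : ℝ) (hL : 0 ≤ L) (c : ZMod M) :
    |((((zs L).filter fun z => ((z : ℤ) : ZMod M) = c).card : ℕ) : ℝ) - 2 * L / M| ≤ 1 := by
  have hM0 : (0 : ℝ) < M := by exact_mod_cast hM
  obtain ⟨a, ha⟩ : ∃ a : ℤ, ((a : ℤ) : ZMod M) = c := ⟨_, ZMod.intCast_rightInverse c⟩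
  have himg : (zs L).filter (fun z => ((z : ℤ) : ZMod M) = c) =
      (Finset.Ioo ⌊(-L - a) / M⌋ ⌈(L - a) / M⌉).image (fun t : ℤ => a + M * t) := by
    ext z
    rw [Finset.mem_filter, mem_zs, Finset.mem_image]
    constructor
    · rintro ⟨h1, h2⟩
      rw [← ha] at h2
      have h3 := (ZMod.intCast_eq_intCast_iff_dvd_sub a z M).1 h2.symm
      obtain ⟨t, ht⟩ := h3
      refine ⟨t, ?_, by linarith⟩
      have hz : (z : ℝ) = a + M * t := by
        have : z = a + M * t := by linarith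
        rw [this]; push_cast; ring
      rw [hz] at h1
      have h4 := abs_lt.1 h1
      rw [Finset.mem_Ioo, Int.floor_lt, Int.lt_ceil, div_lt_iff₀ hM0, lt_div_iff₀ hM0]
      constructor <;> nlinarith [h4.1, h4.2]
    · rintro ⟨t, ht, rfl⟩
      rw [Finset.mem_Ioo, Int.floor_lt, Int.lt_ceil, div_lt_iff₀ hM0, lt_div_iff₀ hM0] at ht
      constructor
      · rw [abs_lt]
        push_cast
        constructor <;> nlinarith [ht.1, ht.2]
      · push_cast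
        rw [ha]
        simp
  rw [himg, Finset.card_image_of_injective, Int.card_Ioo]
  · have h1 := Int.floor_le ((-L - a) / (M : ℝ))
    have h2 := Int.lt_floor_add_one ((-L - a) / (M : ℝ))
    have h3 := Int.le_ceil ((L - a) / (M : ℝ))
    have h4 := Int.ceil_lt_add_one ((L - a) / (M : ℝ))
    have h5 : (L - a) / (M : ℝ) - (-L - a) / (M : ℝ) = 2 * L / M := by ring
    rcases le_or_gt 0 (⌈(L - a) / (M : ℝ)⌉ - ⌊(-L - a) / (M : ℝ)⌋ - 1) with h6 | h6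
    · have h7 : (((⌈(L - a) / (M : ℝ)⌉ - ⌊(-L - a) / (M : ℝ)⌋ - 1).toNat : ℕ) : ℝ) =
          (⌈(L - a) / (M : ℝ)⌉ : ℝ) - (⌊(-L - a) / (M : ℝ)⌋ : ℝ) - 1 := by
        have h8 : (((⌈(L - a) / (M : ℝ)⌉ - ⌊(-L - a) / (M : ℝ)⌋ - 1).toNat : ℕ) : ℤ) =
            ⌈(L - a) / (M : ℝ)⌉ - ⌊(-L - a) / (M : ℝ)⌋ - 1 := Int.toNat_of_nonneg h6
        have h9 : ((((⌈(L - a) / (M : ℝ)⌉ - ⌊(-L - a) / (M : ℝ)⌋ - 1).toNat : ℕ) : ℤ) : ℝ) =
            ((⌈(L - a) / (M : ℝ)⌉ - ⌊(-L - a) / (M : ℝ)⌋ - 1 : ℤ) : ℝ) := by rw [h8]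
        push_cast at h9 ⊢
        exact h9
      rw [h7, abs_le]
      constructor <;> linarith
    · have h7 : (⌈(L - a) / (M : ℝ)⌉ - ⌊(-L - a) / (M : ℝ)⌋ - 1).toNat = 0 :=
        Int.toNat_of_nonpos h6.le
      have h8 : (⌈(L - a) / (M : ℝ)⌉ : ℝ) - (⌊(-L - a) / (M : ℝ)⌋ : ℝ) - 1 < 0 := by
        exact_mod_cast h6
      have h9 : (⌈(L - a) / (M : ℝ)⌉ : ℝ) ≤ (⌊(-L - a) / (M : ℝ)⌋ : ℝ) := by
        have : ⌈(L - a) / (M : ℝ)⌉ ≤ ⌊(-L - a) / (M : ℝ)⌋ := by omega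
        exact_mod_cast this
      have h10 : 0 ≤ 2 * L / (M : ℝ) := by positivity
      rw [h7, Nat.cast_zero, zero_sub, abs_neg, abs_le]
      constructor <;> linarith
  · intro t t' htt
    have h1 : (M : ℤ) * t = M * t' := by
      simp only at htt
      linarith
    have h2 : (M : ℤ) ≠ 0 := by
      have : (0 : ℤ) < M := by exact_mod_cast hM
      exact this.ne'
    exact mul_left_cancel₀ h2 h1

private theorem pow_bd (δ : ℝ) (h0 : 0 ≤ δ) (h1 : δ ≤ 1) (k : ℕ) :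
    (1 + δ) ^ k - 1 ≤ (2 ^ k - 1) * δ := by
  induction k with
  | zero => simp
  | succ k ih =>
    have h2 : (1 : ℝ) ≤ 2 ^ k := one_le_pow₀ (by norm_num)
    have h3 : 0 ≤ (2 ^ k - 1) * δ := mul_nonneg (by linarith) h0
    rw [pow_succ, pow_succ]
    nlinarith

private theorem prod_bd {I : Type} [DecidableEq I] (s : Finset I) (n l : I → ℝ) (δ : ℝ)
    (h0 : 0 ≤ δ) (hl : ∀ i, 0 ≤ l i) (h : ∀ i, |n i - l i| ≤ δ * l i) :
    |∏ i ∈ s, n i - ∏ i ∈ s, l i| ≤ ((1 + δ) ^ s.card - 1) * ∏ i ∈ s, l i := by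
  induction s using Finset.induction_on with
  | empty => simp
  | insert a s ha ih =>
    rw [Finset.prod_insert ha, Finset.prod_insert ha, Finset.card_insert_of_notMem ha]
    have hP : 0 ≤ ∏ i ∈ s, l i := Finset.prod_nonneg fun i _ => hl i
    have h1 : n a * ∏ i ∈ s, n i - l a * ∏ i ∈ s, l i =
        n a * (∏ i ∈ s, n i - ∏ i ∈ s, l i) + (n a - l a) * ∏ i ∈ s, l i := by ring
    have h2 : |n a| ≤ (1 + δ) * l a := by
      have h3 : n a = (n a - l a) + l a := by ring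
      have h4 := abs_add_le (n a - l a) (l a)
      rw [← h3, abs_of_nonneg (hl a)] at h4
      linarith [h a]
    rw [h1]
    refine (abs_add_le _ _).trans ?_
    rw [abs_mul, abs_mul, abs_of_nonneg hP]
    have h5 : |n a| * |∏ i ∈ s, n i - ∏ i ∈ s, l i| ≤
        ((1 + δ) * l a) * (((1 + δ) ^ s.card - 1) * ∏ i ∈ s, l i) :=
      mul_le_mul h2 ih (abs_nonneg _) (mul_nonneg (by linarith) (hl a))
    have h6 : |n a - l a| * ∏ i ∈ s, l i ≤ (δ * l a) * ∏ i ∈ s, l i :=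
      mul_le_mul_of_nonneg_right (h a) hP
    refine (add_le_add h5 h6).trans (le_of_eq ?_)
    rw [pow_succ]; ring

private theorem ncard_set {I : Type} [Fintype I] [DecidableEq I] (M : ℕ) [NeZero M] (L : I → ℝ)
    (Ω : Set (I → ZMod M)) :
    {x : I → ℤ | (∀ i, |(x i : ℝ)| < L i) ∧ (fun i => ((x i : ℤ) : ZMod M)) ∈ Ω}.Finite ∧
    {x : I → ℤ | (∀ i, |(x i : ℝ)| < L i) ∧ (fun i => ((x i : ℤ) : ZMod M)) ∈ Ω}.ncard =
      ∑ c ∈ (Set.toFinite Ω).toFinset,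
        ∏ i, ((zs (L i)).filter fun z => ((z : ℤ) : ZMod M) = c i).card := by
  classical
  have h1 : {x : I → ℤ | (∀ i, |(x i : ℝ)| < L i) ∧ (fun i => ((x i : ℤ) : ZMod M)) ∈ Ω} =
      ↑((Fintype.piFinset fun i => zs (L i)).filter
        fun x => (fun i => ((x i : ℤ) : ZMod M)) ∈ (Set.toFinite Ω).toFinset) := by
    ext x
    rw [Finset.mem_coe, Finset.mem_filter, Fintype.mem_piFinset, Set.Finite.mem_toFinset]
    simp only [mem_zs]
    exact Iff.rfl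
  rw [h1]
  refine ⟨Finset.finite_toSet _, ?_⟩
  have hfib := Finset.card_eq_sum_card_fiberwise
    (s := (Fintype.piFinset fun i => zs (L i)).filter
        fun x => (fun i => ((x i : ℤ) : ZMod M)) ∈ (Set.toFinite Ω).toFinset)
    (f := fun x : I → ℤ => (fun i => ((x i : ℤ) : ZMod M))) (t := (Set.toFinite Ω).toFinset)
    (fun x hx => (Finset.mem_filter.1 hx).2)
  rw [Set.ncard_coe_finset, hfib]
  refine Finset.sum_congr rfl fun c hc => ?_
  rw [← Fintype.card_piFinset]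
  congr 1
  ext x
  rw [Finset.mem_filter, Finset.mem_filter, Fintype.mem_piFinset, Fintype.mem_piFinset]
  constructor
  · rintro ⟨⟨h2, _⟩, h3⟩ i
    rw [Finset.mem_filter]
    exact ⟨h2 i, congrFun h3 i⟩
  · intro h2
    have h3 : (fun i => ((x i : ℤ) : ZMod M)) = c := by
      funext i
      exact (Finset.mem_filter.1 (h2 i)).2
    refine ⟨⟨fun i => (Finset.mem_filter.1 (h2 i)).1, ?_⟩, h3⟩
    rw [h3]; exact hc

theorem class_count (I : Type) [Fintype I] [DecidableEq I] : ∃ C : ℝ, 1 ≤ C ∧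
    ∀ M : ℕ, 1 ≤ M → ∀ (L : I → ℝ) (N : ℝ), (M : ℝ) ≤ N → (∀ i, N ≤ L i) →
    ∀ Ω : Set (I → ZMod M),
    {x : I → ℤ | (∀ i, |(x i : ℝ)| < L i) ∧ (fun i => ((x i : ℤ) : ZMod M)) ∈ Ω}.Finite ∧
    |(({x : I → ℤ | (∀ i, |(x i : ℝ)| < L i) ∧ (fun i => ((x i : ℤ) : ZMod M)) ∈ Ω}.ncard : ℕ) : ℝ) -
      (Ω.ncard : ℝ) / (M : ℝ) ^ (Fintype.card I) * ∏ i, (2 * L i)| ≤
      C * ((M : ℝ) / N) * ∏ i, L i := by
  obtain ⟨k, hk⟩ : ∃ k : ℕ, k = Fintype.card I := ⟨_, rfl⟩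
  refine ⟨4 ^ k, one_le_pow₀ (by norm_num), ?_⟩
  intro M hM L N hMN hNL Ω
  have : NeZero M := ⟨by omega⟩
  have hM0 : (0 : ℝ) < M := by exact_mod_cast hM
  have hN0 : 0 < N := lt_of_lt_of_le hM0 hMN
  have hL0 : ∀ i, 0 < L i := fun i => lt_of_lt_of_le hN0 (hNL i)
  obtain ⟨hfin, hcard⟩ := ncard_set M L Ω
  refine ⟨hfin, ?_⟩
  rw [hcard, Set.ncard_eq_toFinset_card Ω (Set.toFinite Ω), ← hk]
  obtain ⟨T, hT⟩ : ∃ T : Finset (I → ZMod M), T = (Set.toFinite Ω).toFinset := ⟨_, rfl⟩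
  rw [← hT]
  obtain ⟨δ, hδ⟩ : ∃ δ : ℝ, δ = M / (2 * N) := ⟨_, rfl⟩
  have hδ0 : 0 ≤ δ := by rw [hδ]; positivity
  have hδ1 : δ ≤ 1 := by
    rw [hδ, div_le_one (by positivity)]
    linarith
  obtain ⟨P, hP⟩ : ∃ P : ℝ, P = ∏ i, (2 * L i / M) := ⟨_, rfl⟩
  have hP0 : 0 ≤ P := by
    rw [hP]
    exact Finset.prod_nonneg fun i _ => by have := (hL0 i).le; positivity
  have hMk : (0 : ℝ) < (M : ℝ) ^ k := by positivity
  have hP1 : P * (M : ℝ) ^ k = ∏ i, (2 * L i) := by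
    rw [hP, Finset.prod_div_distrib, Finset.prod_const, Finset.card_univ, ← hk]
    field_simp
  have hP2 : ∏ i, (2 * L i) = 2 ^ k * ∏ i, L i := by
    rw [Finset.prod_mul_distrib, Finset.prod_const, Finset.card_univ, ← hk]
  have hone : ∀ c : I → ZMod M,
      |((∏ i, ((zs (L i)).filter fun z => ((z : ℤ) : ZMod M) = c i).card : ℕ) : ℝ) - P| ≤
        2 ^ k * δ * P := by
    intro c
    have h1 := prod_bd (Finset.univ : Finset I)
      (fun i => ((((zs (L i)).filter fun z => ((z : ℤ) : ZMod M) = c i).card : ℕ) : ℝ))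
      (fun i => 2 * L i / M) δ hδ0 (fun i => by have := (hL0 i).le; positivity) (fun i => by
        refine (count_one M hM (L i) (hL0 i).le (c i)).trans ?_
        rw [hδ]
        have h2 : (M : ℝ) / (2 * N) * (2 * L i / M) = L i / N := by field_simp
        rw [h2, le_div_iff₀ hN0, one_mul]
        exact hNL i)
    rw [Finset.card_univ, ← hk, ← hP] at h1
    rw [Nat.cast_prod]
    refine h1.trans (mul_le_mul_of_nonneg_right ?_ hP0)
    have h3 := pow_bd δ hδ0 hδ1 k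
    linarith
  have hTc : (T.card : ℝ) ≤ (M : ℝ) ^ k := by
    have h1 : T.card ≤ Fintype.card (I → ZMod M) := Finset.card_le_univ T
    rw [Fintype.card_fun, ZMod.card, ← hk] at h1
    exact_mod_cast h1
  have hmain : (T.card : ℝ) / (M : ℝ) ^ k * ∏ i, (2 * L i) = ∑ _c ∈ T, P := by
    rw [Finset.sum_const, nsmul_eq_mul, ← hP1]
    field_simp
  rw [hmain, Nat.cast_sum, ← Finset.sum_sub_distrib]
  calc |∑ c ∈ T, (((∏ i, ((zs (L i)).filter fun z => ((z : ℤ) : ZMod M) = c i).card : ℕ) : ℝ) - P)|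
      ≤ ∑ c ∈ T, |((∏ i, ((zs (L i)).filter fun z => ((z : ℤ) : ZMod M) = c i).card : ℕ) : ℝ) - P| :=
        Finset.abs_sum_le_sum_abs _ _
    _ ≤ ∑ _c ∈ T, 2 ^ k * δ * P := Finset.sum_le_sum fun c _ => hone c
    _ = T.card * (2 ^ k * δ * P) := by rw [Finset.sum_const, nsmul_eq_mul]
    _ ≤ (M : ℝ) ^ k * (2 ^ k * δ * P) := mul_le_mul_of_nonneg_right hTc (by positivity)
    _ = 2 ^ k * δ * ∏ i, (2 * L i) := by rw [← hP1]; ring
    _ = 2 ^ k * δ * (2 ^ k * ∏ i, L i) := by rw [hP2]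
    _ ≤ 4 ^ k * ((M : ℝ) / N) * ∏ i, L i := by
        have h1 : (4 : ℝ) ^ k = 2 ^ k * 2 ^ k := by rw [← mul_pow]; norm_num
        have h2 : δ ≤ (M : ℝ) / N := by
          rw [hδ]
          exact div_le_div_of_nonneg_left hM0.le hN0 (by linarith)
        have h3 : 0 ≤ ∏ i, L i := Finset.prod_nonneg fun i _ => (hL0 i).le
        have h4 : 0 ≤ (2 : ℝ) ^ k * 2 ^ k * ∏ i, L i := by positivity
        rw [h1]
        nlinarith

end Pool.Agent.Helper38.DZR
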