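import Pool.Agent.Helper38.DZR.ClassCount

set_option autoImplicit false

/-!
DZR-03 CrtCount. The same with conditions modulo `p^k` for the primes `p` of a finite set `D`.

PROOF. `M = ∏_(p ∈ D) p^k`, `Ω_D = {y : I → ZMod M | ∀ p ∈ D, (fun i => ZMod.castHom (p^k ∣ M) _ (y i)) ∈ Ω p}`.
`x mod M ∈ Ω_D` iff `x mod p^k ∈ Ω p` for all `p ∈ D` (casts of integers: `map_intCast`), and
`Ω_D.ncard = ∏_(p ∈ D) (Ω p).ncard` (Chinese remainder theorem: `ZMod.prodEquivPi` for the pairwise coprime numbers `p^k`, or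
induction on `D` with `ZMod.chineseRemainder`; `Set.ncard` of a product: `Set.ncard_prod`, `Fintype.card_pi`,
`Fintype.piFinset`), `M^(card I) = ∏ (p^k)^(card I)`. Then `class_count` with this `M`, the same `C`.
-/

namespace Pool.Agent.Helper38.DZR

/-- The classes modulo the product. -/
private def OmD (I : Type) (k : ℕ) (D : Finset ℕ) (Ω : (p : ℕ) → Set (I → ZMod (p ^ k))) :
    Set (I → ZMod (∏ p ∈ D, p ^ k)) :=
  {y | ∀ p ∈ D, (fun i => ((ZMod.cast (y i) : ZMod (p ^ k)))) ∈ Ω p}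

private theorem mem_OmD {I : Type} {k : ℕ} {D : Finset ℕ} (Ω : (p : ℕ) → Set (I → ZMod (p ^ k)))
    (x : I → ℤ) : (fun i => ((x i : ℤ) : ZMod (∏ p ∈ D, p ^ k))) ∈ OmD I k D Ω ↔
      ∀ p ∈ D, (fun i => ((x i : ℤ) : ZMod (p ^ k))) ∈ Ω p := by
  refine forall_congr' fun p => forall_congr' fun hp => ?_
  have hd : p ^ k ∣ ∏ p ∈ D, p ^ k := Finset.dvd_prod_of_mem (fun p => p ^ k) hp
  have h1 : (fun i => ((ZMod.cast ((x i : ℤ) : ZMod (∏ p ∈ D, p ^ k)) : ZMod (p ^ k)))) =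
      fun i => ((x i : ℤ) : ZMod (p ^ k)) := by
    funext i
    exact ZMod.cast_intCast hd (x i)
  rw [h1]

private theorem card_OmD (I : Type) [Fintype I] [DecidableEq I] (k : ℕ) (D : Finset ℕ)
    (hD : ∀ p ∈ D, p.Prime) (Ω : (p : ℕ) → Set (I → ZMod (p ^ k))) :
    (OmD I k D Ω).ncard = ∏ p ∈ D, (Ω p).ncard := by
  classical
  have hM : NeZero (∏ p ∈ D, p ^ k) :=
    ⟨Finset.prod_ne_zero_iff.mpr fun p hp => pow_ne_zero _ (hD p hp).ne_zero⟩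
  have hp0 : ∀ p : D, NeZero ((p : ℕ) ^ k) := fun p => ⟨pow_ne_zero _ (hD p p.2).ne_zero⟩
  let Φ : (I → ZMod (∏ p ∈ D, p ^ k)) → ((p : D) → I → ZMod ((p : ℕ) ^ k)) :=
    fun y p i => ZMod.cast (y i)
  have hinj : Function.Injective Φ := by
    intro y y' h
    funext i
    have h1 : ∀ p ∈ D, ((p ^ k : ℕ) : ℤ) ∣ ((y i).val : ℤ) - ((y' i).val : ℤ) := by
      intro p hp
      have h2 : (ZMod.cast (y i) : ZMod (p ^ k)) = ZMod.cast (y' i) :=
        congrFun (congrFun h ⟨p, hp⟩) i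
      rw [ZMod.cast_eq_val, ZMod.cast_eq_val] at h2
      rw [← ZMod.intCast_zmod_eq_zero_iff_dvd]
      push_cast
      rw [h2, sub_self]
    have h3 : ((∏ p ∈ D, p ^ k : ℕ) : ℤ) ∣ ((y i).val : ℤ) - ((y' i).val : ℤ) := by
      have h4 : ∏ p ∈ D, ((p ^ k : ℕ) : ℤ) ∣ ((y i).val : ℤ) - ((y' i).val : ℤ) := by
        refine Finset.prod_dvd_of_coprime ?_ h1
        intro p hp q hq hne
        have h5 : Nat.Coprime (p ^ k) (q ^ k) :=
          Nat.Coprime.pow _ _ ((Nat.coprime_primes (hD p hp) (hD q hq)).mpr hne)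
        exact Nat.isCoprime_iff_coprime.mpr h5
      rw [Nat.cast_prod]
      exact h4
    have h6 : (((y i).val : ℤ) : ZMod (∏ p ∈ D, p ^ k)) = (((y' i).val : ℤ) : ZMod _) := by
      rw [← sub_eq_zero, ← Int.cast_sub]
      exact (ZMod.intCast_zmod_eq_zero_iff_dvd _ _).mpr h3
    simpa using h6
  have hcard : Fintype.card (I → ZMod (∏ p ∈ D, p ^ k)) =
      Fintype.card ((p : D) → I → ZMod ((p : ℕ) ^ k)) := by
    rw [Fintype.card_pi, Fintype.card_pi]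
    simp only [Fintype.card_pi, ZMod.card, Finset.prod_const]
    rw [Finset.prod_coe_sort D (fun p => (p ^ k) ^ (Finset.univ : Finset I).card),
      Finset.prod_pow D (Finset.univ : Finset I).card (fun p => p ^ k)]
  have hbij : Function.Bijective Φ :=
    (Fintype.bijective_iff_injective_and_card Φ).mpr ⟨hinj, hcard⟩
  have himg : Φ '' OmD I k D Ω = Set.pi Set.univ fun p : D => Ω p := by
    ext f
    constructor
    · rintro ⟨y, hy, rfl⟩ p -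
      exact hy p p.2
    · intro hf
      obtain ⟨y, rfl⟩ := hbij.2 f
      exact ⟨y, fun p hp => hf ⟨p, hp⟩ (Set.mem_univ _), rfl⟩
  rw [← Set.ncard_image_of_injective _ hinj, himg, ← Nat.card_coe_set_eq,
    Nat.card_congr (Equiv.Set.univPi fun p : D => Ω p), Nat.card_pi]
  simp only [Nat.card_coe_set_eq]
  exact Finset.prod_coe_sort D fun p => (Ω p).ncard

theorem crt_count (I : Type) [Fintype I] [DecidableEq I] (k : ℕ) : ∃ C : ℝ, 1 ≤ C ∧
    ∀ D : Finset ℕ, (∀ p ∈ D, p.Prime) → ∀ Ω : (p : ℕ) → Set (I → ZMod (p ^ k)),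
    ∀ (L : I → ℝ) (N : ℝ), ((∏ p ∈ D, p ^ k : ℕ) : ℝ) ≤ N → (∀ i, N ≤ L i) →
    {x : I → ℤ | (∀ i, |(x i : ℝ)| < L i) ∧
      ∀ p ∈ D, (fun i => ((x i : ℤ) : ZMod (p ^ k))) ∈ Ω p}.Finite ∧
    |(({x : I → ℤ | (∀ i, |(x i : ℝ)| < L i) ∧
      ∀ p ∈ D, (fun i => ((x i : ℤ) : ZMod (p ^ k))) ∈ Ω p}.ncard : ℕ) : ℝ) -
      (∏ p ∈ D, ((Ω p).ncard : ℝ) / ((p : ℝ) ^ k) ^ (Fintype.card I)) * ∏ i, (2 * L i)| ≤
      C * (((∏ p ∈ D, p ^ k : ℕ) : ℝ) / N) * ∏ i, L i := by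
  classical
  obtain ⟨C, hC, h⟩ := class_count I
  refine ⟨C, hC, ?_⟩
  intro D hD Ω L N hMN hNL
  have hM : 1 ≤ ∏ p ∈ D, p ^ k :=
    Finset.prod_pos fun p hp => pow_pos (hD p hp).pos _
  have h1 := h (∏ p ∈ D, p ^ k) hM L N hMN hNL (OmD I k D Ω)
  simp only [mem_OmD] at h1
  have h2 : (∏ p ∈ D, ((Ω p).ncard : ℝ) / ((p : ℝ) ^ k) ^ (Fintype.card I)) =
      ((OmD I k D Ω).ncard : ℝ) / ((∏ p ∈ D, p ^ k : ℕ) : ℝ) ^ (Fintype.card I) := by
    rw [card_OmD I k D hD Ω, Finset.prod_div_distrib, Finset.prod_pow]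
    push_cast
    rfl
  rw [h2]
  exact h1

end Pool.Agent.Helper38.DZR
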