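import Pool.Agent.Helper32.DZ.NonGood
import Pool.Agent.Helper38.DZR.EvenMainR
import Pool.Agent.Helper38.DZR.OddMainR

set_option autoImplicit false

/-!
DZR-22 FinalR. Integral points: the rate in every degree `d ≥ 2`.

PROOF. As `Pool/Agent/Helper32/DZ/Final.lean`. `d = m + 1`, `m` odd: `HasPt a` implies `HasE 1 a` (`r = x`, `s = 1`, `w = 1`,
`c = y`), `even_main_r` with `τ = 1`; `m ≥ 2` even: `HasPt a` implies `HasO a` (`r = x`, `s = 1`, `w = 1`, `v = y`), `odd_main_r`.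
The tuples which are not good: `d (2H+1)^d ≤ d (2H+1)^(d+1) / (2H+1)` (`nongood_card`), and `1/(2H+1) ≤ (log H)^(-c)` for `c ≤ 1`
(WLOG `c ≤ 1`: for `log H < 1`, i.e. `H = 2`, use constants).
-/

open Polynomial Matrix Pool.Agent.Helper32.DZ

namespace Pool.Agent.Helper38.DZR

private theorem r_main (m : ℕ) (hm : 1 ≤ m) : ∃ C c : ℝ, 1 ≤ C ∧ 0 < c ∧ ∀ H : ℕ, 2 ≤ H →
    {a : Fin (m + 1 + 1) → ℤ | (∀ i, |a i| ≤ (H : ℤ)) ∧ Good a ∧ HasPt a}.Finite ∧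
    (({a : Fin (m + 1 + 1) → ℤ | (∀ i, |a i| ≤ (H : ℤ)) ∧ Good a ∧ HasPt a}.ncard : ℕ) : ℝ) ≤
      C * (H : ℝ) ^ (m + 2) * (Real.log H) ^ (-c) := by
  rcases Nat.even_or_odd m with h | h
  · obtain ⟨C, c, hC, hc, hmain⟩ := odd_main_r m h (by obtain ⟨r, hr⟩ := h; omega)
    refine ⟨C, c, hC, hc, fun H hH => ?_⟩
    obtain ⟨hf, hle⟩ := hmain H hH
    have hsub : {a : Fin (m + 1 + 1) → ℤ | (∀ i, |a i| ≤ (H : ℤ)) ∧ Good a ∧ HasPt a} ⊆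
        {a : Fin (m + 1 + 1) → ℤ | (∀ i, |a i| ≤ (H : ℤ)) ∧ Good a ∧ HasO a} := by
      rintro a ⟨h1, h2, x, y, h3⟩
      exact ⟨h1, h2, x, 1, 1, y, isCoprime_one_right, one_ne_zero, isCoprime_one_left, by norm_num,
        by simpa using h3⟩
    refine ⟨hf.subset hsub, le_trans ?_ hle⟩
    exact_mod_cast Set.ncard_le_ncard hsub hf
  · obtain ⟨C, hC, hmain⟩ := even_main_r m h 1 one_ne_zero
    refine ⟨C, 1 / 64, hC, by norm_num, fun H hH => ?_⟩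
    obtain ⟨hf, hle⟩ := hmain H hH
    have hsub : {a : Fin (m + 1 + 1) → ℤ | (∀ i, |a i| ≤ (H : ℤ)) ∧ Good a ∧ HasPt a} ⊆
        {a : Fin (m + 1 + 1) → ℤ | (∀ i, |a i| ≤ (H : ℤ)) ∧ Good a ∧ HasE 1 a} := by
      rintro a ⟨h1, h2, x, y, h3⟩
      exact ⟨h1, h2, x, 1, 1, y, isCoprime_one_right, one_ne_zero, by norm_num,
        by simpa using h3⟩
    refine ⟨hf.subset hsub, le_trans ?_ hle⟩
    exact_mod_cast Set.ncard_le_ncard hsub hf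

theorem density_rate (d : ℕ) (hd : 2 ≤ d) : ∃ C c : ℝ, 0 < C ∧ 0 < c ∧ ∀ H : ℕ, 2 ≤ H →
    (({a : Fin (d + 1) → ℤ | (∀ i, |a i| ≤ (H : ℤ)) ∧
      ∃ x y : ℤ, y ^ 2 = ∑ i, a i * x ^ (i : ℕ)}.ncard : ℕ) : ℝ) ≤
      C * (2 * (H : ℝ) + 1) ^ (d + 1) * (Real.log H) ^ (-c) := by
  obtain ⟨m, rfl⟩ : ∃ m, d = m + 1 := ⟨d - 1, by omega⟩
  obtain ⟨C0, c0, hC0, hc0, hmain⟩ := r_main m (by omega)
  have hl2 : 0 < Real.log 2 := Real.log_pos (by norm_num)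
  have hl21 : Real.log 2 ≤ 1 := by
    have := Real.log_le_sub_one_of_pos (show (0 : ℝ) < 2 by norm_num)
    linarith
  have hK1 : 1 ≤ (Real.log 2) ^ (-c0) := Real.one_le_rpow_of_pos_of_le_one_of_nonpos hl2 hl21
    (by linarith)
  refine ⟨C0 * (Real.log 2) ^ (-c0) + ((m + 1 : ℕ) : ℝ), min c0 1, by positivity, by positivity,
    fun H hH => ?_⟩
  obtain ⟨hf1, hc1⟩ := hmain H hH
  obtain ⟨hf2, hc2⟩ := nongood_card (m + 1) H (by omega)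
  have hH2 : (2 : ℝ) ≤ (H : ℝ) := by exact_mod_cast hH
  have hL2 : Real.log 2 ≤ Real.log H := Real.log_le_log (by norm_num) hH2
  have hL0 : 0 < Real.log H := lt_of_lt_of_le hl2 hL2
  have hLH : Real.log H ≤ 2 * (H : ℝ) + 1 := by
    have := Real.log_le_sub_one_of_pos (show (0 : ℝ) < (H : ℝ) by linarith)
    linarith
  have hsub : {a : Fin (m + 1 + 1) → ℤ | (∀ i, |a i| ≤ (H : ℤ)) ∧
      ∃ x y : ℤ, y ^ 2 = ∑ i, a i * x ^ (i : ℕ)} ⊆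
      {a : Fin (m + 1 + 1) → ℤ | (∀ i, |a i| ≤ (H : ℤ)) ∧ Good a ∧ HasPt a} ∪
      {a : Fin (m + 1 + 1) → ℤ | (∀ i, |a i| ≤ (H : ℤ)) ∧ ¬ Good a} := by
    intro a ha
    by_cases hg : Good a
    · exact Or.inl ⟨ha.1, hg, ha.2⟩
    · exact Or.inr ⟨ha.1, hg⟩
  have h1 := (Set.ncard_le_ncard hsub (hf1.union hf2)).trans (Set.ncard_union_le _ _)
  have h2 : (({a : Fin (m + 1 + 1) → ℤ | (∀ i, |a i| ≤ (H : ℤ)) ∧
      ∃ x y : ℤ, y ^ 2 = ∑ i, a i * x ^ (i : ℕ)}.ncard : ℕ) : ℝ) ≤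
      (({a : Fin (m + 1 + 1) → ℤ | (∀ i, |a i| ≤ (H : ℤ)) ∧ Good a ∧ HasPt a}.ncard : ℕ) : ℝ) +
      (({a : Fin (m + 1 + 1) → ℤ | (∀ i, |a i| ≤ (H : ℤ)) ∧ ¬ Good a}.ncard : ℕ) : ℝ) := by
    exact_mod_cast h1
  have h3 : (({a : Fin (m + 1 + 1) → ℤ | (∀ i, |a i| ≤ (H : ℤ)) ∧ ¬ Good a}.ncard : ℕ) : ℝ) ≤
      ((m + 1 : ℕ) : ℝ) * (2 * (H : ℝ) + 1) ^ (m + 1) := by exact_mod_cast hc2
  -- comparison of the powers of the logarithm
  have hcmp : (Real.log H) ^ (-c0) ≤ (Real.log 2) ^ (-c0) * (Real.log H) ^ (-(min c0 1)) := by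
    rcases le_total (Real.log H) 1 with hle | hge
    · have e1 : (Real.log H) ^ (-c0) ≤ (Real.log 2) ^ (-c0) :=
        Real.rpow_le_rpow_of_nonpos hl2 hL2 (by linarith)
      have e2 : 1 ≤ (Real.log H) ^ (-(min c0 1)) :=
        Real.one_le_rpow_of_pos_of_le_one_of_nonpos hL0 hle
          (by have : 0 < min c0 1 := by positivity
              linarith)
      calc (Real.log H) ^ (-c0) ≤ (Real.log 2) ^ (-c0) * 1 := by linarith
        _ ≤ _ := mul_le_mul_of_nonneg_left e2 (by positivity)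
    · have e1 : (Real.log H) ^ (-c0) ≤ (Real.log H) ^ (-(min c0 1)) :=
        Real.rpow_le_rpow_of_exponent_le hge (neg_le_neg (min_le_left _ _))
      calc (Real.log H) ^ (-c0) ≤ 1 * (Real.log H) ^ (-(min c0 1)) := by linarith
        _ ≤ _ := mul_le_mul_of_nonneg_right hK1 (by positivity)
  have hng : 1 ≤ (2 * (H : ℝ) + 1) * (Real.log H) ^ (-(min c0 1)) := by
    have e1 : (Real.log H) ^ (min c0 1) ≤ 2 * (H : ℝ) + 1 := by
      rcases le_total (Real.log H) 1 with hle | hge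
      · have := Real.rpow_le_one hL0.le hle (show 0 ≤ min c0 1 by positivity)
        linarith
      · have := Real.rpow_le_rpow_of_exponent_le hge (min_le_right c0 1)
        rw [Real.rpow_one] at this
        linarith
    rw [Real.rpow_neg hL0.le, ← div_eq_mul_inv, one_le_div (by positivity)]
    exact e1
  have hE0 : 0 ≤ (Real.log H) ^ (-(min c0 1)) := by positivity
  have h5 : (H : ℝ) ^ (m + 2) ≤ (2 * (H : ℝ) + 1) ^ (m + 2) :=
    pow_le_pow_left₀ (by linarith) (by linarith) _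
  have h6 : C0 * (H : ℝ) ^ (m + 2) * (Real.log H) ^ (-c0) ≤
      C0 * (2 * (H : ℝ) + 1) ^ (m + 2) *
        ((Real.log 2) ^ (-c0) * (Real.log H) ^ (-(min c0 1))) := by
    refine mul_le_mul (mul_le_mul_of_nonneg_left h5 (by linarith)) hcmp (by positivity)
      (by positivity)
  have h7 : ((m + 1 : ℕ) : ℝ) * (2 * (H : ℝ) + 1) ^ (m + 1) ≤
      ((m + 1 : ℕ) : ℝ) * (2 * (H : ℝ) + 1) ^ (m + 2) * (Real.log H) ^ (-(min c0 1)) := by
    have e1 := mul_le_mul_of_nonneg_left hng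
      (show 0 ≤ ((m + 1 : ℕ) : ℝ) * (2 * (H : ℝ) + 1) ^ (m + 1) by positivity)
    rw [mul_one] at e1
    refine e1.trans (le_of_eq ?_)
    ring
  have h8 : (C0 * (Real.log 2) ^ (-c0) + ((m + 1 : ℕ) : ℝ)) * (2 * (H : ℝ) + 1) ^ (m + 1 + 1) *
      (Real.log H) ^ (-(min c0 1)) =
      C0 * (2 * (H : ℝ) + 1) ^ (m + 2) *
        ((Real.log 2) ^ (-c0) * (Real.log H) ^ (-(min c0 1))) +
      ((m + 1 : ℕ) : ℝ) * (2 * (H : ℝ) + 1) ^ (m + 2) * (Real.log H) ^ (-(min c0 1)) := by ring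
  rw [h8]
  linarith

end Pool.Agent.Helper38.DZR
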