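import Pool.Agent.Helper32.DZ.NonGood
import Pool.Agent.Helper32.DZ.RatPt
import Pool.Agent.Helper38.DZR.EvenMainR
import Pool.Agent.Helper38.DZR.OddMainR

set_option autoImplicit false

/-!
DZR-23 FinalSR. Rational points with restricted denominators and bounded twist factor: the rate in every degree `d ≥ 2`
(`density_zero_s` of Helper32/DZ/FinalS.lean with `C (2H+1)^(d+1) (log H)^(-c)`, `c` depends on `d` only).

PROOF. As `density_zero_s`, with `even_main_r` (exponent `1/64`) and `odd_main_r` (exponent `c`).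
-/

open Polynomial Matrix Pool.Agent.Helper32.DZ

namespace Pool.Agent.Helper38.DZR

private theorem fr_core (d : ℕ) (hd : 1 ≤ d) (Q : (Fin (d + 1) → ℤ) → Prop) (C0 c0 : ℝ)
    (hC0 : 1 ≤ C0) (hc0 : 0 < c0)
    (hQ : ∀ H : ℕ, 2 ≤ H →
      {a : Fin (d + 1) → ℤ | (∀ i, |a i| ≤ (H : ℤ)) ∧ Good a ∧ Q a}.Finite ∧
      (({a : Fin (d + 1) → ℤ | (∀ i, |a i| ≤ (H : ℤ)) ∧ Good a ∧ Q a}.ncard : ℕ) : ℝ) ≤
        C0 * (H : ℝ) ^ (d + 1) * (Real.log H) ^ (-c0))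
    (E : ℕ) (hE : 1 ≤ E) :
    ∃ C : ℝ, 0 < C ∧ ∀ H : ℕ, 2 ≤ H →
      {a : Fin (d + 1) → ℤ | (∀ i, |a i| ≤ ((E * H : ℕ) : ℤ)) ∧ Q a}.Finite ∧
      (({a : Fin (d + 1) → ℤ | (∀ i, |a i| ≤ ((E * H : ℕ) : ℤ)) ∧ Q a}.ncard : ℕ) : ℝ) ≤
        C * (2 * (H : ℝ) + 1) ^ (d + 1) * (Real.log H) ^ (-(min c0 1)) := by
  have hEr : (1 : ℝ) ≤ E := by exact_mod_cast hE
  have hE0 : (0 : ℝ) < E := by linarith
  have hl2 : 0 < Real.log 2 := Real.log_pos (by norm_num)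
  have hl21 : Real.log 2 ≤ 1 := by
    have := Real.log_le_sub_one_of_pos (show (0 : ℝ) < 2 by norm_num)
    linarith
  have hK1 : 1 ≤ (Real.log 2) ^ (-c0) := Real.one_le_rpow_of_pos_of_le_one_of_nonpos hl2 hl21
    (by linarith)
  refine ⟨C0 * (E : ℝ) ^ (d + 1) * (Real.log 2) ^ (-c0) + (d : ℝ) * (E : ℝ) ^ d, by positivity,
    fun H hH => ?_⟩
  have hHH : H ≤ E * H := Nat.le_mul_of_pos_left H hE
  obtain ⟨hf1, hc1⟩ := hQ (E * H) (hH.trans hHH)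
  obtain ⟨hf2, hc2⟩ := nongood_card d (E * H) hd
  have hsub : {a : Fin (d + 1) → ℤ | (∀ i, |a i| ≤ ((E * H : ℕ) : ℤ)) ∧ Q a} ⊆
      {a : Fin (d + 1) → ℤ | (∀ i, |a i| ≤ ((E * H : ℕ) : ℤ)) ∧ Good a ∧ Q a} ∪
      {a : Fin (d + 1) → ℤ | (∀ i, |a i| ≤ ((E * H : ℕ) : ℤ)) ∧ ¬ Good a} := by
    intro a ha
    by_cases hg : Good a
    · exact Or.inl ⟨ha.1, hg, ha.2⟩
    · exact Or.inr ⟨ha.1, hg⟩
  refine ⟨(hf1.union hf2).subset hsub, ?_⟩
  have h1 := (Set.ncard_le_ncard hsub (hf1.union hf2)).trans (Set.ncard_union_le _ _)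
  have h2 : (({a : Fin (d + 1) → ℤ | (∀ i, |a i| ≤ ((E * H : ℕ) : ℤ)) ∧ Q a}.ncard : ℕ) : ℝ) ≤
      (({a : Fin (d + 1) → ℤ | (∀ i, |a i| ≤ ((E * H : ℕ) : ℤ)) ∧ Good a ∧ Q a}.ncard : ℕ) : ℝ) +
      (({a : Fin (d + 1) → ℤ | (∀ i, |a i| ≤ ((E * H : ℕ) : ℤ)) ∧ ¬ Good a}.ncard : ℕ) : ℝ) := by
    exact_mod_cast h1
  have hHr : (0 : ℝ) ≤ H := Nat.cast_nonneg H
  have hH2 : (2 : ℝ) ≤ (H : ℝ) := by exact_mod_cast hH
  have hL2 : Real.log 2 ≤ Real.log H := Real.log_le_log (by norm_num) hH2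
  have hL0 : 0 < Real.log H := lt_of_lt_of_le hl2 hL2
  have hLH : Real.log H ≤ 2 * (H : ℝ) + 1 := by
    have := Real.log_le_sub_one_of_pos (show (0 : ℝ) < (H : ℝ) by linarith)
    linarith
  have h3 : (({a : Fin (d + 1) → ℤ | (∀ i, |a i| ≤ ((E * H : ℕ) : ℤ)) ∧ ¬ Good a}.ncard : ℕ) : ℝ) ≤
      d * (2 * ((E : ℝ) * H) + 1) ^ d := by exact_mod_cast hc2
  have h4 : (2 * ((E : ℝ) * H) + 1) ^ d ≤ (E * (2 * (H : ℝ) + 1)) ^ d := by
    refine pow_le_pow_left₀ (by positivity) ?_ _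
    nlinarith
  have hcmp : (Real.log H) ^ (-c0) ≤ (Real.log 2) ^ (-c0) * (Real.log H) ^ (-(min c0 1)) := by
    rcases le_total (Real.log H) 1 with hle | hge
    · have e1 : (Real.log H) ^ (-c0) ≤ (Real.log 2) ^ (-c0) :=
        Real.rpow_le_rpow_of_nonpos hl2 hL2 (by linarith)
      have e2 : 1 ≤ (Real.log H) ^ (-(min c0 1)) :=
        Real.one_le_rpow_of_pos_of_le_one_of_nonpos hL0 hle
          (by have : 0 < min c0 1 := by positivity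
              linarith)
      calc (Real.log H) ^ (-c0) ≤ (Real.log 2) ^ (-c0) * 1 := by linarith
        _ ≤ _ := mul_le_mul_of_nonneg_left e2 (by positivity)
    · have e1 : (Real.log H) ^ (-c0) ≤ (Real.log H) ^ (-(min c0 1)) :=
        Real.rpow_le_rpow_of_exponent_le hge (neg_le_neg (min_le_left _ _))
      calc (Real.log H) ^ (-c0) ≤ 1 * (Real.log H) ^ (-(min c0 1)) := by linarith
        _ ≤ _ := mul_le_mul_of_nonneg_right hK1 (by positivity)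
  have hlogE : (Real.log ((E * H : ℕ) : ℝ)) ^ (-c0) ≤ (Real.log H) ^ (-c0) := by
    refine Real.rpow_le_rpow_of_nonpos hL0 ?_ (by linarith)
    refine Real.log_le_log (by linarith) ?_
    exact_mod_cast hHH
  have hng : 1 ≤ (2 * (H : ℝ) + 1) * (Real.log H) ^ (-(min c0 1)) := by
    have e1 : (Real.log H) ^ (min c0 1) ≤ 2 * (H : ℝ) + 1 := by
      rcases le_total (Real.log H) 1 with hle | hge
      · have := Real.rpow_le_one hL0.le hle (show 0 ≤ min c0 1 by positivity)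
        linarith
      · have := Real.rpow_le_rpow_of_exponent_le hge (min_le_right c0 1)
        rw [Real.rpow_one] at this
        linarith
    rw [Real.rpow_neg hL0.le, ← div_eq_mul_inv, one_le_div (by positivity)]
    exact e1
  have hE1 : 0 ≤ (Real.log H) ^ (-(min c0 1)) := by positivity
  have h5 : (((E * H : ℕ) : ℝ)) ^ (d + 1) ≤ (E : ℝ) ^ (d + 1) * (2 * (H : ℝ) + 1) ^ (d + 1) := by
    push_cast
    rw [mul_pow]
    exact mul_le_mul_of_nonneg_left (pow_le_pow_left₀ hHr (by linarith) _) (by positivity)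
  have h6 : C0 * (((E * H : ℕ) : ℝ)) ^ (d + 1) * (Real.log ((E * H : ℕ) : ℝ)) ^ (-c0) ≤
      C0 * ((E : ℝ) ^ (d + 1) * (2 * (H : ℝ) + 1) ^ (d + 1)) *
        ((Real.log 2) ^ (-c0) * (Real.log H) ^ (-(min c0 1))) := by
    refine mul_le_mul (mul_le_mul_of_nonneg_left h5 (by linarith)) (hlogE.trans hcmp) ?_
      (by positivity)
    refine Real.rpow_nonneg (Real.log_nonneg ?_) _
    have : (1 : ℝ) ≤ ((E * H : ℕ) : ℝ) := by exact_mod_cast (by omega : 1 ≤ E * H)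
    exact this
  have h7 : (d : ℝ) * (2 * ((E : ℝ) * H) + 1) ^ d ≤
      (d : ℝ) * (E : ℝ) ^ d * (2 * (H : ℝ) + 1) ^ (d + 1) * (Real.log H) ^ (-(min c0 1)) := by
    have e0 : (d : ℝ) * (2 * ((E : ℝ) * H) + 1) ^ d ≤ (d : ℝ) * (E * (2 * (H : ℝ) + 1)) ^ d :=
      mul_le_mul_of_nonneg_left h4 (Nat.cast_nonneg d)
    have e1 := mul_le_mul_of_nonneg_left hng
      (show 0 ≤ (d : ℝ) * (E * (2 * (H : ℝ) + 1)) ^ d by positivity)
    rw [mul_one] at e1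
    refine (e0.trans e1).trans (le_of_eq ?_)
    rw [mul_pow]
    ring
  have h8 : (C0 * (E : ℝ) ^ (d + 1) * (Real.log 2) ^ (-c0) + (d : ℝ) * (E : ℝ) ^ d) *
      (2 * (H : ℝ) + 1) ^ (d + 1) * (Real.log H) ^ (-(min c0 1)) =
      C0 * ((E : ℝ) ^ (d + 1) * (2 * (H : ℝ) + 1) ^ (d + 1)) *
        ((Real.log 2) ^ (-c0) * (Real.log H) ^ (-(min c0 1))) +
      (d : ℝ) * (E : ℝ) ^ d * (2 * (H : ℝ) + 1) ^ (d + 1) * (Real.log H) ^ (-(min c0 1)) := by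
    ring
  rw [h8]
  linarith

private theorem fr_E (d : ℕ) (hd : 2 ≤ d) (he : Even d) (τ : ℤ) (hτ : τ ≠ 0) (E : ℕ) (hE : 1 ≤ E) :
    ∃ C : ℝ, 0 < C ∧ ∀ H : ℕ, 2 ≤ H →
      {a : Fin (d + 1) → ℤ | (∀ i, |a i| ≤ ((E * H : ℕ) : ℤ)) ∧ HasE τ a}.Finite ∧
      (({a : Fin (d + 1) → ℤ | (∀ i, |a i| ≤ ((E * H : ℕ) : ℤ)) ∧ HasE τ a}.ncard : ℕ) : ℝ) ≤
        C * (2 * (H : ℝ) + 1) ^ (d + 1) * (Real.log H) ^ (-(min (1 / 64) 1 : ℝ)) := by
  obtain ⟨m, rfl⟩ : ∃ m, d = m + 1 := ⟨d - 1, by omega⟩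
  have hm : Odd m := by
    rcases Nat.even_or_odd m with h | h
    · obtain ⟨r, hr⟩ := h
      obtain ⟨s, hs⟩ := he
      omega
    · exact h
  obtain ⟨C0, hC0, hmain⟩ := even_main_r m hm τ hτ
  exact fr_core (m + 1) (by omega) (HasE τ) C0 (1 / 64) hC0 (by norm_num) hmain E hE

/-- the set of the statement for one pair `(k, τ)` -/
private def frS (d B : ℕ) (p : ℤ × ℕ) (H : ℕ) : Set (Fin (d + 1) → ℤ) :=
  {a | (∀ i, |a i| ≤ (H : ℤ)) ∧ ∃ x y : ℚ, p.1 ≠ 0 ∧ |p.1| ≤ (B : ℤ) ∧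
    (p.1 : ℚ) * y ^ 2 = ∑ i, (a i : ℚ) * x ^ (i : ℕ) ∧
    ((Even d ∧ ∃ w : ℕ, x.den = p.2 * w ^ 2) ∨
      (Odd d ∧ ∃ s : ℕ, x.den = p.2 * s ∧
        Nat.Coprime s (p.2 * (p.1 * a (Fin.last d)).natAbs)))}

private theorem fr_pair_even (d B : ℕ) (hd : 2 ≤ d) (he : Even d) (k : ℤ) (τ : ℕ) (hk : |k| ≤ (B : ℤ))
    (hτ : 1 ≤ τ) (hτB : τ ≤ B) :
    ∃ C : ℝ, 0 < C ∧ ∀ H : ℕ, 2 ≤ H → (((frS d B (k, τ) H).ncard : ℕ) : ℝ) ≤
      C * (2 * (H : ℝ) + 1) ^ (d + 1) * (Real.log H) ^ (-(min (1 / 64) 1 : ℝ)) := by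
  obtain ⟨C1, hC1, hH0⟩ := fr_E d hd he (τ : ℤ) (by exact_mod_cast (by omega : τ ≠ 0)) B (by omega)
  refine ⟨C1, hC1, fun H hH => ?_⟩
  obtain ⟨hf, hc⟩ := hH0 H hH
  have hlog : 0 ≤ Real.log (H : ℝ) := Real.log_nonneg (by exact_mod_cast (by omega : 1 ≤ H))
  by_cases hk0 : k = 0
  · have h1 : frS d B (k, τ) H = ∅ := by
      ext a
      simp only [frS, Set.mem_ofPred_eq, Set.mem_empty_iff_false, iff_false]
      rintro ⟨_, x, y, h, _⟩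
      exact h hk0
    rw [h1]
    simp only [Set.ncard_empty, Nat.cast_zero]
    positivity
  refine le_trans ?_ hc
  have h2 := Set.ncard_le_ncard_of_injOn (s := frS d B (k, τ) H)
    (t := {a : Fin (d + 1) → ℤ | (∀ i, |a i| ≤ ((B * H : ℕ) : ℤ)) ∧ HasE (τ : ℤ) a})
    (fun a i => k * a i) (by
      intro a ha
      obtain ⟨h1, x, y, _, _, h4, h5⟩ := ha
      refine ⟨fun i => ?_, ?_⟩
      · show |k * a i| ≤ _
        rw [abs_mul]
        push_cast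
        exact mul_le_mul hk (h1 i) (abs_nonneg _) (by positivity)
      · rcases h5 with ⟨_, w, hw⟩ | ⟨ho, _⟩
        · refine rat_even he (fun i => k * a i) x (k * y) ?_ τ w hw
          have h6 : ((k : ℚ) * y) ^ 2 = k * ((k : ℚ) * y ^ 2) := by ring
          rw [h6, h4, Finset.mul_sum]
          refine Finset.sum_congr rfl fun i _ => ?_
          push_cast
          ring
        · exact absurd he (Nat.not_even_iff_odd.2 ho)) (by
      intro a _ b _ hab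
      funext i
      have h6 : k * a i = k * b i := congrFun hab i
      exact mul_left_cancel₀ hk0 h6) hf
  exact_mod_cast h2

private theorem fr_pair_odd (d B : ℕ) (ho : Odd d) (c : ℝ)
    (hO : ∀ E : ℕ, 1 ≤ E → ∃ C : ℝ, 0 < C ∧ ∀ H : ℕ, 2 ≤ H →
      {a : Fin (d + 1) → ℤ | (∀ i, |a i| ≤ ((E * H : ℕ) : ℤ)) ∧ HasO a}.Finite ∧
      (({a : Fin (d + 1) → ℤ | (∀ i, |a i| ≤ ((E * H : ℕ) : ℤ)) ∧ HasO a}.ncard : ℕ) : ℝ) ≤
        C * (2 * (H : ℝ) + 1) ^ (d + 1) * (Real.log H) ^ (-c)) (k : ℤ) (τ : ℕ) (hk : |k| ≤ (B : ℤ))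
    (hτ : 1 ≤ τ) (hτB : τ ≤ B) :
    ∃ C : ℝ, 0 < C ∧ ∀ H : ℕ, 2 ≤ H → (((frS d B (k, τ) H).ncard : ℕ) : ℝ) ≤
      C * (2 * (H : ℝ) + 1) ^ (d + 1) * (Real.log H) ^ (-c) := by
  have hB : 1 ≤ B := by omega
  obtain ⟨C1, hC1, hH0⟩ := hO (B ^ (2 * d + 1)) (Nat.one_le_pow _ _ hB)
  refine ⟨C1, hC1, fun H hH => ?_⟩
  obtain ⟨hf, hc⟩ := hH0 H hH
  have hlog : 0 ≤ Real.log (H : ℝ) := Real.log_nonneg (by exact_mod_cast (by omega : 1 ≤ H))
  by_cases hk0 : k = 0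
  · have h1 : frS d B (k, τ) H = ∅ := by
      ext a
      simp only [frS, Set.mem_ofPred_eq, Set.mem_empty_iff_false, iff_false]
      rintro ⟨_, x, y, h, _⟩
      exact h hk0
    rw [h1]
    simp only [Set.ncard_empty, Nat.cast_zero]
    positivity
  refine le_trans ?_ hc
  have hτ0 : (τ : ℤ) ≠ 0 := by exact_mod_cast (by omega : τ ≠ 0)
  have hτq : (τ : ℚ) ≠ 0 := by exact_mod_cast (by omega : τ ≠ 0)
  have h2 := Set.ncard_le_ncard_of_injOn (s := frS d B (k, τ) H)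
    (t := {a : Fin (d + 1) → ℤ | (∀ i, |a i| ≤ ((B ^ (2 * d + 1) * H : ℕ) : ℤ)) ∧ HasO a})
    (fun a i => k * (τ : ℤ) ^ (2 * d - (i : ℕ)) * a i) (by
      intro a ha
      obtain ⟨h1, x, y, _, _, h4, h5⟩ := ha
      refine ⟨fun i => ?_, ?_⟩
      · show |k * (τ : ℤ) ^ (2 * d - (i : ℕ)) * a i| ≤ _
        rw [abs_mul, abs_mul, abs_pow, Nat.abs_cast]
        push_cast
        refine mul_le_mul ?_ (h1 i) (abs_nonneg _) (by positivity)
        rw [pow_succ']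
        refine mul_le_mul hk ?_ (by positivity) (by positivity)
        have h6 : τ ^ (2 * d - (i : ℕ)) ≤ B ^ (2 * d) :=
          (Nat.pow_le_pow_left hτB _).trans (Nat.pow_le_pow_right (by omega) (by omega))
        exact_mod_cast h6
      · rcases h5 with ⟨he, _⟩ | ⟨_, s, hs, hcop⟩
        · exact absurd he (Nat.not_even_iff_odd.2 ho)
        · have hs0 : 0 < s := by
            have := x.den_pos
            rw [hs] at this
            exact Nat.pos_of_mul_pos_left this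
          have hX : (τ : ℚ) * x = (x.num : ℚ) / ((s : ℤ) : ℚ) := by
            have h7 : x * (x.den : ℚ) = x.num := Rat.mul_den_eq_num x
            have h8 : (x.den : ℚ) = τ * s := by exact_mod_cast hs
            have hsq : (((s : ℤ) : ℚ)) ≠ 0 := by exact_mod_cast hs0.ne'
            rw [eq_div_iff hsq, ← h7, h8]
            push_cast
            ring
          have hcx : Nat.Coprime x.num.natAbs s := by
            have := x.reduced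
            rw [hs] at this
            exact Nat.Coprime.coprime_mul_left_right this
          have hden : ((τ : ℚ) * x).den = s := by
            have h8 := Rat.den_div_eq_of_coprime (a := x.num) (b := (s : ℤ)) (by exact_mod_cast hs0)
              (by rw [Int.natAbs_natCast]; exact hcx)
            rw [← hX] at h8
            exact_mod_cast h8
          refine rat_odd ho (fun i => k * (τ : ℤ) ^ (2 * d - (i : ℕ)) * a i) (τ * x) (k * y * τ ^ d) ?_ ?_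
          · have h6 : ((k : ℚ) * y * τ ^ d) ^ 2 = k * τ ^ (2 * d) * ((k : ℚ) * y ^ 2) := by ring
            rw [h6, h4, Finset.mul_sum]
            refine Finset.sum_congr rfl fun i _ => ?_
            push_cast
            have h9 : (τ : ℚ) ^ (2 * d) = τ ^ (2 * d - (i : ℕ)) * τ ^ (i : ℕ) := by
              rw [← pow_add]
              congr 1
              have := i.2
              omega
            rw [h9, mul_pow]
            ring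
          · rw [hden]
            show Nat.Coprime s (k * (τ : ℤ) ^ (2 * d - ((Fin.last d : Fin (d + 1)) : ℕ)) * a (Fin.last d)).natAbs
            have h10 : (k * (τ : ℤ) ^ (2 * d - ((Fin.last d : Fin (d + 1)) : ℕ)) * a (Fin.last d)).natAbs =
                τ ^ d * (k * a (Fin.last d)).natAbs := by
              have h11 : 2 * d - ((Fin.last d : Fin (d + 1)) : ℕ) = d := by
                rw [Fin.val_last]
                omega
              rw [h11, Int.natAbs_mul, Int.natAbs_mul, Int.natAbs_mul, Int.natAbs_pow, Int.natAbs_natCast]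
              ring
            rw [h10]
            exact Nat.Coprime.mul_right ((Nat.Coprime.coprime_mul_right_right hcop).pow_right d)
              (Nat.Coprime.coprime_mul_left_right hcop)) (by
      intro a _ b _ hab
      funext i
      have h6 : k * (τ : ℤ) ^ (2 * d - (i : ℕ)) * a i = k * (τ : ℤ) ^ (2 * d - (i : ℕ)) * b i :=
        congrFun hab i
      exact mul_left_cancel₀ (mul_ne_zero hk0 (pow_ne_zero _ hτ0)) h6) hf
  exact_mod_cast h2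

private theorem fr_sum (d B : ℕ) (c : ℝ)
    (hp : ∀ p : ℤ × ℕ, |p.1| ≤ (B : ℤ) → 1 ≤ p.2 → p.2 ≤ B → ∃ C : ℝ, 0 < C ∧ ∀ H : ℕ, 2 ≤ H →
      (((frS d B p H).ncard : ℕ) : ℝ) ≤
        C * (2 * (H : ℝ) + 1) ^ (d + 1) * (Real.log H) ^ (-c)) :
    ∃ C : ℝ, 0 < C ∧ ∀ H : ℕ, 2 ≤ H →
    (({a : Fin (d + 1) → ℤ | (∀ i, |a i| ≤ (H : ℤ)) ∧
      ∃ (k : ℤ) (x y : ℚ), k ≠ 0 ∧ |k| ≤ (B : ℤ) ∧
        (k : ℚ) * y ^ 2 = ∑ i, (a i : ℚ) * x ^ (i : ℕ) ∧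
        ((Even d ∧ ∃ τ w : ℕ, 1 ≤ τ ∧ τ ≤ B ∧ x.den = τ * w ^ 2) ∨
          (Odd d ∧ ∃ τ s : ℕ, 1 ≤ τ ∧ τ ≤ B ∧ x.den = τ * s ∧
            Nat.Coprime s (τ * (k * a (Fin.last d)).natAbs)))}.ncard : ℕ) : ℝ) ≤
      C * (2 * (H : ℝ) + 1) ^ (d + 1) * (Real.log H) ^ (-c) := by
  classical
  obtain ⟨P, hP⟩ : ∃ P : Finset (ℤ × ℕ), P = Finset.Icc (-(B : ℤ)) B ×ˢ Finset.Icc 1 B := ⟨_, rfl⟩
  have key : ∀ p : ℤ × ℕ, ∃ C : ℝ, 0 < C ∧ (p ∈ P → ∀ H : ℕ, 2 ≤ H →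
      (((frS d B p H).ncard : ℕ) : ℝ) ≤
        C * (2 * (H : ℝ) + 1) ^ (d + 1) * (Real.log H) ^ (-c)) := by
    rintro ⟨k, τ⟩
    by_cases hpp : (k, τ) ∈ P
    · have hp' := hpp
      rw [hP, Finset.mem_product, Finset.mem_Icc, Finset.mem_Icc] at hp'
      obtain ⟨C, hC, h⟩ := hp (k, τ) (abs_le.2 hp'.1) hp'.2.1 hp'.2.2
      exact ⟨C, hC, fun _ => h⟩
    · exact ⟨1, one_pos, fun h => absurd h hpp⟩
  choose Cp hCp hH0 using key
  refine ⟨1 + ∑ p ∈ P, Cp p, by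
    have : 0 ≤ ∑ p ∈ P, Cp p := Finset.sum_nonneg fun p _ => (hCp p).le
    linarith, fun H hH => ?_⟩
  have hlog : 0 ≤ Real.log (H : ℝ) := Real.log_nonneg (by exact_mod_cast (by omega : 1 ≤ H))
  have hfin : (⋃ p ∈ P, frS d B p H).Finite := by
    have hbox : {a : Fin (d + 1) → ℤ | ∀ i, |a i| ≤ (H : ℤ)}.Finite := by
      refine (Set.Finite.pi (t := fun _ : Fin (d + 1) => Set.Icc (-(H : ℤ)) H)
        fun _ => Set.finite_Icc _ _).subset ?_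
      intro a ha i _
      exact abs_le.1 (ha i)
    refine hbox.subset ?_
    intro a ha
    simp only [Set.mem_iUnion] at ha
    obtain ⟨p, _, hp⟩ := ha
    exact hp.1
  have hsub : {a : Fin (d + 1) → ℤ | (∀ i, |a i| ≤ (H : ℤ)) ∧
      ∃ (k : ℤ) (x y : ℚ), k ≠ 0 ∧ |k| ≤ (B : ℤ) ∧
        (k : ℚ) * y ^ 2 = ∑ i, (a i : ℚ) * x ^ (i : ℕ) ∧
        ((Even d ∧ ∃ τ w : ℕ, 1 ≤ τ ∧ τ ≤ B ∧ x.den = τ * w ^ 2) ∨
          (Odd d ∧ ∃ τ s : ℕ, 1 ≤ τ ∧ τ ≤ B ∧ x.den = τ * s ∧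
            Nat.Coprime s (τ * (k * a (Fin.last d)).natAbs)))} ⊆ ⋃ p ∈ P, frS d B p H := by
    rintro a ⟨h1, k, x, y, hk0, hk, h4, h5⟩
    simp only [Set.mem_iUnion]
    rcases h5 with ⟨he, τ, w, ht1, ht2, h6⟩ | ⟨ho, τ, s, ht1, ht2, h6, h7⟩
    · refine ⟨(k, τ), ?_, h1, x, y, hk0, hk, h4, Or.inl ⟨he, w, h6⟩⟩
      rw [hP, Finset.mem_product, Finset.mem_Icc, Finset.mem_Icc]
      exact ⟨abs_le.1 hk, ht1, ht2⟩
    · refine ⟨(k, τ), ?_, h1, x, y, hk0, hk, h4, Or.inr ⟨ho, s, h6, h7⟩⟩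
      rw [hP, Finset.mem_product, Finset.mem_Icc, Finset.mem_Icc]
      exact ⟨abs_le.1 hk, ht1, ht2⟩
  have h1 := (Set.ncard_le_ncard hsub hfin).trans (P.set_ncard_biUnion_le fun p => frS d B p H)
  have h2 : (((∑ p ∈ P, (frS d B p H).ncard) : ℕ) : ℝ) ≤
      ∑ p ∈ P, Cp p * ((2 * (H : ℝ) + 1) ^ (d + 1) * (Real.log H) ^ (-c)) := by
    push_cast
    refine Finset.sum_le_sum fun p hp => ?_
    refine (hH0 p hp H hH).trans (le_of_eq ?_)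
    ring
  rw [← Finset.sum_mul] at h2
  have h3 : (∑ p ∈ P, Cp p) * ((2 * (H : ℝ) + 1) ^ (d + 1) * (Real.log H) ^ (-c)) ≤
      (1 + ∑ p ∈ P, Cp p) * (2 * (H : ℝ) + 1) ^ (d + 1) * (Real.log H) ^ (-c) := by
    have h4 : 0 ≤ (2 * (H : ℝ) + 1) ^ (d + 1) * (Real.log H) ^ (-c) := by positivity
    have h5 : (1 + ∑ p ∈ P, Cp p) * (2 * (H : ℝ) + 1) ^ (d + 1) * (Real.log H) ^ (-c) =
      (2 * (H : ℝ) + 1) ^ (d + 1) * (Real.log H) ^ (-c) +
      (∑ p ∈ P, Cp p) * ((2 * (H : ℝ) + 1) ^ (d + 1) * (Real.log H) ^ (-c)) := by ring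
    rw [h5]
    linarith
  exact le_trans (by exact_mod_cast h1) (h2.trans h3)

/-- rational points with restricted denominators: the rate; the exponent `c` depends on `d` only -/
theorem density_rate_s (d : ℕ) (hd : 2 ≤ d) : ∃ c : ℝ, 0 < c ∧ ∀ B : ℕ, ∃ C : ℝ, 0 < C ∧
    ∀ H : ℕ, 2 ≤ H →
    (({a : Fin (d + 1) → ℤ | (∀ i, |a i| ≤ (H : ℤ)) ∧
      ∃ (k : ℤ) (x y : ℚ), k ≠ 0 ∧ |k| ≤ (B : ℤ) ∧
        (k : ℚ) * y ^ 2 = ∑ i, (a i : ℚ) * x ^ (i : ℕ) ∧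
        ((Even d ∧ ∃ τ w : ℕ, 1 ≤ τ ∧ τ ≤ B ∧ x.den = τ * w ^ 2) ∨
          (Odd d ∧ ∃ τ s : ℕ, 1 ≤ τ ∧ τ ≤ B ∧ x.den = τ * s ∧
            Nat.Coprime s (τ * (k * a (Fin.last d)).natAbs)))}.ncard : ℕ) : ℝ) ≤
      C * (2 * (H : ℝ) + 1) ^ (d + 1) * (Real.log H) ^ (-c) := by
  rcases Nat.even_or_odd d with h | h
  · refine ⟨min (1 / 64) 1, by positivity, fun B => ?_⟩
    exact fr_sum d B _ fun p h1 h2 h3 => fr_pair_even d B hd h p.1 p.2 h1 h2 h3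
  · obtain ⟨m, rfl⟩ : ∃ m, d = m + 1 := ⟨d - 1, by omega⟩
    have hm : Even m := by
      rcases Nat.even_or_odd m with h' | h'
      · exact h'
      · obtain ⟨r, hr⟩ := h'
        obtain ⟨s, hs⟩ := h
        omega
    have h2 : 2 ≤ m := by
      obtain ⟨r, hr⟩ := hm
      omega
    obtain ⟨C0, c0, hC0, hc0, hmain⟩ := odd_main_r m hm h2
    refine ⟨min c0 1, by positivity, fun B => ?_⟩
    have hO := fr_core (m + 1) (by omega) HasO C0 c0 hC0 hc0 hmain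
    exact fr_sum (m + 1) B _ fun p h1 h3 h4 => fr_pair_odd (m + 1) B h _ hO p.1 p.2 h1 h3 h4

end Pool.Agent.Helper38.DZR
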