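import Mathlib

set_option autoImplicit false

/-!
DZR-01 SelAbs (MP_d88658_nt, rate for Helper32/DZ). Selberg's upper bound sieve for events with real densities.

PROOF: adapt `Pool/Agent/Helper9/Selberg.lean` (copy the file, no import needed; it is the case `ω p = ρ p / p`). Put
`w D = ∏_(p ∈ D) ω p`, `g D = ∏_(p ∈ D) ω p / (1 - ω p)`, `G = ∑_(D ∈ fam S R) g D`,
`lam D = (-1)^|D| / (w D * G) * ∑_(K ∈ fam, D ⊆ K) g K`. Then `lam ∅ = 1`, `|lam D| ≤ 1 / w D ≤ ∏_(p ∈ D) p^2 ≤ R^2`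
(`h1`), `∑_(D,E) lam D lam E w (D ∪ E) = 1 / G`, the family `fam` is closed under subsets and has at most `R` elements
(`∏_(p ∈ D) p ≤ R` are distinct integers). The indicator of `∀ p ∈ S, ¬ bad p s` is at most
`(∑_(D ∈ fam, ∀ p ∈ D, bad p s) lam D)^2`; expand: `≤ n / G + E (∑ |lam D|)^2 ≤ n / G + E (R * R^2)^2`, and `g D ≥ w D`, so
`G ≥ ∑_(D ∈ fam) w D ≥ 1` and `n / G ≤ n / ∑ w D`.
-/

namespace Pool.Agent.Helper38.DZR

/-- subsets of `S` with product at most `R` -/
def fam (S : Finset ℕ) (R : ℕ) : Finset (Finset ℕ) := S.powerset.filter fun D => ∏ p ∈ D, p ≤ R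

section

variable {P : Finset ℕ} {ω : ℕ → ℝ} {R : ℕ}

/-- local densities. -/
private noncomputable def w (ω : ℕ → ℝ) (D : Finset ℕ) : ℝ := ∏ p ∈ D, ω p

/-- Selberg's function `g`. -/
private noncomputable def g (ω : ℕ → ℝ) (D : Finset ℕ) : ℝ := ∏ p ∈ D, (ω p / (1 - ω p))

/-- the Selberg sum. -/
private noncomputable def G (P : Finset ℕ) (ω : ℕ → ℝ) (R : ℕ) : ℝ := ∑ D ∈ fam P R, g ω D

/-- the Selberg weights. -/
private noncomputable def lam (P : Finset ℕ) (ω : ℕ → ℝ) (R : ℕ) (D : Finset ℕ) : ℝ :=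
  (-1) ^ D.card * (1 / (w ω D * G P ω R)) * ∑ K ∈ (fam P R).filter (fun K => D ⊆ K), g ω K

private lemma mem_fam {D : Finset ℕ} : D ∈ fam P R ↔ D ⊆ P ∧ ∏ p ∈ D, p ≤ R := by
  unfold fam
  rw [Finset.mem_filter, Finset.mem_powerset]

private lemma fam_down (hP : ∀ p ∈ P, p.Prime) {D K : Finset ℕ} (hD : D ∈ fam P R) (hK : K ⊆ D) :
    K ∈ fam P R := by
  rw [mem_fam] at hD ⊢
  refine ⟨hK.trans hD.1, le_trans ?_ hD.2⟩
  apply Finset.prod_le_prod_of_subset_of_one_le' hK
  intro p hp _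
  exact (hP p (hD.1 hp)).one_lt.le

private lemma w_pos (h1 : ∀ p ∈ P, 0 < ω p) {D : Finset ℕ} (hD : D ⊆ P) :
    0 < w ω D := by
  apply Finset.prod_pos
  intro p hp
  exact h1 p (hD hp)

private lemma g_pos (h1 : ∀ p ∈ P, 0 < ω p) (h2 : ∀ p ∈ P, ω p < 1)
    {D : Finset ℕ} (hD : D ⊆ P) : 0 < g ω D := by
  apply Finset.prod_pos
  intro p hp
  have e1 := h1 p (hD hp)
  have e2 := h2 p (hD hp)
  have e3 : (0 : ℝ) < 1 - ω p := by linarith
  positivity

private lemma empty_mem (hR : 1 ≤ R) : (∅ : Finset ℕ) ∈ fam P R := by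
  rw [mem_fam]; simp [hR]

private lemma G_pos (hR : 1 ≤ R) (h1 : ∀ p ∈ P, 0 < ω p) (h2 : ∀ p ∈ P, ω p < 1) : 0 < G P ω R := by
  unfold G
  apply Finset.sum_pos
  · intro D hD
    exact g_pos h1 h2 (mem_fam.1 hD).1
  · exact ⟨∅, empty_mem hR⟩

private lemma lam_empty (hR : 1 ≤ R) (h1 : ∀ p ∈ P, 0 < ω p) (h2 : ∀ p ∈ P, ω p < 1) :
    lam P ω R ∅ = 1 := by
  have := G_pos (R := R) hR h1 h2
  unfold lam
  have e : (fam P R).filter (fun K => (∅ : Finset ℕ) ⊆ K) = fam P R := by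
    apply Finset.filter_true_of_mem
    intro K _; exact Finset.empty_subset K
  rw [e]
  have e2 : w ω ∅ = 1 := by unfold w; simp
  rw [e2]
  have e3 : ∑ K ∈ fam P R, g ω K = G P ω R := rfl
  rw [e3]
  simp
  field_simp

private lemma abs_lam_le (hR : 1 ≤ R) (h1 : ∀ p ∈ P, 0 < ω p)
    (h2 : ∀ p ∈ P, ω p < 1) {D : Finset ℕ} (hD : D ∈ fam P R) :
    |lam P ω R D| ≤ 1 / w ω D := by
  have hG := G_pos (R := R) hR h1 h2
  have hw := w_pos h1 (mem_fam.1 hD).1
  unfold lam
  rw [abs_mul, abs_mul, abs_pow, abs_neg, abs_one, one_pow, one_mul]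
  have hS0 : 0 ≤ ∑ K ∈ (fam P R).filter (fun K => D ⊆ K), g ω K := by
    apply Finset.sum_nonneg
    intro K hK
    exact (g_pos h1 h2 (mem_fam.1 (Finset.mem_filter.1 hK).1).1).le
  have hS1 : ∑ K ∈ (fam P R).filter (fun K => D ⊆ K), g ω K ≤ G P ω R := by
    unfold G
    apply Finset.sum_le_sum_of_subset_of_nonneg (Finset.filter_subset _ _)
    intro K hK _
    exact (g_pos h1 h2 (mem_fam.1 hK).1).le
  rw [abs_of_nonneg hS0, abs_of_pos (by positivity)]
  rw [div_mul_eq_mul_div, one_mul, div_le_div_iff₀ (by positivity) hw]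
  nlinarith

private lemma sum_neg_one (L K : Finset ℕ) (hKL : K ⊆ L) :
    ∑ D ∈ (L.powerset).filter (fun D => K ⊆ D), (-1 : ℝ) ^ D.card =
      if L = K then (-1) ^ K.card else 0 := by
  have e : (L.powerset).filter (fun D => K ⊆ D) = ((L \ K).powerset).image (fun E => K ∪ E) := by
    ext D
    rw [Finset.mem_filter, Finset.mem_powerset, Finset.mem_image]
    constructor
    · rintro ⟨h1, h2⟩
      refine ⟨D \ K, ?_, ?_⟩
      · rw [Finset.mem_powerset]
        exact Finset.sdiff_subset_sdiff h1 (Finset.Subset.refl _)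
      · exact Finset.union_sdiff_of_subset h2
    · rintro ⟨E, hE, rfl⟩
      rw [Finset.mem_powerset] at hE
      refine ⟨Finset.union_subset hKL (hE.trans Finset.sdiff_subset), Finset.subset_union_left⟩
  have hinj : Set.InjOn (fun E => K ∪ E) (((L \ K).powerset : Finset (Finset ℕ)) : Set (Finset ℕ)) := by
    intro E hE F hF hEF
    rw [Finset.mem_coe, Finset.mem_powerset] at hE hF
    have d1 : Disjoint K E := Finset.disjoint_of_subset_right hE Finset.disjoint_sdiff
    have d2 : Disjoint K F := Finset.disjoint_of_subset_right hF Finset.disjoint_sdiff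
    have hEF' : K ∪ E = K ∪ F := hEF
    have := congrArg (fun S => S \ K) hEF'
    simp only [Finset.union_sdiff_cancel_left d1, Finset.union_sdiff_cancel_left d2] at this
    exact this
  rw [e, Finset.sum_image hinj]
  have e2 : ∀ E ∈ (L \ K).powerset, (-1 : ℝ) ^ (K ∪ E).card = (-1) ^ K.card * (-1) ^ E.card := by
    intro E hE
    rw [Finset.mem_powerset] at hE
    have d1 : Disjoint K E := Finset.disjoint_of_subset_right hE Finset.disjoint_sdiff
    rw [Finset.card_union_of_disjoint d1, pow_add]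
  rw [Finset.sum_congr rfl e2, ← Finset.mul_sum]
  have h3 : ∑ m ∈ (L \ K).powerset, (-1 : ℝ) ^ m.card = if L \ K = ∅ then 1 else 0 := by
    have := Finset.sum_powerset_neg_one_pow_card (x := L \ K)
    have h4 := congrArg (fun z : ℤ => (z : ℝ)) this
    push_cast at h4
    exact h4
  rw [h3]
  by_cases h : L = K
  · subst h; simp
  · have : L \ K ≠ ∅ := by
      intro h0
      rw [Finset.sdiff_eq_empty_iff_subset] at h0
      exact h (Finset.Subset.antisymm h0 hKL)
    simp [h, this]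

/-- diagonal values. -/
private lemma sum_w_lam (hP : ∀ p ∈ P, p.Prime) (hR : 1 ≤ R) (h1 : ∀ p ∈ P, 0 < ω p)
    (h2 : ∀ p ∈ P, ω p < 1) {K : Finset ℕ} (hK : K ∈ fam P R) :
    ∑ D ∈ (fam P R).filter (fun D => K ⊆ D), w ω D * lam P ω R D =
      (-1) ^ K.card * g ω K / G P ω R := by
  have hG := G_pos (R := R) hR h1 h2
  have e1 : ∀ D ∈ (fam P R).filter (fun D => K ⊆ D), w ω D * lam P ω R D =
      ∑ L ∈ fam P R, if D ⊆ L then (-1) ^ D.card * g ω L / G P ω R else 0 := by
    intro D hD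
    have hw := w_pos h1 (mem_fam.1 (Finset.mem_filter.1 hD).1).1
    unfold lam
    rw [← Finset.sum_filter]
    have : ∀ L ∈ (fam P R).filter (fun L => D ⊆ L), (-1 : ℝ) ^ D.card * g ω L / G P ω R =
      ((-1 : ℝ) ^ D.card / G P ω R) * g ω L := by
      intro L _; ring
    rw [Finset.sum_congr rfl this, ← Finset.mul_sum]
    field_simp
  rw [Finset.sum_congr rfl e1, Finset.sum_comm]
  have e2 : ∀ L ∈ fam P R, (∑ D ∈ (fam P R).filter (fun D => K ⊆ D),
      if D ⊆ L then (-1 : ℝ) ^ D.card * g ω L / G P ω R else 0) =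
      if L = K then (-1) ^ K.card * g ω K / G P ω R else 0 := by
    intro L hL
    rw [← Finset.sum_filter, Finset.filter_filter]
    by_cases hKL : K ⊆ L
    · have e3 : (fam P R).filter (fun D => K ⊆ D ∧ D ⊆ L) =
          (L.powerset).filter (fun D => K ⊆ D) := by
        ext D
        rw [Finset.mem_filter, Finset.mem_filter, Finset.mem_powerset]
        constructor
        · rintro ⟨_, h3, h4⟩; exact ⟨h4, h3⟩
        · rintro ⟨h3, h4⟩; exact ⟨fam_down hP hL h3, h4, h3⟩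
      rw [e3]
      have : ∀ D ∈ (L.powerset).filter (fun D => K ⊆ D), (-1 : ℝ) ^ D.card * g ω L / G P ω R =
        (g ω L / G P ω R) * (-1) ^ D.card := by
        intro D _; ring
      rw [Finset.sum_congr rfl this, ← Finset.mul_sum, sum_neg_one L K hKL]
      split_ifs with h
      · subst h; ring
      · ring
    · have e3 : (fam P R).filter (fun D => K ⊆ D ∧ D ⊆ L) = ∅ := by
        apply Finset.filter_false_of_mem
        rintro D _ ⟨h3, h4⟩
        exact hKL (h3.trans h4)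
      rw [e3, Finset.sum_empty]
      have : L ≠ K := by
        rintro rfl; exact hKL (Finset.Subset.refl _)
      simp [this]
  rw [Finset.sum_congr rfl e2]
  simp [hK]

private lemma w_union (h1 : ∀ p ∈ P, 0 < ω p)
    {D E : Finset ℕ} (hD : D ⊆ P) :
    w ω (D ∪ E) = w ω D * w ω E * ∑ K ∈ (D ∩ E).powerset, 1 / g ω K := by
  have e1 : ∑ K ∈ (D ∩ E).powerset, 1 / g ω K = 1 / w ω (D ∩ E) := by
    have : ∀ K ∈ (D ∩ E).powerset, 1 / g ω K = ∏ p ∈ K, ((1 - ω p) / ω p) := by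
      intro K _
      unfold g
      rw [one_div, ← Finset.prod_inv_distrib]
      apply Finset.prod_congr rfl
      intro p _
      rw [inv_div]
    rw [Finset.sum_congr rfl this, ← Finset.prod_one_add]
    unfold w
    rw [one_div, ← Finset.prod_inv_distrib]
    apply Finset.prod_congr rfl
    intro p hp
    have hpP : p ∈ P := hD (Finset.mem_inter.1 hp).1
    have e3 : (0 : ℝ) < ω p := h1 p hpP
    field_simp
    ring
  have e4 : w ω (D ∪ E) * w ω (D ∩ E) = w ω D * w ω E := by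
    unfold w
    exact Finset.prod_union_inter
  have hw := w_pos h1 (Finset.inter_subset_left.trans hD : D ∩ E ⊆ P)
  rw [e1, ← e4]
  field_simp

/-- the quadratic form equals `1/G`. -/
private lemma quad (hP : ∀ p ∈ P, p.Prime) (hR : 1 ≤ R) (h1 : ∀ p ∈ P, 0 < ω p)
    (h2 : ∀ p ∈ P, ω p < 1) :
    ∑ D ∈ fam P R, ∑ E ∈ fam P R, lam P ω R D * lam P ω R E * w ω (D ∪ E) = 1 / G P ω R := by
  have hG := G_pos (R := R) hR h1 h2
  have e1 : ∀ D ∈ fam P R, ∀ E, lam P ω R D * lam P ω R E * w ω (D ∪ E) =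
      ∑ K ∈ fam P R, if (K ⊆ D ∧ K ⊆ E) then
        (w ω D * lam P ω R D) * (w ω E * lam P ω R E) * (1 / g ω K) else 0 := by
    intro D hD E
    rw [w_union h1 (mem_fam.1 hD).1, ← Finset.sum_filter]
    have e2 : (fam P R).filter (fun K => K ⊆ D ∧ K ⊆ E) = (D ∩ E).powerset := by
      ext K
      rw [Finset.mem_filter, Finset.mem_powerset, Finset.subset_inter_iff]
      constructor
      · rintro ⟨_, h⟩; exact h
      · rintro h; exact ⟨fam_down hP hD h.1, h⟩
    rw [e2, ← Finset.mul_sum]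
    ring
  have e3 : ∑ D ∈ fam P R, ∑ E ∈ fam P R, lam P ω R D * lam P ω R E * w ω (D ∪ E) =
      ∑ D ∈ fam P R, ∑ E ∈ fam P R, ∑ K ∈ fam P R, if (K ⊆ D ∧ K ⊆ E) then
        (w ω D * lam P ω R D) * (w ω E * lam P ω R E) * (1 / g ω K) else 0 := by
    apply Finset.sum_congr rfl
    intro D hD
    apply Finset.sum_congr rfl
    intro E _
    exact e1 D hD E
  rw [e3]
  have e4 : ∑ D ∈ fam P R, ∑ E ∈ fam P R, ∑ K ∈ fam P R, (if (K ⊆ D ∧ K ⊆ E) then
        (w ω D * lam P ω R D) * (w ω E * lam P ω R E) * (1 / g ω K) else 0) =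
      ∑ K ∈ fam P R, ∑ D ∈ fam P R, ∑ E ∈ fam P R, (if (K ⊆ D ∧ K ⊆ E) then
        (w ω D * lam P ω R D) * (w ω E * lam P ω R E) * (1 / g ω K) else 0) := by
    have : ∀ D ∈ fam P R, ∑ E ∈ fam P R, ∑ K ∈ fam P R, (if (K ⊆ D ∧ K ⊆ E) then
        (w ω D * lam P ω R D) * (w ω E * lam P ω R E) * (1 / g ω K) else 0) =
        ∑ K ∈ fam P R, ∑ E ∈ fam P R, (if (K ⊆ D ∧ K ⊆ E) then
        (w ω D * lam P ω R D) * (w ω E * lam P ω R E) * (1 / g ω K) else 0) := by
      intro D _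
      exact Finset.sum_comm
    rw [Finset.sum_congr rfl this]
    exact Finset.sum_comm
  rw [e4]
  have e5 : ∀ K ∈ fam P R, ∑ D ∈ fam P R, ∑ E ∈ fam P R, (if (K ⊆ D ∧ K ⊆ E) then
        (w ω D * lam P ω R D) * (w ω E * lam P ω R E) * (1 / g ω K) else 0) =
        g ω K / G P ω R ^ 2 := by
    intro K hK
    have hg := g_pos h1 h2 (mem_fam.1 hK).1
    have e6 : ∑ D ∈ fam P R, ∑ E ∈ fam P R, (if (K ⊆ D ∧ K ⊆ E) then
        (w ω D * lam P ω R D) * (w ω E * lam P ω R E) * (1 / g ω K) else 0) =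
        (∑ D ∈ (fam P R).filter (fun D => K ⊆ D), w ω D * lam P ω R D) *
        (∑ E ∈ (fam P R).filter (fun E => K ⊆ E), w ω E * lam P ω R E) * (1 / g ω K) := by
      rw [Finset.sum_mul_sum, Finset.sum_mul, Finset.sum_filter]
      apply Finset.sum_congr rfl
      intro D _
      split_ifs with hKD
      · rw [Finset.sum_mul, Finset.sum_filter]
        apply Finset.sum_congr rfl
        intro E _
        simp [hKD]
      · apply Finset.sum_eq_zero
        intro E _
        simp [hKD]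
    rw [e6, sum_w_lam hP hR h1 h2 hK]
    have e7 : ((-1 : ℝ) ^ K.card) * ((-1 : ℝ) ^ K.card) = 1 := by
      rw [← mul_pow]; simp
    field_simp
    linear_combination e7
  rw [Finset.sum_congr rfl e5, ← Finset.sum_div]
  have e8 : ∑ K ∈ fam P R, g ω K = G P ω R := rfl
  rw [e8]
  field_simp

private lemma prod_inj (hP : ∀ p ∈ P, p.Prime) {D E : Finset ℕ} (hD : D ⊆ P) (hE : E ⊆ P)
    (h : ∏ p ∈ D, p = ∏ p ∈ E, p) : D = E := by
  have key : ∀ D : Finset ℕ, D ⊆ P → (∏ p ∈ D, p).primeFactors = D := by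
    intro D hD
    exact Nat.primeFactors_prod (fun p hp => hP p (hD hp))
  rw [← key D hD, ← key E hE, h]

private lemma card_fam_le (hP : ∀ p ∈ P, p.Prime) : (fam P R).card ≤ R := by
  have h : (fam P R).card ≤ (Finset.Icc 1 R).card := by
    apply Finset.card_le_card_of_injOn (fun D => ∏ p ∈ D, p)
    · intro D hD
      rw [Finset.mem_coe, mem_fam] at hD
      rw [Finset.mem_coe, Finset.mem_Icc]
      refine ⟨?_, hD.2⟩
      apply Finset.one_le_prod'
      intro p hp
      exact (hP p (hD.1 hp)).one_lt.le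
    · intro D hD E hE h
      rw [Finset.mem_coe, mem_fam] at hD hE
      exact prod_inj hP hD.1 hE.1 h
  simpa using h

end

open Classical in
theorem selberg_abs {α : Type} (S : Finset ℕ) (hS : ∀ p ∈ S, p.Prime) (R : ℕ) (hR : 1 ≤ R)
    (ω : ℕ → ℝ) (h1 : ∀ p ∈ S, 1 / (p : ℝ) ^ 2 ≤ ω p) (h2 : ∀ p ∈ S, ω p < 1)
    (X : Finset α) (bad : ℕ → α → Prop) (n E : ℝ) (hn : 0 ≤ n) (hE : 0 ≤ E)
    (hN : ∀ D ∈ fam S R, ∀ D' ∈ fam S R,
      |((X.filter fun s => ∀ p ∈ D ∪ D', bad p s).card : ℝ) - n * ∏ p ∈ D ∪ D', ω p| ≤ E) :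
    ((X.filter fun s => ∀ p ∈ S, ¬ bad p s).card : ℝ) ≤
      n / (∑ D ∈ fam S R, ∏ p ∈ D, ω p) + (R : ℝ) ^ 6 * E := by
  have hp0 : ∀ p ∈ S, (0 : ℝ) < p := fun p hp => by exact_mod_cast (hS p hp).pos
  have h1' : ∀ p ∈ S, 0 < ω p := fun p hp => lt_of_lt_of_le (by have := hp0 p hp; positivity) (h1 p hp)
  have hG := G_pos (R := R) hR h1' h2
  -- step 1
  have step1 : ((X.filter (fun s => ∀ p ∈ S, ¬ bad p s)).card : ℝ) ≤
      ∑ s ∈ X, (∑ D ∈ fam S R, if (∀ p ∈ D, bad p s) then lam S ω R D else 0) ^ 2 := by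
    rw [Finset.card_filter]
    push_cast
    apply Finset.sum_le_sum
    intro s _
    split_ifs with hs
    · have : (∑ D ∈ fam S R, if (∀ p ∈ D, bad p s) then lam S ω R D else 0) = lam S ω R ∅ := by
        rw [Finset.sum_eq_single_of_mem ∅ (empty_mem hR)]
        · simp
        · intro D hD hne
          obtain ⟨p, hp⟩ := Finset.nonempty_of_ne_empty hne
          rw [if_neg]
          intro h
          exact hs p ((mem_fam.1 hD).1 hp) (h p hp)
      rw [this, lam_empty hR h1' h2]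
      simp
    · positivity
  -- step 2 : expand
  have step2 : ∑ s ∈ X, (∑ D ∈ fam S R, if (∀ p ∈ D, bad p s) then lam S ω R D else 0) ^ 2 =
      ∑ D ∈ fam S R, ∑ E ∈ fam S R, lam S ω R D * lam S ω R E *
        ((X.filter (fun s => ∀ p ∈ D ∪ E, bad p s)).card : ℝ) := by
    have e1 : ∀ s ∈ X, (∑ D ∈ fam S R, if (∀ p ∈ D, bad p s) then lam S ω R D else 0) ^ 2 =
        ∑ D ∈ fam S R, ∑ E ∈ fam S R, lam S ω R D * lam S ω R E *
          (if (∀ p ∈ D ∪ E, bad p s) then 1 else 0) := by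
      intro s _
      rw [sq, Finset.sum_mul_sum]
      apply Finset.sum_congr rfl
      intro D _
      apply Finset.sum_congr rfl
      intro E _
      by_cases hD : ∀ p ∈ D, bad p s
      · by_cases hE : ∀ p ∈ E, bad p s
        · have hU : ∀ p ∈ D ∪ E, bad p s := by
            intro p hp
            rcases Finset.mem_union.1 hp with h | h
            · exact hD p h
            · exact hE p h
          rw [if_pos hD, if_pos hE, if_pos hU, mul_one]
        · have hU : ¬ ∀ p ∈ D ∪ E, bad p s := by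
            intro h; exact hE (fun p hp => h p (Finset.mem_union_right _ hp))
          rw [if_neg hE, if_neg hU]; simp
      · have hU : ¬ ∀ p ∈ D ∪ E, bad p s := by
          intro h; exact hD (fun p hp => h p (Finset.mem_union_left _ hp))
        rw [if_neg hD, if_neg hU]; simp
    rw [Finset.sum_congr rfl e1, Finset.sum_comm]
    apply Finset.sum_congr rfl
    intro D _
    rw [Finset.sum_comm]
    apply Finset.sum_congr rfl
    intro E _
    rw [← Finset.mul_sum]
    congr 1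
    rw [Finset.card_filter]
    push_cast
    rfl
  -- the weights are at most R ^ 2
  have hlam : ∀ D ∈ fam S R, |lam S ω R D| ≤ (R : ℝ) ^ 2 := by
    intro D hD
    have hDS := (mem_fam.1 hD).1
    have hw := w_pos h1' hDS
    refine (abs_lam_le hR h1' h2 hD).trans ?_
    have hpr : (∏ p ∈ D, (p : ℝ)) ≤ (R : ℝ) := by
      have h' : ((∏ p ∈ D, p : ℕ) : ℝ) ≤ (R : ℝ) := Nat.cast_le.2 (mem_fam.1 hD).2
      rw [Nat.cast_prod] at h'
      exact h'
    have hpr0 : (0 : ℝ) < ∏ p ∈ D, (p : ℝ) := Finset.prod_pos fun p hp => hp0 p (hDS hp)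
    have hw2 : 1 / (∏ p ∈ D, (p : ℝ)) ^ 2 ≤ w ω D := by
      unfold w
      rw [← Finset.prod_pow, one_div, ← Finset.prod_inv_distrib]
      refine Finset.prod_le_prod (fun p hp => by have := hp0 p (hDS hp); positivity) (fun p hp => ?_)
      rw [← one_div]
      exact h1 p (hDS hp)
    calc 1 / w ω D ≤ (∏ p ∈ D, (p : ℝ)) ^ 2 := by
          rw [div_le_iff₀ hw]
          rw [div_le_iff₀ (by positivity)] at hw2
          linarith
      _ ≤ (R : ℝ) ^ 2 := pow_le_pow_left₀ hpr0.le hpr 2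
  -- step 3 : bound the terms
  have step3 : ∀ D ∈ fam S R, ∀ D' ∈ fam S R, lam S ω R D * lam S ω R D' *
        ((X.filter (fun s => ∀ p ∈ D ∪ D', bad p s)).card : ℝ) ≤
        n * (lam S ω R D * lam S ω R D' * w ω (D ∪ D')) + (R : ℝ) ^ 4 * E := by
    intro D hD D' hD'
    have hU := hN D hD D' hD'
    set N : ℝ := ((X.filter (fun s => ∀ p ∈ D ∪ D', bad p s)).card : ℝ) with hNdef
    have e1 : lam S ω R D * lam S ω R D' * N = n * (lam S ω R D * lam S ω R D' * w ω (D ∪ D')) +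
        lam S ω R D * lam S ω R D' * (N - n * w ω (D ∪ D')) := by ring
    rw [e1]
    have e2 : lam S ω R D * lam S ω R D' * (N - n * w ω (D ∪ D')) ≤ (R : ℝ) ^ 4 * E := by
      calc lam S ω R D * lam S ω R D' * (N - n * w ω (D ∪ D')) ≤
            |lam S ω R D * lam S ω R D' * (N - n * w ω (D ∪ D'))| := le_abs_self _
        _ = |lam S ω R D| * |lam S ω R D'| * |N - n * w ω (D ∪ D')| := by rw [abs_mul, abs_mul]
        _ ≤ (R : ℝ) ^ 2 * (R : ℝ) ^ 2 * E := by
            apply mul_le_mul _ hU (abs_nonneg _) (by positivity)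
            exact mul_le_mul (hlam D hD) (hlam D' hD') (abs_nonneg _) (by positivity)
        _ = (R : ℝ) ^ 4 * E := by ring
    linarith
  have hcard : ((fam S R).card : ℝ) ≤ R := by exact_mod_cast card_fam_le hS
  have hwG : (∑ D ∈ fam S R, ∏ p ∈ D, ω p) ≤ G S ω R := by
    unfold G g
    refine Finset.sum_le_sum fun D hD => ?_
    have hDS := (mem_fam.1 hD).1
    refine Finset.prod_le_prod (fun p hp => (h1' p (hDS hp)).le) (fun p hp => ?_)
    have e1 := h1' p (hDS hp)
    have e2 := h2 p (hDS hp)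
    rw [le_div_iff₀ (by linarith)]
    nlinarith
  have hw0 : (0 : ℝ) < ∑ D ∈ fam S R, ∏ p ∈ D, ω p := by
    refine Finset.sum_pos (fun D hD => ?_) ⟨∅, empty_mem hR⟩
    exact Finset.prod_pos fun p hp => h1' p ((mem_fam.1 hD).1 hp)
  calc ((X.filter (fun s => ∀ p ∈ S, ¬ bad p s)).card : ℝ) ≤ _ := step1
    _ = _ := step2
    _ ≤ ∑ D ∈ fam S R, ∑ D' ∈ fam S R, (n * (lam S ω R D * lam S ω R D' * w ω (D ∪ D')) +
          (R : ℝ) ^ 4 * E) := by
        apply Finset.sum_le_sum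
        intro D hD
        apply Finset.sum_le_sum
        intro D' hD'
        exact step3 D hD D' hD'
    _ = n * (∑ D ∈ fam S R, ∑ D' ∈ fam S R, lam S ω R D * lam S ω R D' * w ω (D ∪ D')) +
        (fam S R).card * ((fam S R).card * ((R : ℝ) ^ 4 * E)) := by
        have e : ∀ D ∈ fam S R, ∑ D' ∈ fam S R, (n * (lam S ω R D * lam S ω R D' * w ω (D ∪ D')) +
            (R : ℝ) ^ 4 * E) = n * (∑ D' ∈ fam S R, lam S ω R D * lam S ω R D' * w ω (D ∪ D')) +
            (fam S R).card * ((R : ℝ) ^ 4 * E) := by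
          intro D _
          rw [Finset.sum_add_distrib, Finset.sum_const, nsmul_eq_mul, Finset.mul_sum]
        rw [Finset.sum_congr rfl e, Finset.sum_add_distrib, Finset.sum_const, nsmul_eq_mul,
          Finset.mul_sum]
    _ = n / G S ω R + (fam S R).card * ((fam S R).card * ((R : ℝ) ^ 4 * E)) := by
        rw [quad hS hR h1' h2]; ring
    _ ≤ n / (∑ D ∈ fam S R, ∏ p ∈ D, ω p) + (R : ℝ) ^ 6 * E := by
        have e1 : n / G S ω R ≤ n / (∑ D ∈ fam S R, ∏ p ∈ D, ω p) :=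
          div_le_div_of_nonneg_left hn hw0 hwG
        have e2 : ((fam S R).card : ℝ) * ((fam S R).card * ((R : ℝ) ^ 4 * E)) ≤
            (R : ℝ) * (R * ((R : ℝ) ^ 4 * E)) := by
          apply mul_le_mul hcard _ (by positivity) (by positivity)
          exact mul_le_mul_of_nonneg_right hcard (by positivity)
        have e3 : (R : ℝ) ^ 6 * E = (R : ℝ) * (R * ((R : ℝ) ^ 4 * E)) := by ring
        rw [e3]
        exact add_le_add e1 e2

end Pool.Agent.Helper38.DZR
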