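import Pool.Agent.Helper32.DZ.SumCells

set_option autoImplicit false

/-!
DZR-15 SumCellsB. Sums over cells with any base.

PROOF: as `sum_cells` in `Pool/Agent/Helper32/DZ/SumCells.lean`: for given `σ` and `l = κ last - κ 0` the vector
`κ i - κ 0 ∈ [0, l]` determines `κ` (as `∑ κ = σ`), so there are at most `(l+1)^(m+1)` cells, and
`∑_l (l+1)^(m+1) β^l` converges.
`card_cells`: all entries lie in `[-X, 2c + X]`: `κ 0 ≥ -X` (from `2^(-(2 κ 0)) ≤ 2^X`), `κ i ≤ κ last ≤ 2c - κ 0`.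
-/

namespace Pool.Agent.Helper38.DZR

private theorem scb_summable (m : ℕ) (β : ℝ) (h0 : 0 < β) (h1 : β < 1) :
    Summable fun l : ℕ => ((l : ℝ) + 1) ^ (m + 1) * β ^ l := by
  have h2 : Summable fun l : ℕ => ((l : ℝ)) ^ (m + 1) * β ^ l :=
    summable_pow_mul_geometric_of_norm_lt_one (m + 1) (by
      rw [Real.norm_eq_abs, abs_of_pos h0]
      exact h1)
  have h3 := ((summable_nat_add_iff 1).mpr h2).mul_left (1 / β : ℝ)
  refine h3.congr fun l => ?_
  rw [pow_succ β l]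
  push_cast
  field_simp

private theorem scb_card_fib (m : ℕ) (K : Finset (Fin (m + 1) → ℤ)) (σ : ℤ)
    (hK : ∀ κ ∈ K, Monotone κ ∧ ∑ i, κ i = σ) (l : ℕ)
    (hl : ∀ κ ∈ K, (κ (Fin.last m) - κ 0).toNat = l) : K.card ≤ (l + 1) ^ (m + 1) := by
  have h1 : (Fintype.piFinset fun _ : Fin (m + 1) => Finset.range (l + 1)).card = (l + 1) ^ (m + 1) := by
    rw [Fintype.card_piFinset]
    simp
  rw [← h1]
  refine Finset.card_le_card_of_injOn (fun κ i => (κ i - κ 0).toNat) ?_ ?_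
  · intro κ hκ
    rw [Finset.mem_coe, Fintype.mem_piFinset]
    intro i
    rw [Finset.mem_range]
    have hm := (hK κ hκ).1
    have h2 : κ i ≤ κ (Fin.last m) := hm (Fin.le_last i)
    have h3 := hl κ hκ
    show (κ i - κ 0).toNat < l + 1
    omega
  · intro κ hκ κ' hκ' he
    have hm := (hK κ hκ).1
    have hm' := (hK κ' hκ').1
    have hs := (hK κ hκ).2
    have hs' := (hK κ' hκ').2
    have hd : ∀ i, κ i - κ 0 = κ' i - κ' 0 := by
      intro i
      have h2 : κ 0 ≤ κ i := hm (Fin.zero_le i)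
      have h3 : κ' 0 ≤ κ' i := hm' (Fin.zero_le i)
      have h4 : (κ i - κ 0).toNat = (κ' i - κ' 0).toNat := congrFun he i
      omega
    have h5 : ∑ i, (κ i - κ 0) = ∑ i, (κ' i - κ' 0) := Finset.sum_congr rfl fun i _ => hd i
    rw [Finset.sum_sub_distrib, Finset.sum_sub_distrib, hs, hs', Finset.sum_const, Finset.sum_const,
      Finset.card_univ, Fintype.card_fin, nsmul_eq_mul, nsmul_eq_mul] at h5
    have h6 : ((m + 1 : ℕ) : ℤ) * κ 0 = ((m + 1 : ℕ) : ℤ) * κ' 0 := by linarith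
    have h7 : κ 0 = κ' 0 := mul_left_cancel₀ (by positivity) h6
    funext i
    have := hd i
    omega

theorem sum_cells_b (m : ℕ) (β : ℝ) (h0 : 0 < β) (h1 : β < 1) : ∃ C : ℝ, 0 < C ∧
    ∀ (K : Finset (Fin (m + 1) → ℤ)) (σ : ℤ), (∀ κ ∈ K, Monotone κ ∧ ∑ i, κ i = σ) →
    ∑ κ ∈ K, β ^ (κ (Fin.last m) - κ 0) ≤ C := by
  classical
  have hnn : 0 ≤ ∑' k : ℕ, ((k : ℝ) + 1) ^ (m + 1) * β ^ k := tsum_nonneg fun k => by positivity
  refine ⟨(∑' k : ℕ, ((k : ℝ) + 1) ^ (m + 1) * β ^ k) + 1, by linarith, fun K σ hK => ?_⟩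
  obtain ⟨l, hl⟩ : ∃ l : (Fin (m + 1) → ℤ) → ℕ, l = fun κ => (κ (Fin.last m) - κ 0).toNat := ⟨_, rfl⟩
  have hle : ∀ κ, l κ = (κ (Fin.last m) - κ 0).toNat := fun κ => by rw [hl]
  have h2 : ∑ κ ∈ K, β ^ (κ (Fin.last m) - κ 0) = ∑ κ ∈ K, β ^ (l κ) := by
    refine Finset.sum_congr rfl fun κ hκ => ?_
    have h3 : κ (Fin.last m) - κ 0 = ((l κ : ℕ) : ℤ) := by
      have := (hK κ hκ).1 (Fin.zero_le (Fin.last m))
      rw [hle]
      omega
    rw [h3, zpow_natCast]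
  rw [h2, ← Finset.sum_fiberwise_of_maps_to (s := K) (t := K.image l) (g := l)
    (fun κ hκ => Finset.mem_image_of_mem l hκ)]
  have h3 : ∀ j ∈ K.image l, (∑ κ ∈ K with l κ = j, β ^ (l κ)) ≤
      ((j : ℝ) + 1) ^ (m + 1) * β ^ j := by
    intro j _
    have h4 : (∑ κ ∈ K with l κ = j, β ^ (l κ)) =
        ((K.filter fun κ => l κ = j).card : ℝ) * β ^ j := by
      rw [← nsmul_eq_mul, ← Finset.sum_const]
      refine Finset.sum_congr rfl fun κ hκ => ?_
      rw [(Finset.mem_filter.mp hκ).2]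
    rw [h4]
    have h5 := scb_card_fib m (K.filter fun κ => l κ = j) σ
      (fun κ hκ => ⟨(hK κ (Finset.mem_filter.mp hκ).1).1, (hK κ (Finset.mem_filter.mp hκ).1).2⟩) j
      (fun κ hκ => by rw [← hle]; exact (Finset.mem_filter.mp hκ).2)
    refine mul_le_mul_of_nonneg_right ?_ (by positivity)
    exact_mod_cast h5
  refine (Finset.sum_le_sum h3).trans ?_
  have h4 := (scb_summable m β h0 h1).sum_le_tsum (K.image l) fun k _ => by positivity
  linarith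

theorem card_cells (m c X : ℕ) (K : Finset (Fin (m + 1) → ℤ))
    (h : ∀ κ ∈ K, Monotone κ ∧ κ 0 + κ (Fin.last m) ≤ 2 * (c : ℤ) ∧
      (2 : ℝ) ^ (-(2 * κ 0)) ≤ (2 : ℝ) ^ X) :
    K.card ≤ (2 * X + 2 * c + 1) ^ (m + 1) := by
  classical
  have h1 : (Fintype.piFinset fun _ : Fin (m + 1) =>
      Finset.Icc (-(X : ℤ)) (2 * c + X)).card = (2 * X + 2 * c + 1) ^ (m + 1) := by
    rw [Fintype.card_piFinset, Finset.prod_const, Finset.card_univ, Fintype.card_fin, Int.card_Icc]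
    congr 1
    omega
  rw [← h1]
  refine Finset.card_le_card fun κ hκ => ?_
  rw [Fintype.mem_piFinset]
  intro i
  obtain ⟨hm, hc, hx⟩ := h κ hκ
  have h2 : κ 0 ≤ κ i := hm (Fin.zero_le i)
  have h3 : κ i ≤ κ (Fin.last m) := hm (Fin.le_last i)
  have h4 : -(2 * κ 0) ≤ (X : ℤ) := by
    rw [← zpow_natCast (2 : ℝ) X] at hx
    exact (zpow_le_zpow_iff_right₀ (by norm_num)).1 hx
  rw [Finset.mem_Icc]
  omega

end Pool.Agent.Helper38.DZR
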