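import Pool.Agent.Helper32.DZ.SymDens

set_option autoImplicit false

/-!
DZR-06 SymDensU. Bad symmetric matrices modulo `p`, general multiplier.

PROOF: copy `Pool/Agent/Helper32/DZ/SymDens.lean` (its private lemmas too) with the unit `u : ZMod p` instead of
`(ε : ZMod p)`, `ε = ± 1`; only `u ≠ 0` is used.
-/

open Matrix Pool.Agent.Helper32.DZ

namespace Pool.Agent.Helper38.DZR

section aux

variable {F : Type}

/-- glue the first row to the rest -/
private def glue {r : ℕ} (t : F) (c : Fin r → F) (y : UpIdx r → F) : UpIdx (r + 1) → F :=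
  fun q => if hi : q.1.1 = 0 then (if hj : q.1.2 = 0 then t else c (q.1.2.pred hj))
    else y ⟨(q.1.1.pred hi, q.1.2.pred (by
      intro h
      apply hi
      have h1 := q.2
      rw [h] at h1
      exact Fin.le_zero_iff.1 h1)), by
        simpa using q.2⟩

private theorem glue_zz {r : ℕ} (t : F) (c : Fin r → F) (y : UpIdx r → F)
    (h : (0 : Fin (r + 1)) ≤ 0) : glue t c y ⟨(0, 0), h⟩ = t := by
  simp [glue]

private theorem glue_zs {r : ℕ} (t : F) (c : Fin r → F) (y : UpIdx r → F) (j : Fin r)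
    (h : (0 : Fin (r + 1)) ≤ j.succ) : glue t c y ⟨(0, j.succ), h⟩ = c j := by
  simp [glue]

private theorem glue_ss {r : ℕ} (t : F) (c : Fin r → F) (y : UpIdx r → F) (i j : Fin r)
    (h : i.succ ≤ j.succ) : glue t c y ⟨(i.succ, j.succ), h⟩ =
      y ⟨(i, j), Fin.succ_le_succ_iff.1 h⟩ := by
  simp [glue]

/-- the equivalence -/
private def gE (r : ℕ) : F × ((Fin r → F) × (UpIdx r → F)) ≃ (UpIdx (r + 1) → F) where
  toFun z := glue z.1 z.2.1 z.2.2
  invFun x := (x ⟨(0, 0), le_rfl⟩, (fun j => x ⟨(0, j.succ), Fin.zero_le _⟩),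
    fun q => x ⟨(q.1.1.succ, q.1.2.succ), Fin.succ_le_succ_iff.2 q.2⟩)
  left_inv := by
    rintro ⟨t, c, y⟩
    simp only [glue_zz, glue_zs, glue_ss]
  right_inv := by
    intro x
    funext q
    obtain ⟨⟨i, j⟩, hij⟩ := q
    induction i using Fin.cases with
    | zero =>
      induction j using Fin.cases with
      | zero => exact glue_zz _ _ _ _
      | succ j => exact glue_zs _ _ _ _ _
    | succ i =>
      induction j using Fin.cases with
      | zero =>
        exact absurd (Fin.le_zero_iff.1 hij) (Fin.succ_ne_zero i)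
      | succ j => exact glue_ss _ _ _ _ _ _

private theorem sym_ss {r : ℕ} (t : F) (c : Fin r → F) (y : UpIdx r → F) :
    (toSym (glue t c y)).submatrix Fin.succ Fin.succ = toSym y := by
  ext i j
  simp only [toSym, Matrix.submatrix_apply, Matrix.of_apply]
  have h1 : min i.succ j.succ = (min i j).succ := (Fin.strictMono_succ.monotone.map_min).symm
  have h2 : max i.succ j.succ = (max i j).succ := (Fin.strictMono_succ.monotone.map_max).symm
  have h3 : (⟨(min i.succ j.succ, max i.succ j.succ), min_le_max⟩ : UpIdx (r + 1)) =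
      ⟨((min i j).succ, (max i j).succ), Fin.succ_le_succ_iff.2 min_le_max⟩ := by
    apply Subtype.ext
    exact Prod.ext h1 h2
  rw [h3, glue_ss]

private theorem sym_row {r : ℕ} (t t' : F) (c : Fin r → F) (y : UpIdx r → F) (i : Fin r)
    (j : Fin (r + 1)) : toSym (glue t c y) i.succ j = toSym (glue t' c y) i.succ j := by
  simp only [toSym, Matrix.of_apply]
  generalize hq : (⟨(min i.succ j, max i.succ j), min_le_max⟩ : UpIdx (r + 1)) = q
  have hq2 : q.1.2 ≠ 0 := by
    rw [← hq]
    intro h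
    have h1 : i.succ ≤ max i.succ j := le_max_left _ _
    have h2 : max i.succ j = 0 := h
    rw [h2] at h1
    exact Fin.succ_ne_zero i (Fin.le_zero_iff.1 h1)
  simp only [glue, hq2, dite_false]

private theorem sym_row0 {r : ℕ} (t t' : F) (c : Fin r → F) (y : UpIdx r → F) (j : Fin r) :
    toSym (glue t c y) 0 j.succ = toSym (glue t' c y) 0 j.succ := by
  simp only [toSym, Matrix.of_apply]
  generalize hq : (⟨(min 0 j.succ, max 0 j.succ), min_le_max⟩ : UpIdx (r + 1)) = q
  have hq2 : q.1.2 ≠ 0 := by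
    rw [← hq]
    intro h
    have h1 : j.succ ≤ max 0 j.succ := le_max_right _ _
    have h2 : max 0 j.succ = 0 := h
    rw [h2] at h1
    exact Fin.succ_ne_zero j (Fin.le_zero_iff.1 h1)
  simp only [glue, hq2, dite_false]

private theorem sym_00 {r : ℕ} (t : F) (c : Fin r → F) (y : UpIdx r → F) :
    toSym (glue t c y) 0 0 = t := by
  simp only [toSym, Matrix.of_apply]
  have h3 : (⟨(min 0 0, max 0 0), min_le_max⟩ : UpIdx (r + 1)) = ⟨(0, 0), le_rfl⟩ := by
    apply Subtype.ext
    simp
  rw [h3, glue_zz]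

private theorem det_glue [CommRing F] {r : ℕ} (t : F) (c : Fin r → F) (y : UpIdx r → F) :
    (toSym (glue t c y)).det = t * (toSym y).det + (toSym (glue 0 c y)).det := by
  rw [Matrix.det_succ_row_zero, Matrix.det_succ_row_zero (toSym (glue 0 c y)),
    Fin.sum_univ_succ, Fin.sum_univ_succ]
  rw [sym_00, sym_00]
  simp only [Fin.val_zero, pow_zero, one_mul, Fin.succAbove_zero, zero_mul, zero_add]
  rw [sym_ss]
  congr 1
  refine Finset.sum_congr rfl fun j _ => ?_
  rw [sym_row0 t 0 c y j]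
  congr 2
  ext a b
  simp only [Matrix.submatrix_apply]
  exact sym_row t 0 c y a _

end aux

open scoped Classical in
/-- number of elements with a property -/
private noncomputable def cnt {α : Type} [Fintype α] (P : α → Prop) : ℕ :=
  (Finset.univ.filter P).card

private theorem cnt_congr {α : Type} [Fintype α] {P Q : α → Prop} (h : ∀ a, P a ↔ Q a) :
    cnt P = cnt Q := by
  have : P = Q := funext fun a => propext (h a)
  rw [this]

private theorem cnt_all {α : Type} [Fintype α] {P : α → Prop} (h : ∀ a, P a) :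
    cnt P = Fintype.card α := by
  classical
  unfold cnt
  rw [← Finset.card_univ]
  congr 1
  ext a
  simp [h a]

private theorem cnt_ne {F : Type} [Field F] [Fintype F] :
    (cnt fun a : F => a ≠ 0) = Fintype.card F - 1 := by
  classical
  have h1 : (cnt fun a : F => a ≠ 0) = (Finset.univ.erase (0 : F)).card := by
    unfold cnt
    congr 1
    ext a
    simp
  rw [h1, Finset.card_erase_of_mem (Finset.mem_univ _), Finset.card_univ]

private theorem count_glue {F : Type} [Fintype F] {r : ℕ} (k : ℕ) (Q : (UpIdx r → F) → Prop)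
    (R : (UpIdx (r + 1) → F) → Prop)
    (h : ∀ c y, Q y → k ≤ cnt fun t : F => R (glue t c y)) :
    k * (Fintype.card F ^ r * cnt Q) ≤ cnt R := by
  classical
  have h1 : cnt R =
      ∑ z : F × ((Fin r → F) × (UpIdx r → F)), if R (glue z.1 z.2.1 z.2.2) then 1 else 0 := by
    unfold cnt
    rw [Finset.card_filter]
    exact ((gE r).sum_comp (fun x => if R x then 1 else 0)).symm
  rw [h1, Fintype.sum_prod_type, Finset.sum_comm, Fintype.sum_prod_type]
  have h2 : k * (Fintype.card F ^ r * cnt Q) =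
      ∑ _c : Fin r → F, ∑ y : UpIdx r → F, if Q y then k else 0 := by
    unfold cnt
    rw [Finset.sum_const, Finset.card_univ, Fintype.card_fun, Fintype.card_fin, smul_eq_mul,
      ← Finset.sum_filter, Finset.sum_const, smul_eq_mul]
    ring
  rw [h2]
  refine Finset.sum_le_sum fun c _ => Finset.sum_le_sum fun y _ => ?_
  by_cases hQ : Q y
  · rw [if_pos hQ]
    refine (h c y hQ).trans (le_of_eq ?_)
    unfold cnt
    rw [Finset.card_filter]
  · rw [if_neg hQ]
    exact Nat.zero_le _

private theorem card_affine {F : Type} [Field F] [Fintype F] (d h e : F) (hd : d ≠ 0) (he : e ≠ 0)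
    (S : F → Prop) : (cnt fun t : F => S (e * (t * d + h))) = cnt S := by
  unfold cnt
  refine Finset.card_bij (fun t _ => e * (t * d + h)) ?_ ?_ ?_
  · intro t ht
    simpa using ht
  · intro a _ b _ hab
    have h1 : a * d + h = b * d + h := mul_left_cancel₀ he hab
    have h2 : a * d = b * d := add_right_cancel h1
    exact mul_right_cancel₀ hd h2
  · intro b hb
    have h1 : e * ((e⁻¹ * b - h) * d⁻¹ * d + h) = b := by
      field_simp
      ring
    refine ⟨(e⁻¹ * b - h) * d⁻¹, ?_, h1⟩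
    simp only [Finset.mem_filter, Finset.mem_univ, true_and, h1]
    simpa using hb

private theorem card_nonsq (p : ℕ) [Fact p.Prime] (hp : p ≠ 2) :
    1 + 2 * (cnt fun a : ZMod p => ¬ IsSquare a) = p := by
  classical
  have h0 : ringChar (ZMod p) ≠ 2 := by
    rw [ZMod.ringChar_zmod_n]
    exact hp
  have h1 := quadraticChar_sum_zero h0
  have h2 : ∀ a : ZMod p, (1 : ℤ) - quadraticChar (ZMod p) a =
      (if a = 0 then 1 else 0) + 2 * (if ¬ IsSquare a then 1 else 0) := by
    intro a
    by_cases ha : a = 0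
    · subst ha
      simp
    · by_cases hs : IsSquare a
      · rw [(quadraticChar_one_iff_isSquare ha).2 hs]
        simp [ha, hs]
      · rw [quadraticChar_neg_one_iff_not_isSquare.2 hs]
        simp [ha, hs]
  have h3 : (∑ a : ZMod p, ((1 : ℤ) - quadraticChar (ZMod p) a)) = (p : ℤ) := by
    rw [Finset.sum_sub_distrib, h1, sub_zero, Finset.sum_const, Finset.card_univ, ZMod.card]
    simp
  rw [Finset.sum_congr rfl (fun a _ => h2 a), Finset.sum_add_distrib, ← Finset.mul_sum,
    Finset.sum_ite_eq' Finset.univ (0 : ZMod p) (fun _ => (1 : ℤ))] at h3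
  rw [if_pos (Finset.mem_univ _)] at h3
  have h4 : (∑ a : ZMod p, if ¬ IsSquare a then (1 : ℤ) else 0) =
      ((cnt fun a : ZMod p => ¬ IsSquare a : ℕ) : ℤ) := by
    unfold cnt
    rw [Finset.card_filter]
    push_cast
    rfl
  rw [h4] at h3
  exact_mod_cast h3

private theorem card_up (p : ℕ) [Fact p.Prime] (r : ℕ) :
    (p : ℝ) ^ (Fintype.card (UpIdx (r + 1))) =
      (p : ℝ) * (p : ℝ) ^ r * (p : ℝ) ^ (Fintype.card (UpIdx r)) := by
  have h1 := Fintype.card_congr (gE (F := ZMod p) r)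
  rw [Fintype.card_prod, Fintype.card_prod, Fintype.card_fun, Fintype.card_fun,
    Fintype.card_fun, ZMod.card, Fintype.card_fin] at h1
  have h2 : ((p ^ (Fintype.card (UpIdx (r + 1))) : ℕ) : ℝ) =
      ((p * (p ^ r * p ^ (Fintype.card (UpIdx r))) : ℕ) : ℝ) := by
    rw [h1]
  push_cast at h2
  rw [h2]
  ring

private theorem nonsing (p : ℕ) [Fact p.Prime] (r : ℕ) :
    (1 - 1 / (p : ℝ)) ^ r * (p : ℝ) ^ (Fintype.card (UpIdx r)) ≤
      ((cnt fun y : UpIdx r → ZMod p => (toSym y).det ≠ 0 : ℕ) : ℝ) := by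
  have hp : (0 : ℝ) < p := by exact_mod_cast (Fact.out : p.Prime).pos
  have hp1 : (1 : ℝ) ≤ p := by exact_mod_cast (Fact.out : p.Prime).one_lt.le
  induction r with
  | zero =>
    classical
    have h1 : Fintype.card (UpIdx 0) = 0 := by
      rw [Fintype.card_eq_zero_iff]
      exact ⟨fun q => q.1.1.elim0⟩
    rw [h1, pow_zero, pow_zero, one_mul]
    rw [cnt_all, Fintype.card_fun, h1, pow_zero]
    · simp
    · intro y
      rw [Matrix.det_isEmpty]
      exact one_ne_zero
  | succ r ih =>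
    have h1 := count_glue (F := ZMod p) (r := r) (p - 1) (fun y => (toSym y).det ≠ 0)
      (fun x => (toSym x).det ≠ 0) (by
        intro c y hy
        have h2 := card_affine (F := ZMod p) (toSym y).det (toSym (glue 0 c y)).det 1 hy
          one_ne_zero (fun a => a ≠ 0)
        have h3 : (cnt fun t : ZMod p => (toSym (glue t c y)).det ≠ 0) =
            (cnt fun t : ZMod p =>
              (1 : ZMod p) * (t * (toSym y).det + (toSym (glue 0 c y)).det) ≠ 0) := by
          refine cnt_congr fun t => ?_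
          rw [det_glue, one_mul]
        rw [h3, h2, cnt_ne, ZMod.card])
    rw [ZMod.card] at h1
    have h2 : (((p - 1 : ℕ) : ℝ)) * ((p : ℝ) ^ r *
        ((cnt fun y : UpIdx r → ZMod p => (toSym y).det ≠ 0 : ℕ) : ℝ)) ≤
        ((cnt fun x : UpIdx (r + 1) → ZMod p => (toSym x).det ≠ 0 : ℕ) : ℝ) := by
      exact_mod_cast h1
    refine le_trans ?_ h2
    rw [Nat.cast_sub (Fact.out : p.Prime).one_lt.le, Nat.cast_one, card_up]
    have h3 : (1 - 1 / (p : ℝ)) ^ (r + 1) *
        ((p : ℝ) * (p : ℝ) ^ r * (p : ℝ) ^ (Fintype.card (UpIdx r))) =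
        ((p : ℝ) - 1) * ((p : ℝ) ^ r *
          ((1 - 1 / (p : ℝ)) ^ r * (p : ℝ) ^ (Fintype.card (UpIdx r)))) := by
      rw [pow_succ]
      field_simp
    rw [h3]
    refine mul_le_mul_of_nonneg_left ?_ (by linarith)
    exact mul_le_mul_of_nonneg_left ih (by positivity)

theorem sym_dens_u (m : ℕ) (hm : 1 ≤ m) (p : ℕ) (hp : p.Prime) (hp2 : 2 * m ≤ p) (hp3 : 3 ≤ p)
    (u : ZMod p) (hu : u ≠ 0) :
    (1 / (4 * (p : ℝ))) * (p : ℝ) ^ (Fintype.card (UpIdx (m + 1))) ≤
      (({x : UpIdx (m + 1) → ZMod p | (toSym x).det = 0 ∧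
        ¬ IsSquare (u * ((toSym x).submatrix Fin.succ Fin.succ).det)}.ncard : ℕ) : ℝ) := by
  classical
  have : Fact p.Prime := ⟨hp⟩
  have hp0 : (0 : ℝ) < p := by exact_mod_cast hp.pos
  have hp1 : (1 : ℝ) ≤ p := by exact_mod_cast hp.one_lt.le
  obtain ⟨r, rfl⟩ : ∃ r, m = r + 1 := ⟨m - 1, by omega⟩
  -- step 2
  have hns := card_nonsq p (by omega)
  have h1 := count_glue (F := ZMod p) (r := r)
    (cnt fun a : ZMod p => ¬ IsSquare a) (fun y => (toSym y).det ≠ 0)
    (fun x => ¬ IsSquare (u * (toSym x).det)) (by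
      intro c y hy
      have h2 := card_affine (F := ZMod p) (toSym y).det (toSym (glue 0 c y)).det u hy
        hu (fun a => ¬ IsSquare a)
      rw [← h2]
      refine le_of_eq (cnt_congr fun t => ?_)
      rw [det_glue t])
  -- step 3
  have h2 := count_glue (F := ZMod p) (r := r + 1) 1
    (fun x => ¬ IsSquare (u * (toSym x).det))
    (fun x => (toSym x).det = 0 ∧
      ¬ IsSquare (u * ((toSym x).submatrix Fin.succ Fin.succ).det)) (by
      intro c y hy
      have hy0 : (toSym y).det ≠ 0 := by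
        intro h
        apply hy
        rw [h, mul_zero]
        exact IsSquare.zero
      have h3 := card_affine (F := ZMod p) (toSym y).det (toSym (glue 0 c y)).det 1 hy0
        one_ne_zero (fun a => a = 0)
      have h4 : (cnt fun t : ZMod p => (toSym (glue t c y)).det = 0 ∧
          ¬ IsSquare (u *
            ((toSym (glue t c y)).submatrix Fin.succ Fin.succ).det)) =
          (cnt fun t : ZMod p =>
            (1 : ZMod p) * (t * (toSym y).det + (toSym (glue 0 c y)).det) = 0) := by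
        refine cnt_congr fun t => ?_
        rw [sym_ss, det_glue, one_mul]
        exact ⟨fun h => h.1, fun h => ⟨h, hy⟩⟩
      rw [h4, h3]
      refine Finset.card_pos.2 ⟨0, ?_⟩
      simp)
  rw [ZMod.card] at h1 h2
  have h3 : (({x : UpIdx (r + 1 + 1) → ZMod p | (toSym x).det = 0 ∧
        ¬ IsSquare (u * ((toSym x).submatrix Fin.succ Fin.succ).det)}.ncard : ℕ) : ℝ) =
      ((cnt fun x : UpIdx (r + 1 + 1) → ZMod p => (toSym x).det = 0 ∧
        ¬ IsSquare (u *
          ((toSym x).submatrix Fin.succ Fin.succ).det) : ℕ) : ℝ) := by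
    unfold cnt
    rw [Set.ncard_eq_toFinset_card']
    congr 2
    ext x
    simp
  rw [h3]
  have g3 := nonsing p r
  set n1 := (cnt fun a : ZMod p => ¬ IsSquare a) with hn1
  set n2 := (cnt fun y : UpIdx r → ZMod p => (toSym y).det ≠ 0) with hn2
  set n3 := (cnt fun x : UpIdx (r + 1) → ZMod p =>
    ¬ IsSquare (u * (toSym x).det)) with hn3
  set n4 := (cnt fun x : UpIdx (r + 1 + 1) → ZMod p => (toSym x).det = 0 ∧
        ¬ IsSquare (u * ((toSym x).submatrix Fin.succ Fin.succ).det)) with hn4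
  have g1 : (n1 : ℝ) * ((p : ℝ) ^ r * n2) ≤ n3 := by exact_mod_cast h1
  have g2 : (p : ℝ) ^ (r + 1) * n3 ≤ n4 := by
    have := h2
    rw [one_mul] at this
    exact_mod_cast this
  have g4 : (n1 : ℝ) = ((p : ℝ) - 1) / 2 := by
    have : (1 : ℝ) + 2 * n1 = p := by exact_mod_cast hns
    linarith
  have g5 : (1 : ℝ) / 2 ≤ (1 - 1 / (p : ℝ)) ^ (r + 1) := by
    have b1 := one_add_mul_le_pow (a := -(1 / (p : ℝ))) (by
      have : 1 / (p : ℝ) ≤ 1 := by
        rw [div_le_one hp0]
        exact hp1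
      linarith) (r + 1)
    have b2 : ((r + 1 : ℕ) : ℝ) * (1 / (p : ℝ)) ≤ 1 / 2 := by
      rw [mul_one_div, div_le_div_iff₀ hp0 (by norm_num)]
      have : ((2 * (r + 1) : ℕ) : ℝ) ≤ p := by exact_mod_cast hp2
      push_cast at this ⊢
      linarith
    have b3 : (1 - 1 / (p : ℝ)) = 1 + -(1 / (p : ℝ)) := by ring
    rw [b3]
    refine le_trans ?_ b1
    linarith
  have g6 : ((p : ℝ) - 1) / 2 * ((p : ℝ) ^ r * ((1 - 1 / (p : ℝ)) ^ r *
      (p : ℝ) ^ (Fintype.card (UpIdx r)))) ≤ n3 := by
    refine le_trans ?_ g1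
    rw [g4]
    refine mul_le_mul_of_nonneg_left ?_ (by linarith)
    exact mul_le_mul_of_nonneg_left g3 (by positivity)
  have g7 : ((p : ℝ) - 1) / 2 * ((p : ℝ) ^ r * ((1 - 1 / (p : ℝ)) ^ r *
      (p : ℝ) ^ (Fintype.card (UpIdx r)))) = (1 / 2) * (1 - 1 / (p : ℝ)) ^ (r + 1) *
        (p : ℝ) ^ (Fintype.card (UpIdx (r + 1))) := by
    rw [card_up, pow_succ (1 - 1 / (p : ℝ)) r]
    field_simp
  rw [g7] at g6
  have g8 : (1 / 4 : ℝ) * (p : ℝ) ^ (Fintype.card (UpIdx (r + 1))) ≤ n3 := by
    refine le_trans ?_ g6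
    refine mul_le_mul_of_nonneg_right ?_ (by positivity)
    linarith
  refine le_trans ?_ g2
  rw [card_up]
  have g9 : 1 / (4 * (p : ℝ)) * ((p : ℝ) * (p : ℝ) ^ (r + 1) *
      (p : ℝ) ^ (Fintype.card (UpIdx (r + 1)))) =
      (p : ℝ) ^ (r + 1) * ((1 / 4 : ℝ) * (p : ℝ) ^ (Fintype.card (UpIdx (r + 1)))) := by
    field_simp
  rw [g9]
  exact mul_le_mul_of_nonneg_left g8 (by positivity)

end Pool.Agent.Helper38.DZR
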